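import Mathlib
import Pool.Graph.R_pool_sql_team_seeded_63374d34.N892.BW.Stm3
import Pool.Graph.R_pool_sql_team_seeded_63374d34.N892.BW.StmFix

/-!
Powers of the Beurling transform, project RP: real exponents `p = 2 m`, `m` real. The statements of the
library project `N892/BW` (even exponents `p = 2 m`, `m` a natural number) with `m` real, with an abstract
constant `A` in Pitt's inequality in the place of `Γ(1/p) / Γ(1-1/p)`.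
-/

set_option autoImplicit false

open MeasureTheory ENNReal Filter Topology Complex
open scoped ComplexConjugate ContDiff

namespace Pool.Agent.H10.RP

open Pool.Agent.N892.BW

/-- the conjugate exponent of `2 m` -/
noncomputable def qr (m : ℝ) : ℝ := 2 * m / (2 * m - 1)

/-- `n ^ (1 - 2/p) A` for `p = 2 m` -/
noncomputable def AR (A m : ℝ) (n : ℕ) : ℝ := (n : ℝ) ^ (1 - 1 / m) * A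

/-- the integral of the power `2 m` -/
noncomputable def Nr (m : ℝ) (f : ℂ → ℂ) : ℝ≥0∞ := ∫⁻ x, ‖f x‖ₑ ^ (2 * m)

/-- the integral of the power `m` of the local square averages -/
noncomputable def Lr (m : ℝ) (χ : ℂ → ℝ) (ρ : ℝ) (f : ℂ → ℂ) : ℝ≥0∞ :=
  ∫⁻ z, (∫⁻ y, ENNReal.ofReal (sc χ ρ y) * ‖f (z + y)‖ₑ ^ 2) ^ m

/-- the integral of the power `m` of the square function -/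
noncomputable def Sr (m : ℝ) (M : ℕ) (H : ℕ → ℂ → ℂ) : ℝ≥0∞ :=
  ∫⁻ x, (∑ k ∈ Finset.range M, ‖Fi (H k) x‖ₑ ^ 2) ^ m

/-- Pitt's inequality for the exponent `2 m` with the constant `A` -/
def Pit (m A : ℝ) : Prop := ∀ F : ℂ → ℂ, Nice F →
  ∫⁻ x, ‖∫ u, F u * ex x u‖ₑ ^ (2 * m) ≤
    ENNReal.ofReal (4 * Real.pi ^ (2 * m) * A ^ (2 * m)) * ∫⁻ u, ‖F u‖ₑ ^ (2 * m) * ‖u‖ₑ ^ (4 * m - 4)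

/-! ### first group: the dual inequality -/

/-- PAL (template N892/BW/PAL.lean, PAL_a.lean, PAL_cov.lean) -/
def R_PAL : Prop := ∀ (m A : ℝ) (n : ℕ), 1 < m → 0 < A → Pit m A → 1 ≤ n → ∀ g : ℂ → ℂ, Nice g →
  ∫⁻ w, (ENNReal.ofReal (ker n w) * ‖hat g (iv n w)‖ₑ) ^ (qr m) ≤
    ENNReal.ofReal (AR A m n ^ (qr m)) * ∫⁻ x, ‖g x‖ₑ ^ (qr m)

/-- MZC (template N892/BW/MZC.lean) -/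
def R_MZC : Prop := ∀ (m A : ℝ) (n : ℕ), 1 < m → 0 < A → Pit m A → 1 ≤ n → ∀ T : ℝ, 0 < T →
  ∀ g : ℂ → ℂ, Nice g →
  ∫⁻ w, (ENNReal.ofReal (ker n w ^ 2) * av T (fun v => ‖hat g v‖ₑ ^ 2) (iv n w)) ^ (qr m / 2) ≤
    ENNReal.ofReal (AR A m n ^ (qr m)) * ∫⁻ x, ‖g x‖ₑ ^ (qr m)

/-- YNG (template N892/BW/YNG.lean) -/
def R_YNG : Prop := ∀ m : ℝ, 1 < m → ∃ C : ℝ, 0 < C ∧ ∀ δ : ℝ, 0 < δ → ∀ g : ℂ → ℝ≥0∞, Measurable g →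
  ∫⁻ z, ∫⁻ z', (if δ ≤ ‖z - z'‖ then g z * g z' * ENNReal.ofReal ((‖z - z'‖ ^ 2)⁻¹) else 0) ≤
    ENNReal.ofReal (C * δ ^ (-2 + 2 / m)) * (∫⁻ z, g z ^ (qr m)) ^ (2 / qr m)

/-- INT (template N892/BW/INT.lean) -/
def R_INT : Prop := ∀ m : ℝ, 1 < m → ∃ C : ℝ, 0 < C ∧
  ∀ (n : ℕ) (ψ : ℂ → ℝ) (l D CJ δ : ℝ) (χ : ℂ → ℝ) (cell : ℂ → ℤ × ℤ) (g : ℂ → ℂ),
  1 ≤ n → 0 < l → l ≤ 1 → 1 ≤ D → 0 ≤ CJ → 0 < δ → Measurable χ → (∀ y, 0 ≤ χ y) → (∀ y, l < ‖y‖ → χ y = 0) →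
  (∫ y, χ y = 1) → (∃ B, Cut B 1 D ψ) → Measurable cell → Nice g →
  (∀ z z', g z ≠ 0 → g z' ≠ 0 → cell z ≠ cell z' → δ ≤ ‖z - z'‖) →
  (∀ z z' w : ℂ, z ≠ z' →
    ‖∫ y, (χ y : ℂ) * (kk n ψ (w + y - z) * conj (kk n ψ (w + y - z')))‖ ≤ CJ * (‖z - z'‖ ^ 2)⁻¹) →
  ∫⁻ w, (∫⁻ y, ENNReal.ofReal (χ y) * ‖So n ψ g (w + y)‖ₑ ^ 2) ^ (qr m / 2) ≤
    (∑' Q : ℤ × ℤ, ∫⁻ w, (∫⁻ y, ENNReal.ofReal (χ y) * ‖So n ψ (pc cell g Q) (w + y)‖ₑ ^ 2) ^ (qr m / 2)) +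
    ENNReal.ofReal (C * CJ ^ (qr m / 2) * (δ ^ (-2 + 2 / m)) ^ (qr m / 2) * D ^ 2) *
      ∫⁻ z, ‖g z‖ₑ ^ (qr m)

/-- CELL (template N892/BW/CELL.lean) -/
def R_CELL : Prop := ∀ (m B : ℝ), 1 < m → ∃ C : ℝ, 0 < C ∧ ∀ A ε : ℝ, 0 < A → Pit m A → 0 < ε →
  ∃ η : ℝ, 0 < η ∧
  ∀ (n : ℕ) (R l T D : ℝ) (ψ : ℂ → ℝ) (χ : ℂ → ℝ≥0∞) (a : ℂ) (g : ℂ → ℂ),
  1 ≤ n → 0 < R → R ≤ 1 / 8 → (n : ℝ) * R ^ 2 ≤ 1 / 4 → 0 < l → l ≤ η → 1 ≤ D → 0 < T →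
  T * D ≤ η * n → (n : ℝ) * l ≤ η * T → Cut B 1 D ψ → Mol l χ → Nice g → (∀ z, g z ≠ 0 → ‖z - a‖ ≤ R) →
  (∫⁻ w, (∫⁻ y, χ y * ‖So n ψ g (w + y)‖ₑ ^ 2) ^ (qr m / 2)) ^ (1 / qr m) ≤
    ENNReal.ofReal ((1 + ε) * AR A m n + C * n * (R + n * R ^ 2) * R ^ (1 / m)) *
      (∫⁻ z, ‖g z‖ₑ ^ (qr m)) ^ (1 / qr m)

/-- FIN, the finite bound used in LQT (template N892/BW/LQT_A.lean, `fin`) : for every `n`, `ψ` there is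
some constant. -/
def R_FIN : Prop := ∀ (m : ℝ) (n : ℕ) (B D l : ℝ) (ψ : ℂ → ℝ) (χ : ℂ → ℝ≥0∞), 1 < m → 1 ≤ n → 1 ≤ D →
  Cut B 1 D ψ → l ≤ 1 → Mol l χ →
  ∃ K : ℝ, 0 ≤ K ∧ ∀ g : ℂ → ℂ, Nice g →
    ∫⁻ w, (∫⁻ y, χ y * ‖So n ψ g (w + y)‖ₑ ^ 2) ^ (qr m / 2) ≤
      ENNReal.ofReal (K ^ (qr m)) * ∫⁻ z, ‖g z‖ₑ ^ (qr m)

/-- LQT (template N892/BW/LQT.lean, LQT_A.lean, LQ*.lean) -/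
def R_LQT : Prop := ∃ χ₀ : ℂ → ℝ, Bump χ₀ ∧ ∀ (m A B ε : ℝ), 6 / 5 ≤ m → 0 < A → Pit m A → 0 < ε →
  ∃ n₀ : ℕ, ∀ n : ℕ, n₀ ≤ n → ∀ ψ : ℂ → ℝ, Cut B 1 ((n : ℝ) ^ (1 / 40 : ℝ)) ψ → ∀ g : ℂ → ℂ, Nice g →
  ∫⁻ w, (∫⁻ y, ENNReal.ofReal (sc χ₀ ((n : ℝ) ^ (-(51 / 2000) : ℝ)) y) * ‖So n ψ g (w + y)‖ₑ ^ 2) ^ (qr m / 2) ≤
    ENNReal.ofReal (((1 + ε) * AR A m n) ^ (qr m)) * ∫⁻ z, ‖g z‖ₑ ^ (qr m)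

/-- DUT (template N892/BW/DUT.lean, DUA.lean) -/
def R_DUT : Prop := ∀ (χ₀ : ℂ → ℝ) (m : ℝ) (n : ℕ) (B r s A l : ℝ), Bump χ₀ → 1 < m → 1 ≤ n → 0 < r →
  0 ≤ A → 0 < l →
  (∀ ψ : ℂ → ℝ, Cut B 1 s ψ → ∀ g : ℂ → ℂ, Nice g →
    ∫⁻ w, (∫⁻ y, ENNReal.ofReal (sc χ₀ l y) * ‖So n ψ g (w + y)‖ₑ ^ 2) ^ (qr m / 2) ≤
      ENNReal.ofReal (A ^ (qr m)) * ∫⁻ z, ‖g z‖ₑ ^ (qr m)) →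
  ∀ ψ : ℂ → ℝ, Cut B r (r * s) ψ → ∀ f : ℂ → ℂ, Measurable f → Nr m f < ⊤ →
    Nr m (So n ψ f) ≤ ENNReal.ofReal (A ^ (2 * m)) * Lr m χ₀ (l * r) f

/-! ### second group: localisation -/

/-- MUL (template N892/BW/MUL.lean) -/
def R_MUL : Prop := ∃ (E : ℕ) (C : ℝ), 0 ≤ C ∧ ∀ (n : ℕ) (a b δ : ℝ) (μ : ℂ → ℂ), 1 ≤ n → 0 < a → a ≤ b →
  b ≤ a * n → 0 ≤ δ → ContDiffOn ℝ ∞ μ {ξ | ξ ≠ 0} →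
  (∀ k : ℕ, k ≤ 4 → ∀ ξ : ℂ, a / 2 ≤ ‖ξ‖ → ‖ξ‖ ≤ 2 * b →
    ‖iteratedFDeriv ℝ k μ ξ‖ ≤ δ * ((n : ℝ) ^ 2 / a) ^ k) →
  ∀ h, Bd a b h → ∀ m : ℝ, 1 ≤ m →
    Nr m (Fi (fun ξ => μ ξ * h ξ)) ≤ ENNReal.ofReal ((C * (n : ℝ) ^ E * δ) ^ (2 * m)) * Nr m (Fi h)

/-- LOC (template N892/BW/LOC.lean) -/
def R_LOC : Prop := ∃ B : ℝ, ∀ N : ℕ, ∃ (C : ℝ) (n₁ : ℕ), 0 ≤ C ∧ ∀ (n : ℕ) (a b : ℝ), n₁ ≤ n → 0 < a →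
  a ≤ b → b ≤ a * n → ∃ ψ : ℂ → ℝ,
  Cut B ((n : ℝ) ^ (99 / 100 : ℝ) / b) (2 * (n : ℝ) ^ (101 / 100 : ℝ) / a) ψ ∧
  ∀ h, Bd a b h → ∀ m : ℝ, 1 ≤ m →
    Nr m (fun x => Fi (Tn n h) x - So n ψ (Fi h) x) ≤
      ENNReal.ofReal ((C * ((n : ℝ) ^ N)⁻¹) ^ (2 * m)) * Nr m (Fi h)

/-- STR (template N892/BW/STR.lean) -/
def R_STR : Prop := ∃ χ₀ : ℂ → ℝ, Bump χ₀ ∧ ∀ (m A ε : ℝ), 6 / 5 ≤ m → 0 < A → Pit m A → 0 < ε →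
  ∃ n₀ : ℕ, ∀ (n : ℕ) (a b : ℝ), n₀ ≤ n → 0 < a → a ≤ b → b ≤ a * (n : ℝ) ^ (1 / 250 : ℝ) → ∀ h, Bd a b h →
  (Nr m (Fi (Tn n h))) ^ (1 / (2 * m)) ≤
    ENNReal.ofReal ((1 + ε) * AR A m n) * (Lr m χ₀ ((n : ℝ) ^ (1929 / 2000 : ℝ) / b) (Fi h)) ^ (1 / (2 * m)) +
      (Nr m (Fi h)) ^ (1 / (2 * m))

/-- FNT (template N892/BW/FNT.lean) -/
def R_FNT : Prop := ∀ (m : ℝ) (n : ℕ) (a b : ℝ), 1 ≤ m → 1 ≤ n → 0 < a → ∃ C : ℝ, 0 ≤ C ∧ ∀ h, Bd a b h →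
  Nr m (Fi (Tn n h)) ≤ ENNReal.ofReal C * Nr m (Fi h)

/-- CMP (template N892/BW/CMP.lean) -/
def R_CMP : Prop := ∀ χ₀ χ' : ℂ → ℝ, Bump χ₀ → Den χ' → ∃ C : ℝ, 0 ≤ C ∧ ∀ (m ρ l : ℝ) (f : ℂ → ℂ),
  1 ≤ m → 0 < ρ → 0 < l → Measurable f →
  (Lr m χ₀ l f) ^ (1 / m) ≤
    (Lr m χ' ρ f) ^ (1 / m) + ENNReal.ofReal (C * (ρ / l)) * (Nr m f) ^ (1 / m)

/-! ### third group: square functions and energy inequalities -/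

/-- DMX (template N892/BW/DMX.lean) -/
def R_DMX : Prop := ∀ m : ℝ, 1 ≤ m → ∃ C : ℝ, 0 < C ∧ ∀ (L : ℕ) (β : ℕ → ℝ) (g : ℕ → ℂ → ℝ≥0∞),
  (∀ i, 0 < β i) → (∀ i, Measurable (g i)) →
  ∫⁻ x, (∑ i ∈ Finset.range L, cv (PP (β i)) (g i) x) ^ m ≤
    ENNReal.ofReal C * ∫⁻ x, (∑ i ∈ Finset.range L, g i x) ^ m

/-- RTM: interpolation (Riesz-Thorin) between the exponents `2 k` and `2 k + 2` for a Fourier multiplier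
with smooth symbol with compact support; the constant `C'` depends on `k`, `m`, `C` only -/
def R_RTM : Prop := ∀ (k : ℕ) (m C : ℝ), 1 ≤ k → (k : ℝ) ≤ m → m ≤ k + 1 → 0 ≤ C → ∃ C' : ℝ, 0 ≤ C' ∧
  ∀ (B : ℝ) (μ : ℂ → ℂ), Bd 0 B μ →
  (∀ (b : ℝ) (h : ℂ → ℂ), Bd 0 b h → Nm k (Fi (fun ξ => μ ξ * h ξ)) ≤ ENNReal.ofReal C * Nm k (Fi h)) →
  (∀ (b : ℝ) (h : ℂ → ℂ), Bd 0 b h →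
    Nm (k + 1) (Fi (fun ξ => μ ξ * h ξ)) ≤ ENNReal.ofReal C * Nm (k + 1) (Fi h)) →
  ∀ (b : ℝ) (h : ℂ → ℂ), Bd 0 b h → Nr m (Fi (fun ξ => μ ξ * h ξ)) ≤ ENNReal.ofReal C' * Nr m (Fi h)

/-- the symbol `∑ s_i bp β i` -/
noncomputable def ss (L : ℕ) (s : ℕ → ℝ) (β : ℕ → ℝ) (ξ : ℂ) : ℂ :=
  ∑ i ∈ Finset.range L, (s i : ℂ) * bp β i ξ

/-- SGE: sign multipliers, even exponents (from the library theorems LPS and REV) -/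
def R_SGE : Prop := ∀ k : ℕ, 1 ≤ k → ∃ C : ℝ, 0 ≤ C ∧ ∀ (L : ℕ) (s β : ℕ → ℝ) (b : ℝ) (h : ℂ → ℂ),
  (∀ i, |s i| ≤ 1) → 0 < β 0 → (∀ i, 2 * β i ≤ β (i + 1)) → Bd 0 b h →
  Nm k (Fi (fun ξ => ss L s β ξ * h ξ)) ≤ ENNReal.ofReal C * Nm k (Fi h)

/-- SGR: sign multipliers, real exponents (from SGE and RTM) -/
def R_SGR : Prop := ∀ m : ℝ, 1 ≤ m → ∃ C : ℝ, 0 ≤ C ∧ ∀ (L : ℕ) (s β : ℕ → ℝ) (b : ℝ) (h : ℂ → ℂ),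
  (∀ i, |s i| ≤ 1) → 0 < β 0 → (∀ i, 2 * β i ≤ β (i + 1)) → Bd 0 b h →
  Nr m (Fi (fun ξ => ss L s β ξ * h ξ)) ≤ ENNReal.ofReal C * Nr m (Fi h)

/-- LPS: the square function inequality (average over signs of SGR) -/
def R_LPS : Prop := ∀ m : ℝ, 1 ≤ m → ∃ C : ℝ, 0 ≤ C ∧ ∀ (L : ℕ) (β : ℕ → ℝ) (b : ℝ) (h : ℂ → ℂ),
  0 < β 0 → (∀ i, 2 * β i ≤ β (i + 1)) → Bd 0 b h →
  ∫⁻ x, (∑ i ∈ Finset.range L, ‖Fi (fun ξ => bp β i ξ * h ξ) x‖ₑ ^ 2) ^ m ≤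
    ENNReal.ofReal C * Nr m (Fi h)

/-- CLS: the sum over the residue classes (average over signs of SGR) -/
def R_CLS : Prop := ∀ m : ℝ, 1 ≤ m → ∃ C : ℝ, 0 ≤ C ∧ ∀ (J Mp : ℕ) (β : ℕ → ℝ) (b : ℝ) (h : ℂ → ℂ),
  1 ≤ J → 0 < β 0 → (∀ i, 2 * β i ≤ β (i + 1)) → Bd 0 b h →
  (∑ o ∈ Finset.range J, Nr m (Fi (fun ξ => ∑ k ∈ Finset.range Mp, bp β (k * J + o) ξ * h ξ))) ≤
    ENNReal.ofReal C * Nr m (Fi h)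

/-- LPF (template N892/BW/LPF.lean) -/
def R_LPF : Prop := ∀ (m : ℝ) (μ : ℕ), 1 ≤ m → 1 ≤ μ → ∃ C : ℝ, 0 ≤ C ∧
  ∀ (M : ℕ) (a b : ℕ → ℝ) (H : ℕ → ℂ → ℂ),
  Sep μ M a b H → Sr m M H ≤ ENNReal.ofReal C * Nr m (Fi (sm H M))

/-- SPT (template N892/BW/SPT.lean, with R_CLS in the place of LPS and REV) -/
def R_SPT : Prop := ∀ (m : ℝ) (μ : ℕ) (κ : ℝ), 1 ≤ m → 1 ≤ μ → 0 < κ → ∃ (τ : ℝ) (n₀ : ℕ), 0 < τ ∧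
  τ ≤ 1 / 10 ∧
  ∀ (n : ℕ) (lam : ℝ) (h : ℂ → ℂ), n₀ ≤ n → Bd 1 lam h →
  ∃ (M : ℕ) (H : ℕ → ℂ → ℂ) (a b : ℕ → ℝ) (g : ℂ → ℂ),
    (∀ ξ, h ξ = g ξ + sm H M ξ) ∧ Bd 1 lam g ∧
    Nr m (Fi g) ≤ ENNReal.ofReal (κ ^ (2 * m)) * Nr m (Fi h) ∧ Sep μ M a b H ∧
    ∀ k, k < M → Bd 1 lam (H k) ∧ b k ≤ a k * (n : ℝ) ^ (1 / 250 : ℝ) ∧ b k * (n : ℝ) ^ τ ≤ a (k + 1)

/-- GSM (template N892/BW/GSM.lean) -/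
def R_GSM : Prop := ∀ (m τ : ℝ), 1 < m → 0 < τ → τ ≤ 1 → ∃ δ C : ℝ, 0 < δ ∧ 0 ≤ C ∧
  ∀ (n M : ℕ) (a b : ℕ → ℝ) (H : ℕ → ℂ → ℂ), 1 ≤ n →
  (∀ k, k < M → 0 < a k ∧ a k ≤ b k ∧ b k ≤ a k * n ∧ Bd (a k) (b k) (H k)) →
  ∫⁻ x, (∑ k ∈ Finset.range M, av ((n : ℝ) ^ (τ / 2) / a k) (fun z => ‖Fi (Tn n (H k)) z‖ₑ ^ 2) x) ^ m ≤
    ENNReal.ofReal ((C * (n : ℝ) ^ (2 * (1 - 1 / m) - δ)) ^ m) * Sr m M H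

/-- INR (template N892/BW/INR.lean) -/
def R_INR : Prop := ∀ (m τ : ℝ) (μ : ℕ), 1 < m → 0 < τ → τ ≤ 1 → 1 ≤ μ → ∃ δ C : ℝ, 0 < δ ∧ 0 ≤ C ∧
  ∀ (n M : ℕ) (a b : ℕ → ℝ) (H : ℕ → ℂ → ℂ), 1 ≤ n → Sep μ M a b H →
  (∀ k, k < M → b k ≤ a k * n ∧ b k * (n : ℝ) ^ τ ≤ a (k + 1)) →
  (∑ k ∈ Finset.range M,
      (∫⁻ x, ‖Fi (Tn n (H k)) x‖ₑ ^ 2 * ‖Fi (Tn n (sm H k)) x‖ₑ ^ (2 * m - 2))) ≤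
    ENNReal.ofReal (C * (n : ℝ) ^ (2 * (1 - 1 / m) - δ)) * (Sr m M H) ^ (1 / m) *
      (Nr m (Fi (Tn n (sm H M)))) ^ (1 - 1 / m)

/-- SUQ (template N892/BW/SUQ.lean, SUQ_A.lean, SUP*.lean) -/
def R_SUQ : Prop := ∃ χ' : ℂ → ℝ, Den χ' ∧ ∀ (m : ℝ) (μ : ℕ), 1 < m → 1 ≤ μ → ∃ C : ℝ, 0 ≤ C ∧
  ∀ (M : ℕ) (a b ρ : ℕ → ℝ) (H : ℕ → ℂ → ℂ) (η : ℝ), 0 ≤ η → η ≤ 1 → Sep μ M a b H →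
  (∀ k, 0 < ρ k) → 1 / ρ 0 < a 0 →
  (∀ k, k + 1 < M → ρ (k + 1) * b k ≤ η ∧ b k + 1 / ρ (k + 1) < a (k + 1)) →
  (∑ k ∈ Finset.range M, Lr m χ' (ρ k) (Fi (H k))) ≤ ENNReal.ofReal (1 + C * η) * Nr m (Fi (sm H M))

/-- NUM: the numerical inequality (template N892/BW/NUM.lean) -/
def R_NUM : Prop := ∀ (m ε : ℝ), 1 < m → 0 < ε → ∃ C : ℝ, 0 ≤ C ∧ ∀ a b : ℂ,
  ‖b + a‖ ^ (2 * m) ≤ ‖b‖ ^ (2 * m) + 2 * m * (‖b‖ ^ (2 * m - 2) * (conj b * a).re) +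
    (1 + ε) * ‖a‖ ^ (2 * m) + C * (‖a‖ ^ 2 * ‖b‖ ^ (2 * m - 2))

/-- LTM: the linear terms -/
def R_LTM : Prop := ∀ (m : ℝ) (μ : ℕ), 1 < m → 1 ≤ μ → ∃ C : ℝ, 0 ≤ C ∧
  ∀ (om : ℝ) (M : ℕ) (a b : ℕ → ℝ) (H : ℕ → ℂ → ℂ), 0 ≤ om → Sep μ M a b H →
  (∀ k, k + 1 < M → b k ≤ om * a (k + 1)) →
  (∑ k ∈ Finset.range M, ENNReal.ofReal
      |∫ x, ‖Fi (sm H k) x‖ ^ (2 * m - 2) * (conj (Fi (sm H k) x) * Fi (H k) x).re|) ≤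
    ENNReal.ofReal (C * om) * Nr m (Fi (sm H M))

/-- ENU: upper energy inequality, summed (template N892/BW/ENU.lean; from NUM and LTM) -/
def R_ENU : Prop := ∀ (m ε : ℝ) (μ : ℕ), 1 < m → 0 < ε → 1 ≤ μ → ∃ C : ℝ, 0 ≤ C ∧
  ∀ (om : ℝ) (M : ℕ) (a b : ℕ → ℝ) (H : ℕ → ℂ → ℂ), 0 ≤ om → Sep μ M a b H →
  (∀ k, k + 1 < M → b k ≤ om * a (k + 1)) →
  Nr m (Fi (sm H M)) ≤ ENNReal.ofReal (1 + ε) * (∑ k ∈ Finset.range M, Nr m (Fi (H k))) +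
    ENNReal.ofReal C * (∑ k ∈ Finset.range M,
      (∫⁻ x, ‖Fi (H k) x‖ₑ ^ 2 * ‖Fi (sm H k) x‖ₑ ^ (2 * m - 2))) +
    ENNReal.ofReal (C * om) * Nr m (Fi (sm H M))

/-! ### fourth group: the conclusion -/

/-- FTH (template N892/BW/FTH.lean, FTH_A.lean, KTH_A.lean, KTH_B.lean) -/
def R_FTH : Prop := ∀ (m A ε : ℝ), 6 / 5 ≤ m → 0 < A → Pit m A → 0 < ε → ∃ n₀ : ℕ, ∀ (n : ℕ) (lam : ℝ),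
  n₀ ≤ n → ∀ h, Bd 1 lam h →
    Nr m (Fi (Tn n h)) ≤ ENNReal.ofReal (((1 + ε) * AR A m n) ^ (2 * m)) * Nr m (Fi h)

/-- FUL (template N892/BW/FIN3.lean) -/
def R_FUL : Prop := ∀ (m A ε : ℝ), 6 / 5 ≤ m → 0 < A → Pit m A → 0 < ε → ∃ n₀ : ℕ, ∀ n : ℕ, n₀ ≤ n →
  ∀ f : SchwartzMap ℂ ℂ,
    eLpNorm (TS n f) (ENNReal.ofReal (2 * m)) volume ≤
      ENNReal.ofReal ((1 + ε) * AR A m n) * eLpNorm (fun z : ℂ => f z) (ENNReal.ofReal (2 * m)) volume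

end Pool.Agent.H10.RP
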