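import Mathlib
import Pool.Agent.H10.RP.Stm

/-!
Project RP, second file of statements: Pitt's inequality for the exponents `12/5`, `3`, `24/5` with good
constants, by Stein interpolation with a gain on the line of the even exponent.
-/

set_option autoImplicit false

open MeasureTheory ENNReal Filter Topology Complex
open scoped ComplexConjugate ContDiff

namespace Pool.Agent.H10.RP

open Pool.Agent.N892.BW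

/-- Poisson kernels of the strip `0 ≤ Re z ≤ 1` at the point `θ` -/
noncomputable def P1 (θ y : ℝ) : ℝ :=
  Real.sin (Real.pi * θ) / (2 * (Real.cosh (Real.pi * y) + Real.cos (Real.pi * θ)))

noncomputable def P0 (θ y : ℝ) : ℝ :=
  Real.sin (Real.pi * θ) / (2 * (Real.cosh (Real.pi * y) - Real.cos (Real.pi * θ)))

/-- POM: masses of the Poisson kernels. Hint: `(1/π) arctan (tan (πθ/2) tanh (πy/2))` is a primitive of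
`P1 θ`; `P0 θ = P1 (1-θ)`. -/
def R_POM : Prop := ∀ θ : ℝ, 0 < θ → θ < 1 →
  Integrable (P1 θ) ∧ (∫ y, P1 θ y = θ) ∧ Integrable (P0 θ) ∧ (∫ y, P0 θ y = 1 - θ)

/-- POI: Poisson formula on the strip. Hint: apply Cauchy-Goursat for rectangles to
`(H z - H θ) κ(z)`, `κ(z) = π sin πθ / (cos πθ - cos πz)`: simple pole at `θ`, `κ(iy) = -2π P0 θ y`,
`κ(1+iy) = 2π P1 θ y`, `|κ| ≤ C exp(-π |Im z|)`; then POM. -/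
def R_POI : Prop := ∀ (θ C : ℝ) (H : ℂ → ℂ), 0 < θ → θ < 1 →
  DifferentiableOn ℂ H {z | 0 < z.re ∧ z.re < 1} → ContinuousOn H {z | 0 ≤ z.re ∧ z.re ≤ 1} →
  (∀ z : ℂ, 0 ≤ z.re → z.re ≤ 1 → ‖H z‖ * (1 + |z.im|) ≤ C * Real.exp (Real.pi * |z.im|)) →
  Integrable (fun y : ℝ => (P0 θ y : ℂ) * H (Complex.I * y)) →
  Integrable (fun y : ℝ => (P1 θ y : ℂ) * H (1 + Complex.I * y)) →
  H θ = (∫ y : ℝ, (P0 θ y : ℂ) * H (Complex.I * y)) + ∫ y : ℝ, (P1 θ y : ℂ) * H (1 + Complex.I * y)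

/-- the outer function -/
noncomputable def GG (z : ℂ) : ℂ := 2 ^ z * Complex.Gamma (1 + z / 2) / Complex.Gamma (1 - z / 2)

/-- its value at a real point -/
noncomputable def GGr (θ : ℝ) : ℝ := 2 ^ θ * Real.Gamma (1 + θ / 2) / Real.Gamma (1 - θ / 2)

/-- GGL: properties of the outer function. Hint: `Γ(1+it)`, `Γ(1-it)` conjugate;
`Γ(3/2+iy/2) = (1/2+iy/2) Γ(1/2+iy/2)`; growth: `GG z = 2^z Γ(1+z/2)^2 sin(πz/2) / (πz/2)` by the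
reflection formula and `|Γ(w)| ≤ Γ(Re w)`, `|sin(πz/2)| ≤ exp(π |Im z| / 2)`. -/
def R_GGL : Prop := DifferentiableOn ℂ GG {z | -2 < z.re} ∧ (∀ y : ℝ, ‖GG (Complex.I * y)‖ = 1) ∧
  (∀ y : ℝ, ‖GG (1 + Complex.I * y)‖ ^ 2 = 1 + y ^ 2) ∧ (∀ θ : ℝ, 0 ≤ θ → θ ≤ 1 → GG θ = (GGr θ : ℂ)) ∧
  ∃ C : ℝ, ∀ z : ℂ, 0 ≤ z.re → z.re ≤ 1 → ‖GG z‖ ^ 2 * (1 + |z.im|) ≤ C * Real.exp (Real.pi * |z.im|)

/-- STA: three lines inequality with gain, exponent 4 and weight `1 + y^2`. From POM, POI and GGL, with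
`H z = Φ(z)^4 GG(z)^2 exp(λ (z - θ))` and the best real `λ`. -/
def R_STA : Prop := ∀ (θ M0 M1 C : ℝ) (Φ : ℂ → ℂ), 0 < θ → θ < 1 → 0 < M0 → 0 < M1 →
  Differentiable ℂ Φ → (∀ z : ℂ, 0 ≤ z.re → z.re ≤ 1 → ‖Φ z‖ ≤ C) →
  (∀ y : ℝ, ‖Φ (Complex.I * y)‖ ≤ M0) →
  (∫⁻ y : ℝ, ENNReal.ofReal (P1 θ y / θ * (1 + y ^ 2)) * ‖Φ (1 + Complex.I * y)‖ₑ ^ 4 ≤
    ENNReal.ofReal (M1 ^ 4)) →
  ‖Φ θ‖ ^ 4 * GGr θ ^ 2 ≤ (M0 ^ (1 - θ) * M1 ^ θ) ^ 4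

/-- STB: three lines inequality with gain, exponent 6, no weight. From POM and POI. -/
def R_STB : Prop := ∀ (θ M0 M1 C : ℝ) (Φ : ℂ → ℂ), 0 < θ → θ < 1 → 0 < M0 → 0 < M1 →
  Differentiable ℂ Φ → (∀ z : ℂ, 0 ≤ z.re → z.re ≤ 1 → ‖Φ z‖ ≤ C) →
  (∀ y : ℝ, ‖Φ (Complex.I * y)‖ ≤ M0) →
  (∫⁻ y : ℝ, ENNReal.ofReal (P1 θ y / θ) * ‖Φ (1 + Complex.I * y)‖ₑ ^ 6 ≤ ENNReal.ofReal (M1 ^ 6)) →
  ‖Φ θ‖ ≤ M0 ^ (1 - θ) * M1 ^ θ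

/-- PHI: the analytic bilinear form -/
def R_PHI : Prop := ∀ (α β : ℂ → ℂ) (lam μ : ℂ → ℝ) (K : ℝ), Nice α → Nice β → Measurable lam →
  Measurable μ → (∀ u, |lam u| ≤ K) → (∀ u, |μ u| ≤ K) →
  Differentiable ℂ (fun z : ℂ => ∫ x : ℂ, (∫ u : ℂ, (α u * Complex.exp (z * lam u)) * ex x u) *
    (β x * Complex.exp (z * μ x))) ∧
  ∃ C : ℝ, ∀ z : ℂ, |z.re| ≤ 1 → ‖∫ x : ℂ, (∫ u : ℂ, (α u * Complex.exp (z * lam u)) * ex x u) *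
    (β x * Complex.exp (z * μ x))‖ ≤ C

/-- `Γ(a/2) / Γ(1 - a/2)` -/
noncomputable def gm (a : ℂ) : ℂ := Complex.Gamma (a / 2) / Complex.Gamma (1 - a / 2)

/-- RZC: composition formula of Riesz potentials in the plane, complex exponents (the library has real
exponents: N892/BW/RZ.lean, `S_RZ`). Either the same proof with Bochner integrals (absolute convergence
from the real case), or analytic continuation in `a` and `b`. -/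
def R_RZC : Prop := ∀ a b : ℂ, 0 < a.re → 0 < b.re → (a + b).re < 2 → ∀ x : ℂ, x ≠ 0 →
  Integrable (fun y : ℂ => ((‖y‖ : ℝ) : ℂ) ^ (a - 2) * ((‖x - y‖ : ℝ) : ℂ) ^ (b - 2)) ∧
  ∫ y : ℂ, ((‖y‖ : ℝ) : ℂ) ^ (a - 2) * ((‖x - y‖ : ℝ) : ℂ) ^ (b - 2) =
    (Real.pi : ℂ) * (gm a * gm b / gm (a + b)) * ((‖x‖ : ℝ) : ℂ) ^ (a + b - 2)

/-- admissible weights on the line -/
def Nu (ν : ℝ → ℝ) : Prop := Continuous ν ∧ (∀ y, 0 ≤ ν y) ∧ (∀ y, ν (-y) = ν y) ∧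
  (∃ C c : ℝ, 0 < c ∧ ∀ y, ν y ≤ C * Real.exp (-(c * |y|))) ∧
  ∀ k : ℝ, 0 ≤ ∫ y : ℝ, ν y * (1 + y ^ 2) * Real.cos (k * y)

noncomputable def Fh (ν : ℝ → ℝ) (k : ℝ) : ℝ := ∫ y : ℝ, ν y * Real.cos (k * y)

noncomputable def Gh (ν : ℝ → ℝ) (h : ℝ) : ℝ := ∫ y : ℝ, ν y * (Real.cos (h * y) - y * Real.sin (h * y))

/-- PTW: the pointwise inequality. Hint: `Gh = Fh + Fh'`; `D(X) = Gh(h) e^X + Gh(-h) e^(-X) - 2 Fh(X+h)`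
has `D(0) = D'(0) = 0` and `D'' - D = 2 (Fh - Fh'')(X+h) ≥ 0`. Similarly `Fh ≥ 0` because
`Fh - Fh'' ≥ 0` and `Fh → 0` at infinity (Riemann-Lebesgue) (or by the maximum principle), and `Gh ≥ 0` by
`X → ∞`. -/
def R_PTW : Prop := ∀ ν : ℝ → ℝ, Nu ν → (∀ k, 0 ≤ Fh ν k) ∧ (∀ h, 0 ≤ Gh ν h) ∧
  ∀ X h : ℝ, 2 * Fh ν (X + h) ≤ Gh ν h * Real.exp X + Gh ν (-h) * Real.exp (-X)

/-- CM2: the kernel integral, `m = 2` (from RZC; `gm(2-a) gm(a) = 1`) -/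
def R_CM2 : Prop := ∀ ν : ℝ → ℝ, Nu ν → ∀ a : ℂ, a ≠ 0 →
  ∫⁻ b : ℂ, ∫⁻ c : ℂ, ENNReal.ofReal ((‖b‖ * ‖c‖ * ‖a + b - c‖) ^ (-(3 / 2) : ℝ) *
      Gh ν (Real.log (‖a‖ * ‖b‖ / (‖c‖ * ‖a + b - c‖)) / 2)) =
    ENNReal.ofReal (Real.pi ^ 2 * (∫ y : ℝ, ν y * ‖gm (1 / 2 + Complex.I * y / 2)‖ ^ 4) *
      ‖a‖ ^ (-(1 / 2) : ℝ))

/-- GN2: the gain for the exponent 4 (from PTW, CM2 and Plancherel for the convolution square) -/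
def R_GN2 : Prop := ∀ ν : ℝ → ℝ, Nu ν → ∀ (V : ℂ → ℝ) (om : ℂ → ℂ) (r R M : ℝ), Measurable V →
  Measurable om → 0 < r → (∀ u, 0 ≤ V u ∧ V u ≤ M) → (∀ u, ‖om u‖ ≤ 1) →
  (∀ u, V u ≠ 0 → r ≤ ‖u‖ ∧ ‖u‖ ≤ R) →
  ∫⁻ y : ℝ, ENNReal.ofReal (ν y) * ∫⁻ x : ℂ, ‖∫ u : ℂ, (om u *
      ((((‖u‖ : ℝ) : ℂ) ^ (-(3 / 2) - Complex.I * y / 2)) * (V u : ℂ) ^ (1 - Complex.I * y))) * ex x u‖ₑ ^ 4 ≤
    ENNReal.ofReal (4 * Real.pi ^ 4 * ∫ y : ℝ, ν y * ‖gm (1 / 2 + Complex.I * y / 2)‖ ^ 4) *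
      ∫⁻ u : ℂ, ENNReal.ofReal (V u ^ 4 / ‖u‖ ^ 2)

/-- CM3: the kernel integral, `m = 3` -/
def R_CM3 : Prop := ∀ ν : ℝ → ℝ, Nu ν → ∀ a : ℂ, a ≠ 0 →
  ∫⁻ b : ℂ, ∫⁻ b' : ℂ, ∫⁻ c : ℂ, ∫⁻ c' : ℂ,
      ENNReal.ofReal ((‖b‖ * ‖b'‖ * (‖c‖ * ‖c'‖ * ‖a + b + b' - c - c'‖)) ^ (-(5 / 3) : ℝ) *
      Gh ν (Real.log (‖a‖ * ‖b‖ * ‖b'‖ / (‖c‖ * ‖c'‖ * ‖a + b + b' - c - c'‖)) / 3)) =
    ENNReal.ofReal (Real.pi ^ 4 * (∫ y : ℝ, ν y * ‖gm (1 / 3 + Complex.I * y / 3)‖ ^ 6) *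
      ‖a‖ ^ (-(1 / 3) : ℝ))

/-- GN3: the gain for the exponent 6 -/
def R_GN3 : Prop := ∀ ν : ℝ → ℝ, Nu ν → ∀ (V : ℂ → ℝ) (om : ℂ → ℂ) (r R M : ℝ), Measurable V →
  Measurable om → 0 < r → (∀ u, 0 ≤ V u ∧ V u ≤ M) → (∀ u, ‖om u‖ ≤ 1) →
  (∀ u, V u ≠ 0 → r ≤ ‖u‖ ∧ ‖u‖ ≤ R) →
  ∫⁻ y : ℝ, ENNReal.ofReal (ν y) * ∫⁻ x : ℂ, ‖∫ u : ℂ, (om u *
      ((((‖u‖ : ℝ) : ℂ) ^ (-(5 / 3) - Complex.I * y / 3)) * (V u : ℂ) ^ (1 - Complex.I * y))) * ex x u‖ₑ ^ 6 ≤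
    ENNReal.ofReal (4 * Real.pi ^ 6 * ∫ y : ℝ, ν y * ‖gm (1 / 3 + Complex.I * y / 3)‖ ^ 6) *
      ∫⁻ u : ℂ, ENNReal.ofReal (V u ^ 6 / ‖u‖ ^ 2)

/-- FWK: Fourier transform of the Poisson kernel. Hint: POI with `H z = sinh (k z) / sinh k`. -/
def R_FWK : Prop := ∀ θ k : ℝ, 0 < θ → θ < 1 → k ≠ 0 →
  ∫ y : ℝ, P1 θ y * Real.cos (k * y) = Real.sinh (θ * k) / Real.sinh k

/-- NUA: the weights that we use are admissible. For `θ = 1/3`, `F(k) = 3/(4C^2-1)`, for `θ = 2/3`,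
`F(k) = 3C/(4C^2-1)` with `C = cosh (k/3)`, where `F(k) = ∫ P1 θ y / θ cos (k y) dy`, and the condition is
`F - 2 F'' + F'''' ≥ 0`. Third weight: `F(k) = 1/cosh(k/4)`, condition `F - F'' ≥ 0`. -/
def R_NUA : Prop := Nu (fun y => P1 (1 / 3) y / (1 / 3) * (1 + y ^ 2)) ∧
  Nu (fun y => P1 (2 / 3) y / (2 / 3) * (1 + y ^ 2)) ∧
  Nu (fun y => 2 * (P1 (1 / 2) (2 * y) / (1 / 2)))

/-- CHI: bounds for the quotients of Gamma functions. Hint: `Γ(a+it)/Γ(b+it)`, `0 < a < b`, is a Beta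
integral divided by `Γ(b-a)`, hence its absolute value is at most `Γ(a)/Γ(b)`; use `a = 5/4`, `b = 7/4`
(and `7/6`, `11/6`) after the functional equation. -/
def R_CHI : Prop :=
  (∀ y : ℝ, ‖gm (1 / 2 + Complex.I * y / 2)‖ ^ 4 ≤ GA 2 ^ 4 * ((1 + y ^ 2 / 9) / (1 + y ^ 2)) ^ 2) ∧
  ∀ y : ℝ, ‖gm (1 / 3 + Complex.I * y / 3)‖ ^ 6 ≤ GA 3 ^ 6 * ((1 + y ^ 2 / 25) / (1 + y ^ 2)) ^ 3

/-- NB1: numerical values (`.875582`, `.915097`, and the third is about `.86`). Hint for the first two: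
`(9+y^2)^2/(1+y^2) = (1+y^2) + 16 + 64/(1+y^2)`; `∫ P1 θ y / θ y^2 = (1-θ^2)/3`;
`∫ P1 θ y / θ / (1+y^2) = ∑_{j ≥ 1} 2/(4j^2-θ^2)` (write `1/(1+y^2) = ∫_0^∞ e^(-k) cos(k y) dk` and
use FWK), `= (1 - (πθ/2) cot (πθ/2))/θ^2`. Third: `P1 (1/2) y / (1/2) = 1/cosh(π y)`, moments `1/4`, `5/16`,
`61/64` of `y^2`, `y^4`, `y^6`, and a polynomial majorant (or any other way). -/
def R_NB1 : Prop :=
  (∫ y : ℝ, P1 (1 / 3) y / (1 / 3) * (1 + y ^ 2) * ((1 + y ^ 2 / 9) / (1 + y ^ 2)) ^ 2 ≤ 0.8757) ∧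
  (∫ y : ℝ, P1 (2 / 3) y / (2 / 3) * (1 + y ^ 2) * ((1 + y ^ 2 / 9) / (1 + y ^ 2)) ^ 2 ≤ 0.9153) ∧
  (∫ y : ℝ, P1 (1 / 2) y / (1 / 2) * ((1 + y ^ 2 / 100) / (1 + y ^ 2 / 4)) ^ 3 ≤ 0.9)

/-- PTA: Pitt's inequality for the exponents `12/5` and `3` in terms of the constants (from STA, PHI, GN2,
NUA, the Plancherel theorem, duality and approximation) -/
def R_PTA : Prop := ∀ θ m : ℝ, 0 < θ → θ < 1 → 1 / (2 * m) = 1 / 2 - θ / 4 →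
  Nu (fun y => P1 θ y / θ * (1 + y ^ 2)) → ∀ K A : ℝ, 0 < K → 0 < A →
  (∫ y : ℝ, P1 θ y / θ * (1 + y ^ 2) * ‖gm (1 / 2 + Complex.I * y / 2)‖ ^ 4 ≤ K) →
  K ^ (θ / 4) ≤ A * GGr θ ^ (1 / 2 : ℝ) → Pit m A

/-- PTB: the same for the exponents between 4 and 6 (from STB, PHI, GN3, the library theorem S_PIT for
`m = 2`, duality and approximation) -/
def R_PTB : Prop := ∀ θ m : ℝ, 0 < θ → θ < 1 → 1 / (2 * m) = 1 / 4 - θ / 12 →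
  Nu (fun y => 2 * (P1 θ (2 * y) / θ)) → ∀ K A : ℝ, 0 < K → 0 < A →
  (∫ y : ℝ, P1 θ y / θ * ‖gm (1 / 3 + Complex.I * (y / 2) / 3)‖ ^ 6 ≤ K) →
  GA 2 ^ (1 - θ) * K ^ (θ / 6) ≤ A → Pit m A

/-- NB2: the final constants (from CHI, NB1 and numerical bounds for the Gamma function; the left side
of the first inequality is `1.395244 * ...`, of the second `1.98475 * ...`, so there is a margin of
`1.8e-4`, `6e-4` and more than `3e-3`) -/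
def R_NB2 : Prop :=
  (GA 2 ^ 4 * 0.8757) ^ ((1 / 3 : ℝ) / 4) ≤ 1.3955 * GGr (1 / 3) ^ (1 / 2 : ℝ) ∧
  (GA 2 ^ 4 * 0.9153) ^ ((2 / 3 : ℝ) / 4) ≤ 1.986 * GGr (2 / 3) ^ (1 / 2 : ℝ) ∧
  GA 2 ^ (1 - (1 / 2 : ℝ)) * (GA 3 ^ 6 * 0.9) ^ ((1 / 2 : ℝ) / 6) ≤ 3.79 ∧
  GA 2 < 2.959 ∧ GA 3 < 4.932

/-- PIT: the three new Pitt inequalities -/
def R_PIT : Prop := Pit (6 / 5) 1.3955 ∧ Pit (3 / 2) 1.986 ∧ Pit (12 / 5) 3.79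

/-- END: the final theorem -/
def R_END : Prop := ∀ P : ℝ, ∃ n₀ : ℕ, ∀ n : ℕ, n₀ ≤ n → ∀ p : ℝ, 2 ≤ p → p ≤ P →
  ∀ f : SchwartzMap ℂ ℂ,
    eLpNorm (TS n f) (ENNReal.ofReal p) volume ≤
      ENNReal.ofReal ((n : ℝ) ^ (1 - 2 / p) * (p - 1)) *
        eLpNorm (fun z : ℂ => f z) (ENNReal.ofReal p) volume

end Pool.Agent.H10.RP
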