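import Pool.Agent.H10.RP.ALL0
import Pool.Agent.H6.RP.NB1
import Pool.Agent.H87.RP.GN3

/-!
Project RP: the final assembly.
-/

set_option autoImplicit false

namespace Pool.Agent.H10.RP.ALL

open Pool.Agent.N892.BW Pool.Agent.H10.RP

theorem fin' : R_END := fin (Pool.Agent.H87.RP.GN3.t rzc) (Pool.Agent.H6.RP.nb1 fwk)

end Pool.Agent.H10.RP.ALL
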