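import Pool.Agent.H10.RP.Stm
import Pool.Graph.R_pool_sql_team_seeded_63374d34.N892.BW.ENU
import Pool.Graph.R_pool_sql_team_seeded_63374d34.N892.BW.BAS
import Pool.Graph.R_pool_sql_team_seeded_63374d34.N892.BW.LPF

/-!
Project RP, part ENU: the upper energy inequality for separated families, summed, real exponents (the library
file `N892/BW/ENU.lean` treats natural exponents). For real exponents the linear terms do not vanish; they are
estimated by R_LTM.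
-/

set_option autoImplicit false

open MeasureTheory ENNReal Filter Topology Complex
open scoped ComplexConjugate ContDiff

namespace Pool.Agent.H10.RP.ENU

open Pool.Agent.N892.BW Pool.Agent.H10.RP
open Pool.Agent.N892.BW.ENU (Fi_add conv int_of_le int4)

lemma enorm_rpow' (z : ℂ) {s : ℝ} (hs : 0 ≤ s) : ‖z‖ₑ ^ s = ENNReal.ofReal (‖z‖ ^ s) := by
  rw [← ENNReal.ofReal_rpow_of_nonneg (norm_nonneg z) hs, ofReal_norm]

lemma bdsm {μ M : ℕ} {a b : ℕ → ℝ} {H : ℕ → ℂ → ℂ} (hμ : 1 ≤ μ) (hS : Sep μ M a b H) (k : ℕ) (hk : k ≤ M) :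
    ∃ B, Bd 0 B (sm H k) := by
  rcases Nat.eq_zero_or_pos k with h0 | h0
  · subst h0
    refine ⟨0, ?_, ?_⟩
    · have : sm H 0 = fun _ => 0 := by
        funext ξ
        simp [sm]
      rw [this]
      exact contDiff_const
    · intro ξ hξ
      exact absurd (by simp [sm]) hξ
  · exact ⟨_, LPF.sm_Bd μ k a b H hμ h0 fun j hj => hS j (by omega)⟩

/-- the inequality for one step -/
theorem step {m ε C : ℝ} (hm : 1 < m) (hC0 : 0 ≤ C)
    (hC : ∀ a b : ℂ, ‖b + a‖ ^ (2 * m) ≤ ‖b‖ ^ (2 * m) + 2 * m * (‖b‖ ^ (2 * m - 2) * (conj b * a).re) +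
      (1 + ε) * ‖a‖ ^ (2 * m) + C * (‖a‖ ^ 2 * ‖b‖ ^ (2 * m - 2)))
    {u v : ℂ → ℂ} (c1 : Continuous u) (c2 : Continuous v) (i1 : Integrable u) (i2 : Integrable v)
    {M1 M2 : ℝ} (b1 : ∀ x, ‖u x‖ ≤ M1) (b2 : ∀ x, ‖v x‖ ≤ M2) :
    Integrable (fun x => ‖u x‖ ^ (2 * m)) ∧ Integrable (fun x => ‖v x‖ ^ (2 * m)) ∧
    Integrable (fun x => ‖v x‖ ^ 2 * ‖u x‖ ^ (2 * m - 2)) ∧
    ∫ x, ‖u x + v x‖ ^ (2 * m) ≤ (∫ x, ‖u x‖ ^ (2 * m)) +
      2 * m * (∫ x, ‖u x‖ ^ (2 * m - 2) * (conj (u x) * v x).re) +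
      (1 + ε) * (∫ x, ‖v x‖ ^ (2 * m)) + C * ∫ x, ‖v x‖ ^ 2 * ‖u x‖ ^ (2 * m - 2) := by
  have hM1 : 0 ≤ M1 := (norm_nonneg _).trans (b1 0)
  have hM2 : 0 ≤ M2 := (norm_nonneg _).trans (b2 0)
  have hp : 0 ≤ 2 * m := by linarith
  have hp1 : 0 ≤ 2 * m - 1 := by linarith
  have hp2 : 0 ≤ 2 * m - 2 := by linarith
  have split : ∀ x : ℝ, 0 ≤ x → x ^ (2 * m) = x ^ (2 * m - 1) * x := by
    intro x hx
    rw [← Real.rpow_add_one' hx (by linarith)]
    congr 1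
    ring
  have cu : ∀ {w : ℂ → ℂ}, Continuous w → ∀ {s : ℝ}, 0 ≤ s → Continuous fun x => ‖w x‖ ^ s :=
    fun hw _ hs => hw.norm.rpow_const fun _ => Or.inr hs
  have j1 : Integrable (fun x => ‖u x‖ ^ (2 * m)) := by
    refine int_of_le (K := M1 ^ (2 * m - 1)) i1 (cu c1 hp) fun x => ?_
    rw [abs_of_nonneg (Real.rpow_nonneg (norm_nonneg _) _), split _ (norm_nonneg _)]
    exact mul_le_mul_of_nonneg_right (Real.rpow_le_rpow (norm_nonneg _) (b1 x) hp1) (norm_nonneg _)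
  have j3 : Integrable (fun x => ‖v x‖ ^ (2 * m)) := by
    refine int_of_le (K := M2 ^ (2 * m - 1)) i2 (cu c2 hp) fun x => ?_
    rw [abs_of_nonneg (Real.rpow_nonneg (norm_nonneg _) _), split _ (norm_nonneg _)]
    exact mul_le_mul_of_nonneg_right (Real.rpow_le_rpow (norm_nonneg _) (b2 x) hp1) (norm_nonneg _)
  have j0 : Integrable (fun x => ‖u x + v x‖ ^ (2 * m)) := by
    refine int_of_le (K := (M1 + M2) ^ (2 * m - 1)) (i1.add i2) (cu (c1.add c2) hp) fun x => ?_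
    rw [abs_of_nonneg (Real.rpow_nonneg (norm_nonneg _) _), split _ (norm_nonneg _), Pi.add_apply]
    exact mul_le_mul_of_nonneg_right (Real.rpow_le_rpow (norm_nonneg _)
      ((norm_add_le _ _).trans (add_le_add (b1 x) (b2 x))) hp1) (norm_nonneg _)
  have j2 : Integrable (fun x => ‖u x‖ ^ (2 * m - 2) * (conj (u x) * v x).re) := by
    refine int_of_le (K := M1 ^ (2 * m - 2) * M1) i2 ?_ fun x => ?_
    · refine (cu c1 hp2).mul ?_
      exact Complex.continuous_re.comp ((Complex.continuous_conj.comp c1).mul c2)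
    · rw [abs_mul, abs_of_nonneg (Real.rpow_nonneg (norm_nonneg _) _)]
      have e1 : |(conj (u x) * v x).re| ≤ ‖u x‖ * ‖v x‖ := by
        refine (Complex.abs_re_le_norm _).trans ?_
        rw [norm_mul, RCLike.norm_conj]
      calc ‖u x‖ ^ (2 * m - 2) * |(conj (u x) * v x).re| ≤ M1 ^ (2 * m - 2) * (M1 * ‖v x‖) := by
            refine mul_le_mul (Real.rpow_le_rpow (norm_nonneg _) (b1 x) hp2) (e1.trans ?_) (abs_nonneg _)
              (Real.rpow_nonneg hM1 _)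
            exact mul_le_mul_of_nonneg_right (b1 x) (norm_nonneg _)
        _ = _ := by ring
  have j4 : Integrable (fun x => ‖v x‖ ^ 2 * ‖u x‖ ^ (2 * m - 2)) := by
    refine int_of_le (K := M2 * M1 ^ (2 * m - 2)) i2 ((c2.norm.pow 2).mul (cu c1 hp2)) fun x => ?_
    have h0 : 0 ≤ ‖u x‖ ^ (2 * m - 2) := Real.rpow_nonneg (norm_nonneg _) _
    rw [abs_of_nonneg (mul_nonneg (by positivity) h0)]
    calc ‖v x‖ ^ 2 * ‖u x‖ ^ (2 * m - 2) = (‖v x‖ * ‖u x‖ ^ (2 * m - 2)) * ‖v x‖ := by ring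
      _ ≤ (M2 * M1 ^ (2 * m - 2)) * ‖v x‖ := by
        refine mul_le_mul_of_nonneg_right ?_ (norm_nonneg _)
        exact mul_le_mul (b2 x) (Real.rpow_le_rpow (norm_nonneg _) (b1 x) hp2) h0 hM2
  refine ⟨j1, j3, j4, ?_⟩
  obtain ⟨e0, e1⟩ := int4 j1 j2 j3 j4 (2 * m) (1 + ε) C
  rw [← e1]
  refine integral_mono j0 e0 fun x => ?_
  exact hC (v x) (u x)

theorem t (h2 : R_NUM) (h3 : R_LTM) : R_ENU := by
  intro m ε μ hm hε hμ
  obtain ⟨C, hC0, hC⟩ := h2 m ε hm hε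
  obtain ⟨C', hC'0, hL⟩ := h3 m μ hm hμ
  refine ⟨C + 2 * m * C', by positivity, ?_⟩
  intro om M a b H hom hS hab
  have h1 : S_BAS := BAS.t
  have hp2 : 0 ≤ 2 * m - 2 := by linarith
  have hL' := hL om M a b H hom hS hab
  have hu : ∀ k, k ≤ M → Continuous (Fi (sm H k)) ∧ Integrable (Fi (sm H k)) ∧
      ∃ K, ∀ x, ‖Fi (sm H k) x‖ ≤ K := by
    intro k hk
    obtain ⟨B, hB⟩ := bdsm hμ hS k hk
    obtain ⟨c1, -, ⟨-, i1, M1, b1⟩, -, -⟩ := h1 B _ hB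
    exact ⟨c1, i1, M1, b1⟩
  have hv : ∀ k, k < M → Continuous (Fi (H k)) ∧ Integrable (Fi (H k)) ∧ ∃ K, ∀ x, ‖Fi (H k) x‖ ≤ K := by
    intro k hk
    obtain ⟨-, -, hB, -⟩ := hS k hk
    obtain ⟨c1, -, ⟨-, i1, M1, b1⟩, -, -⟩ := h1 (b k) (H k)
      ⟨hB.1, fun ξ hξ => ⟨norm_nonneg ξ, (hB.2 ξ hξ).2⟩⟩
    exact ⟨c1, i1, M1, b1⟩
  have hst : ∀ k, k < M → Integrable (fun x => ‖Fi (sm H k) x‖ ^ (2 * m)) ∧
      Integrable (fun x => ‖Fi (H k) x‖ ^ (2 * m)) ∧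
      Integrable (fun x => ‖Fi (H k) x‖ ^ 2 * ‖Fi (sm H k) x‖ ^ (2 * m - 2)) ∧
      ∫ x, ‖Fi (sm H (k + 1)) x‖ ^ (2 * m) ≤ (∫ x, ‖Fi (sm H k) x‖ ^ (2 * m)) +
        2 * m * (∫ x, ‖Fi (sm H k) x‖ ^ (2 * m - 2) * (conj (Fi (sm H k) x) * Fi (H k) x).re) +
        (1 + ε) * (∫ x, ‖Fi (H k) x‖ ^ (2 * m)) +
        C * ∫ x, ‖Fi (H k) x‖ ^ 2 * ‖Fi (sm H k) x‖ ^ (2 * m - 2) := by
    intro k hk
    obtain ⟨c1, i1, M1, b1⟩ := hu k hk.le
    obtain ⟨c2, i2, M2, b2⟩ := hv k hk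
    have hs := step hm hC0 hC c1 c2 i1 i2 b1 b2
    have e : Fi (sm H (k + 1)) = fun x => Fi (sm H k) x + Fi (H k) x := by
      obtain ⟨B, hB⟩ := bdsm hμ hS k hk.le
      have e1 : sm H (k + 1) = fun ξ => sm H k ξ + H k ξ := by
        funext ξ
        simp only [sm]
        rw [Finset.sum_range_succ]
      rw [e1]
      exact funext (Fi_add hB (hS k hk).2.2.1)
    rw [e]
    exact hs
  -- sum
  obtain ⟨I, hI⟩ : ∃ I : ℕ → ℝ, ∀ k, I k = ∫ x, ‖Fi (sm H k) x‖ ^ (2 * m) := ⟨_, fun _ => rfl⟩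
  obtain ⟨L, hLd⟩ : ∃ L : ℕ → ℝ, ∀ k, L k =
      ∫ x, ‖Fi (sm H k) x‖ ^ (2 * m - 2) * (conj (Fi (sm H k) x) * Fi (H k) x).re := ⟨_, fun _ => rfl⟩
  obtain ⟨J, hJ⟩ : ∃ J : ℕ → ℝ, ∀ k, J k = ∫ x, ‖Fi (H k) x‖ ^ (2 * m) := ⟨_, fun _ => rfl⟩
  obtain ⟨K, hK⟩ : ∃ K : ℕ → ℝ, ∀ k, K k = ∫ x, ‖Fi (H k) x‖ ^ 2 * ‖Fi (sm H k) x‖ ^ (2 * m - 2) :=
    ⟨_, fun _ => rfl⟩
  have hI0 : ∀ k, 0 ≤ I k := fun k => by
    rw [hI]
    exact integral_nonneg fun x => Real.rpow_nonneg (norm_nonneg _) _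
  have hJ0 : ∀ k, 0 ≤ J k := fun k => by
    rw [hJ]
    exact integral_nonneg fun x => Real.rpow_nonneg (norm_nonneg _) _
  have hK0 : ∀ k, 0 ≤ K k := fun k => by
    rw [hK]
    exact integral_nonneg fun x => mul_nonneg (by positivity) (Real.rpow_nonneg (norm_nonneg _) _)
  have hsum : ∀ k, k ≤ M → I k ≤ ∑ j ∈ Finset.range k, (2 * m * |L j| + (1 + ε) * J j + C * K j) := by
    intro k
    induction k with
    | zero =>
      intro _
      rw [Finset.sum_range_zero, hI]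
      have : ∀ x, ‖Fi (sm H 0) x‖ ^ (2 * m) = 0 := by
        intro x
        have e : Fi (sm H 0) x = 0 := by simp [Fi, sm]
        rw [e, norm_zero, Real.zero_rpow (by linarith)]
      simp [this]
    | succ k ih =>
      intro hk
      rw [Finset.sum_range_succ]
      have h5 := (hst k (by omega)).2.2.2
      rw [← hI, ← hI, ← hJ, ← hK, ← hLd] at h5
      have h6 := ih (by omega)
      have h7 : 2 * m * L k ≤ 2 * m * |L k| := mul_le_mul_of_nonneg_left (le_abs_self _) (by linarith)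
      linarith
  have hfin := hsum M le_rfl
  rw [Finset.sum_add_distrib, Finset.sum_add_distrib, ← Finset.mul_sum, ← Finset.mul_sum,
    ← Finset.mul_sum] at hfin
  -- conversion
  have n0 : ∀ f : ℂ → ℂ, Integrable (fun x => ‖f x‖ ^ (2 * m)) →
      Nr m f = ENNReal.ofReal (∫ x, ‖f x‖ ^ (2 * m)) := by
    intro f hf
    exact conv (fun x => Real.rpow_nonneg (norm_nonneg _) _) hf fun x => enorm_rpow' _ (by linarith)
  have hIM : Integrable (fun x => ‖Fi (sm H M) x‖ ^ (2 * m)) := by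
    obtain ⟨c1, i1, M1, b1⟩ := hu M le_rfl
    exact (step hm hC0 hC c1 c1 i1 i1 b1 b1).1
  have n1 : Nr m (Fi (sm H M)) = ENNReal.ofReal (I M) := by
    rw [hI]
    exact n0 _ hIM
  have n2 : (∑ k ∈ Finset.range M, Nr m (Fi (H k))) = ENNReal.ofReal (∑ k ∈ Finset.range M, J k) := by
    rw [ENNReal.ofReal_sum_of_nonneg fun k _ => hJ0 k]
    refine Finset.sum_congr rfl fun k hk => ?_
    rw [hJ]
    exact n0 _ (hst k (Finset.mem_range.1 hk)).2.1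
  have n3 : (∑ k ∈ Finset.range M, (∫⁻ x, ‖Fi (H k) x‖ₑ ^ 2 * ‖Fi (sm H k) x‖ₑ ^ (2 * m - 2))) =
      ENNReal.ofReal (∑ k ∈ Finset.range M, K k) := by
    rw [ENNReal.ofReal_sum_of_nonneg fun k _ => hK0 k]
    refine Finset.sum_congr rfl fun k hk => ?_
    rw [hK]
    refine conv (fun x => mul_nonneg (by positivity) (Real.rpow_nonneg (norm_nonneg _) _))
      (hst k (Finset.mem_range.1 hk)).2.2.1 fun x => ?_
    rw [enorm_rpow' _ hp2, ENNReal.ofReal_mul (by positivity), ENNReal.ofReal_pow (norm_nonneg _),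
      ofReal_norm]
  have n4 : (∑ k ∈ Finset.range M, ENNReal.ofReal
      |∫ x, ‖Fi (sm H k) x‖ ^ (2 * m - 2) * (conj (Fi (sm H k) x) * Fi (H k) x).re|) =
      ENNReal.ofReal (∑ k ∈ Finset.range M, |L k|) := by
    rw [ENNReal.ofReal_sum_of_nonneg fun k _ => abs_nonneg _]
    refine Finset.sum_congr rfl fun k hk => ?_
    rw [hLd]
  rw [n4, n1, ← ENNReal.ofReal_mul (by positivity)] at hL'
  have hL3 : ∑ k ∈ Finset.range M, |L k| ≤ C' * om * I M :=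
    (ENNReal.ofReal_le_ofReal_iff (mul_nonneg (by positivity) (hI0 M))).1 hL'
  have hJs : 0 ≤ ∑ k ∈ Finset.range M, J k := Finset.sum_nonneg fun k _ => hJ0 k
  have hKs : 0 ≤ ∑ k ∈ Finset.range M, K k := Finset.sum_nonneg fun k _ => hK0 k
  rw [n1, n2, n3, ← ENNReal.ofReal_mul (by linarith), ← ENNReal.ofReal_mul (by positivity),
    ← ENNReal.ofReal_mul (by positivity), ← ENNReal.ofReal_add (by positivity) (by positivity),
    ← ENNReal.ofReal_add (by positivity) (mul_nonneg (by positivity) (hI0 M))]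
  refine ENNReal.ofReal_le_ofReal (hfin.trans ?_)
  have h8 : 2 * m * (∑ k ∈ Finset.range M, |L k|) ≤ 2 * m * (C' * om * I M) :=
    mul_le_mul_of_nonneg_left hL3 (by linarith)
  have h9 : 0 ≤ 2 * m * C' * (∑ k ∈ Finset.range M, K k) := by positivity
  have h10 : 0 ≤ C * om * I M := mul_nonneg (by positivity) (hI0 M)
  have h11 : (C + 2 * m * C') * (∑ k ∈ Finset.range M, K k) =
      C * (∑ k ∈ Finset.range M, K k) + 2 * m * C' * (∑ k ∈ Finset.range M, K k) := by ring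
  have h12 : (C + 2 * m * C') * om * I M = C * om * I M + 2 * m * (C' * om * I M) := by ring
  rw [h11, h12]
  linarith

end Pool.Agent.H10.RP.ENU
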