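import Pool.Agent.H10.RP.Stm
import Pool.Graph.R_pool_sql_team_seeded_63374d34.N892.BW.FIN3
import Pool.Graph.R_pool_sql_team_seeded_63374d34.N892.BW.BAS

/-!
Project RP, part FUL: density and scaling, real exponents (port of the library files `N892/BW/FIN3.lean`,
`WR.lean`).
-/

set_option autoImplicit false

open MeasureTheory ENNReal Filter Topology Complex
open scoped ComplexConjugate ContDiff FourierTransform SchwartzMap

namespace Pool.Agent.H10.RP.FUL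

open Pool.Agent.N892.BW Pool.Agent.H10.RP
open Pool.Agent.N892.BW.WR (FF lint_scale int_scale FF_smooth Fi_FF e2_scale sy_scale)
open Pool.Agent.N892.BW.FIN3 (cj cj_smooth cj_le cj_bd Fi_sc sy_meas sy_le Fi_meas lim_Fi dl dl_lim
  sup_le sq_le Nm_one_lt FF_int FF_sq bdj)

/-- the factor in the scaling of the norms -/
noncomputable def kap (m lam : ℝ) : ℝ≥0∞ :=
  ‖((lam : ℂ) ^ 2)⁻¹‖ₑ ^ (2 * m) * ENNReal.ofReal (((lam⁻¹) ^ 2)⁻¹)

theorem kap_ne_zero {m : ℝ} (hm : 1 ≤ m) {lam : ℝ} (hlam : 0 < lam) : kap m lam ≠ 0 := by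
  unfold kap
  refine mul_ne_zero ?_ ?_
  · have h1 : ‖((lam : ℂ) ^ 2)⁻¹‖ₑ ≠ 0 := by
      rw [enorm_ne_zero]
      have h : (lam : ℂ) ≠ 0 := by exact_mod_cast hlam.ne'
      exact inv_ne_zero (pow_ne_zero _ h)
    exact (ENNReal.rpow_pos (pos_iff_ne_zero.2 h1) enorm_ne_top).ne'
  · have : 0 < ((lam⁻¹) ^ 2)⁻¹ := by positivity
    exact (ENNReal.ofReal_pos.2 this).ne'

theorem kap_ne_top {m : ℝ} (hm : 1 ≤ m) (lam : ℝ) : kap m lam ≠ ⊤ := by
  unfold kap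
  exact ENNReal.mul_ne_top (ENNReal.rpow_ne_top_of_nonneg (by linarith) enorm_ne_top)
    ENNReal.ofReal_ne_top

theorem Nr_scale {m : ℝ} (hm : 1 ≤ m) {lam : ℝ} (hlam : 0 < lam) (g : ℂ → ℂ) :
    Nr m (fun x => ((lam : ℂ) ^ 2)⁻¹ * g (((lam⁻¹ : ℝ) : ℂ) * x)) = kap m lam * Nr m g := by
  unfold Nr kap
  have h1 : ∀ x : ℂ, ‖((lam : ℂ) ^ 2)⁻¹ * g (((lam⁻¹ : ℝ) : ℂ) * x)‖ₑ ^ (2 * m) =
      ‖((lam : ℂ) ^ 2)⁻¹‖ₑ ^ (2 * m) * ‖g (((lam⁻¹ : ℝ) : ℂ) * x)‖ₑ ^ (2 * m) := by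
    intro x
    rw [enorm_mul, ENNReal.mul_rpow_of_nonneg _ _ (by linarith)]
  simp_rw [h1]
  rw [lintegral_const_mul' _ _ (ENNReal.rpow_ne_top_of_nonneg (by linarith) enorm_ne_top),
    lint_scale (t := lam⁻¹) (inv_ne_zero hlam.ne') (fun x => ‖g x‖ₑ ^ (2 * m)), mul_assoc]

theorem eLp_eq {m : ℝ} (hm : 1 ≤ m) (g : ℂ → ℂ) :
    eLpNorm g (ENNReal.ofReal (2 * m)) volume = (Nr m g) ^ (2 * m)⁻¹ := by
  have h0 : (0 : ℝ) < 2 * m := by linarith
  rw [eLpNorm_eq_lintegral_rpow_enorm_toReal (ENNReal.ofReal_pos.2 h0).ne' ENNReal.ofReal_ne_top,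
    ENNReal.toReal_ofReal h0.le]
  unfold Nr
  rw [one_div]

/-- from the integrals to the norms -/
theorem le_of_Nr {m : ℝ} (hm : 1 ≤ m) {g f : ℂ → ℂ} {B B' : ℝ} (hB : 0 ≤ B) (hBB : B ≤ B')
    (h : Nr m g ≤ ENNReal.ofReal (B ^ (2 * m)) * Nr m f) :
    eLpNorm g (ENNReal.ofReal (2 * m)) volume ≤
      ENNReal.ofReal B' * eLpNorm f (ENNReal.ofReal (2 * m)) volume := by
  rw [eLp_eq hm, eLp_eq hm]
  have h0 : (0 : ℝ) ≤ (2 * m)⁻¹ := by positivity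
  calc (Nr m g) ^ (2 * m)⁻¹
      ≤ (ENNReal.ofReal (B ^ (2 * m)) * Nr m f) ^ (2 * m)⁻¹ :=
        ENNReal.rpow_le_rpow h h0
    _ = ENNReal.ofReal B * (Nr m f) ^ (2 * m)⁻¹ := by
        rw [ENNReal.mul_rpow_of_nonneg _ _ h0, ← ENNReal.ofReal_rpow_of_nonneg hB (by linarith),
          ← ENNReal.rpow_mul, mul_inv_cancel₀ (by linarith), ENNReal.rpow_one]
    _ ≤ _ := by
        gcongr

theorem step {m : ℝ} (hm : 1 ≤ m) {n : ℕ} {B : ℝ≥0∞} {lam b : ℝ} (hlam : 0 < lam) {H : ℂ → ℂ} (hH : Bd lam b H)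
    (h : ∀ h, Bd 1 (b / lam) h → Nr m (Fi (Tn n h)) ≤ B * Nr m (Fi h)) :
    Nr m (Fi (Tn n H)) ≤ B * Nr m (Fi H) := by
  have hbd : Bd 1 (b / lam) (fun ξ => H ((lam : ℂ) * ξ)) := by
    refine ⟨hH.1.comp (contDiff_const.mul contDiff_id), fun ξ hξ => ?_⟩
    obtain ⟨h5, h6⟩ := hH.2 _ hξ
    rw [norm_mul, Complex.norm_real, Real.norm_of_nonneg hlam.le] at h5 h6
    refine ⟨le_of_mul_le_mul_left (by linarith) hlam, ?_⟩
    rw [le_div_iff₀ hlam]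
    linarith
  have h5 := h _ hbd
  have e0 : Tn n (fun ξ => H ((lam : ℂ) * ξ)) = fun ξ => Tn n H ((lam : ℂ) * ξ) := by
    funext ξ
    unfold Tn
    rw [sy_scale hlam]
  rw [e0, funext (Fi_sc hlam (Tn n H)), funext (Fi_sc hlam H), Nr_scale hm hlam, Nr_scale hm hlam,
    mul_left_comm] at h5
  exact (ENNReal.mul_le_mul_iff_right (kap_ne_zero hm hlam) (kap_ne_top hm lam)).1 h5

theorem rest_lim (h1 : S_BAS) {m : ℝ} (hm : 1 < m) (f : 𝓢(ℂ, ℂ)) :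
    Tendsto (fun j : ℕ => Nr m (fun x => Fi (fun ξ => cj j ξ * FF f ξ) x - f x)) atTop (𝓝 0) := by
  obtain ⟨C, hC⟩ : ∃ C : ℝ≥0∞, C = 2 * (∫⁻ ξ, ‖FF f ξ‖ₑ ^ 2) + 2 * ∫⁻ x, ‖f x‖ₑ ^ 2 := ⟨_, rfl⟩
  have hCt : C ≠ ⊤ := by
    rw [hC]
    exact ENNReal.add_ne_top.2 ⟨ENNReal.mul_ne_top (by simp) (FF_sq f).ne,
      ENNReal.mul_ne_top (by simp) (Nm_one_lt f).ne⟩
  have hFi := FF_int f
  have hlim : Tendsto (fun j : ℕ => (ENNReal.ofReal (dl (FF f) j)) ^ (2 * m - 2) * C) atTop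
      (𝓝 0) := by
    have h2 := ENNReal.tendsto_ofReal (dl_lim hFi)
    rw [ENNReal.ofReal_zero] at h2
    have h4 := ((ENNReal.continuous_rpow_const (y := 2 * m - 2)).tendsto 0).comp h2
    have h3 := ENNReal.Tendsto.mul_const h4 (Or.inr hCt)
    rwa [ENNReal.zero_rpow_of_pos (by linarith), zero_mul] at h3
  refine tendsto_of_tendsto_of_tendsto_of_le_of_le tendsto_const_nhds hlim
    (fun j => zero_le) (fun j => ?_)
  have hb0 : Bd 0 (2 * ((j : ℝ) + 1)) (fun ξ => cj j ξ * FF f ξ) :=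
    ⟨(bdj f j).1, fun ξ hξ => ⟨norm_nonneg _, ((bdj f j).2 ξ hξ).2⟩⟩
  obtain ⟨hcont, -, -, -, hpl⟩ := h1 _ _ hb0
  have hL2 : ∫⁻ x, ‖Fi (fun ξ => cj j ξ * FF f ξ) x - f x‖ₑ ^ 2 ≤ C := by
    have h2 : ∫⁻ x, ‖Fi (fun ξ => cj j ξ * FF f ξ) x‖ₑ ^ 2 ≤ ∫⁻ ξ, ‖FF f ξ‖ₑ ^ 2 := by
      rw [hpl]
      refine lintegral_mono fun ξ => ?_
      refine pow_le_pow_left' ?_ 2
      rw [← ofReal_norm, ← ofReal_norm]
      refine ENNReal.ofReal_le_ofReal ?_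
      rw [norm_mul]
      exact mul_le_of_le_one_left (norm_nonneg _) (cj_le j ξ)
    calc ∫⁻ x, ‖Fi (fun ξ => cj j ξ * FF f ξ) x - f x‖ₑ ^ 2
        ≤ ∫⁻ x, (2 * ‖Fi (fun ξ => cj j ξ * FF f ξ) x‖ₑ ^ 2 + 2 * ‖f x‖ₑ ^ 2) :=
          lintegral_mono fun x => sq_le _ _
      _ = 2 * (∫⁻ x, ‖Fi (fun ξ => cj j ξ * FF f ξ) x‖ₑ ^ 2) + 2 * ∫⁻ x, ‖f x‖ₑ ^ 2 := by
          rw [lintegral_add_left' (by
            exact ((hcont.measurable.enorm.pow_const 2).const_mul 2).aemeasurable),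
            lintegral_const_mul' _ _ (by simp), lintegral_const_mul' _ _ (by simp)]
      _ ≤ C := by
          rw [hC]
          gcongr
  unfold Nr
  calc ∫⁻ x, ‖Fi (fun ξ => cj j ξ * FF f ξ) x - f x‖ₑ ^ (2 * m)
      ≤ ∫⁻ x, (ENNReal.ofReal (dl (FF f) j)) ^ (2 * m - 2) *
          ‖Fi (fun ξ => cj j ξ * FF f ξ) x - f x‖ₑ ^ 2 := by
        refine lintegral_mono fun x => ?_
        have e : 2 * m = (2 * m - 2) + 2 := by ring
        have h2 : ‖Fi (fun ξ => cj j ξ * FF f ξ) x - f x‖ₑ ^ (2 * m) =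
            ‖Fi (fun ξ => cj j ξ * FF f ξ) x - f x‖ₑ ^ (2 * m - 2) *
              ‖Fi (fun ξ => cj j ξ * FF f ξ) x - f x‖ₑ ^ 2 := by
          rw [← ENNReal.rpow_natCast (‖Fi (fun ξ => cj j ξ * FF f ξ) x - f x‖ₑ) 2,
            ← ENNReal.rpow_add_of_nonneg _ _ (by linarith) (by norm_num)]
          exact congrArg _ (by push_cast; ring)
        rw [h2]
        refine mul_le_mul_left ?_ _
        refine ENNReal.rpow_le_rpow ?_ (by linarith)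
        rw [← ofReal_norm]
        refine ENNReal.ofReal_le_ofReal ?_
        have h3 := sup_le hFi j x
        rwa [Fi_FF] at h3
    _ = (ENNReal.ofReal (dl (FF f) j)) ^ (2 * m - 2) *
          ∫⁻ x, ‖Fi (fun ξ => cj j ξ * FF f ξ) x - f x‖ₑ ^ 2 :=
        lintegral_const_mul' _ _
          (ENNReal.rpow_ne_top_of_nonneg (by linarith) ENNReal.ofReal_ne_top)
    _ ≤ _ := by gcongr

theorem main (h1 : S_BAS) {m : ℝ} {n : ℕ} (hm : 1 < m) {B : ℝ} (hB : 0 ≤ B)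
    (h : ∀ (lam : ℝ) (h : ℂ → ℂ), Bd 1 lam h →
      Nr m (Fi (Tn n h)) ≤ ENNReal.ofReal (B ^ (2 * m)) * Nr m (Fi h)) (f : 𝓢(ℂ, ℂ)) :
    eLpNorm (TS n f) (ENNReal.ofReal (2 * m)) volume ≤
      ENNReal.ofReal B * eLpNorm (fun z : ℂ => f z) (ENNReal.ofReal (2 * m)) volume := by
  have hm1 : 1 ≤ m := hm.le
  have hFi := FF_int f
  have hFm : Measurable (FF f) := (FF_smooth f).continuous.measurable
  have hp : (1 : ℝ≥0∞) ≤ ENNReal.ofReal (2 * m) := by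
    rw [← ENNReal.ofReal_one]
    refine ENNReal.ofReal_le_ofReal ?_
    linarith
  -- Fatou
  have hTS : TS n f = Fi (fun ξ => sy n ξ * FF f ξ) := rfl
  have hgi : Integrable (fun ξ => sy n ξ * FF f ξ) :=
    hFi.bdd_mul (c := 1) (sy_meas n).aestronglyMeasurable (Eventually.of_forall fun ξ => sy_le n ξ)
  have hTn : ∀ j : ℕ, Tn n (fun ξ => cj j ξ * FF f ξ) = fun ξ => cj j ξ * (sy n ξ * FF f ξ) := by
    intro j
    funext ξ
    unfold Tn
    ring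
  have hfat : eLpNorm (TS n f) (ENNReal.ofReal (2 * m)) volume ≤
      liminf (fun j : ℕ => eLpNorm (Fi (Tn n (fun ξ => cj j ξ * FF f ξ)))
        (ENNReal.ofReal (2 * m)) volume) atTop := by
    refine Lp.eLpNorm_lim_le_liminf_eLpNorm (fun j => ?_) _ (Eventually.of_forall fun x => ?_)
    · rw [hTn]
      exact (Fi_meas ((cj_smooth j).continuous.measurable.mul
        ((sy_meas n).mul hFm))).aestronglyMeasurable
    · rw [hTS]
      simp only [hTn]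
      exact lim_Fi hgi x
  -- the bound for each term
  have hterm : ∀ j : ℕ, eLpNorm (Fi (Tn n (fun ξ => cj j ξ * FF f ξ)))
      (ENNReal.ofReal (2 * m)) volume ≤ ENNReal.ofReal B *
        (eLpNorm (fun x => Fi (fun ξ => cj j ξ * FF f ξ) x - f x) (ENNReal.ofReal (2 * m)) volume +
          eLpNorm (fun z : ℂ => f z) (ENNReal.ofReal (2 * m)) volume) := by
    intro j
    have h2 := step hm1 (lam := ((j : ℝ) + 1)⁻¹) (by positivity) (bdj f j) (h _)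
    have h3 := le_of_Nr hm1 hB le_rfl h2
    refine h3.trans (mul_le_mul_right ?_ _)
    have h4 : (Fi (fun ξ => cj j ξ * FF f ξ)) =
        (fun x => Fi (fun ξ => cj j ξ * FF f ξ) x - f x) + (fun z : ℂ => f z) := by
      funext x
      simp
    have hmj : StronglyMeasurable (Fi (fun ξ => cj j ξ * FF f ξ)) :=
      Fi_meas ((cj_smooth j).continuous.measurable.mul hFm)
    have hmf : AEStronglyMeasurable (fun z : ℂ => f z) volume := f.continuous.aestronglyMeasurable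
    conv_lhs => rw [h4]
    exact eLpNorm_add_le (hmj.aestronglyMeasurable.sub hmf) hmf hp
  have hrest : Tendsto (fun j : ℕ => ENNReal.ofReal B *
        (eLpNorm (fun x => Fi (fun ξ => cj j ξ * FF f ξ) x - f x) (ENNReal.ofReal (2 * m)) volume +
          eLpNorm (fun z : ℂ => f z) (ENNReal.ofReal (2 * m)) volume)) atTop
      (𝓝 (ENNReal.ofReal B * (0 + eLpNorm (fun z : ℂ => f z) (ENNReal.ofReal (2 * m)) volume))) := by
    refine ENNReal.Tendsto.const_mul (Tendsto.add ?_ tendsto_const_nhds)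
      (Or.inr ENNReal.ofReal_ne_top)
    simp only [eLp_eq hm1]
    have h2 := rest_lim h1 hm f
    have h3 : (0 : ℝ) < (2 * m)⁻¹ := by positivity
    have h4 := (ENNReal.continuous_rpow_const (y := (2 * m)⁻¹)).tendsto 0
    rw [ENNReal.zero_rpow_of_pos h3] at h4
    exact h4.comp h2
  rw [zero_add] at hrest
  refine hfat.trans ?_
  rw [← hrest.liminf_eq]
  exact liminf_le_liminf (Eventually.of_forall hterm)

theorem t (h3 : R_FTH) : R_FUL := by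
  intro m A ε hm hA hPit hε
  obtain ⟨n₀, hn₀⟩ := h3 m A ε hm hA hPit hε
  refine ⟨n₀, fun n hn f => ?_⟩
  have hA0 : 0 ≤ AR A m n := mul_nonneg (Real.rpow_nonneg (Nat.cast_nonneg n) _) hA.le
  exact main BAS.t (by linarith) (n := n) (B := (1 + ε) * AR A m n) (by positivity)
    (fun lam h hh => hn₀ n lam hn h hh) f

end Pool.Agent.H10.RP.FUL
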