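import Pool.Agent.H10.RP.Stm
import Pool.Graph.R_pool_sql_team_seeded_63374d34.N892.BW.GSM
import Pool.Graph.R_pool_sql_team_seeded_63374d34.N892.BW.BAS
import Pool.Graph.R_pool_sql_team_seeded_63374d34.N892.BW.CNV
import Pool.Graph.R_pool_sql_team_seeded_63374d34.N892.BW.PLT
import Pool.Graph.R_pool_sql_team_seeded_63374d34.N892.BW.HKD
import Pool.Graph.R_pool_sql_team_seeded_63374d34.N892.BW.HLM
import Pool.Graph.R_pool_sql_team_seeded_63374d34.N892.BW.RDM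
import Pool.Graph.R_pool_sql_team_seeded_63374d34.N892.BW.GWT

/-!
Project RP, part GSM: gain for averages, for square functions, real exponents (port of the library file
`N892/BW/GSM.lean`).
-/

set_option autoImplicit false

open MeasureTheory ENNReal Filter Topology Complex
open scoped ComplexConjugate ContDiff

namespace Pool.Agent.H10.RP.GSM

open Pool.Agent.N892.BW Pool.Agent.H10.RP
open Pool.Agent.N892.BW.GSM (av_le sq_fin)

/-- absorbing a power of the left side -/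
theorem absorb {I Q A B : ℝ≥0∞} {m : ℝ} (hm : 1 < m) (hI : I ≠ ⊤)
    (h : I ≤ A * (Q ^ (1 / m) * (B * I) ^ (1 - 1 / m))) :
    I ≤ (A * B ^ (1 - 1 / m)) ^ m * Q := by
  have hm0 : (0 : ℝ) < m := by linarith
  have hinv : 1 / m < 1 := by rw [div_lt_one hm0]; exact hm
  have hθ : 0 ≤ 1 - 1 / m := by linarith
  by_cases h0 : I = 0
  · rw [h0]
    exact zero_le
  obtain ⟨J, hJ⟩ : ∃ J : ℝ≥0∞, J = I ^ (1 - 1 / m) := ⟨_, rfl⟩
  have hJ0 : J ≠ 0 := by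
    rw [hJ]
    exact (ENNReal.rpow_pos (pos_iff_ne_zero.2 h0) hI).ne'
  have hJt : J ≠ ⊤ := by
    rw [hJ]
    exact ENNReal.rpow_ne_top_of_nonneg hθ hI
  have hsplit : I ^ (1 / m) * J = I := by
    rw [hJ, ← ENNReal.rpow_add _ _ h0 hI]
    have : 1 / m + (1 - 1 / m) = 1 := by ring
    rw [this, ENNReal.rpow_one]
  have h1 : I ^ (1 / m) * J ≤ (A * B ^ (1 - 1 / m) * Q ^ (1 / m)) * J := by
    rw [hsplit]
    refine h.trans (le_of_eq ?_)
    rw [ENNReal.mul_rpow_of_nonneg _ _ hθ, ← hJ]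
    ring
  have h2 : I ^ (1 / m) ≤ A * B ^ (1 - 1 / m) * Q ^ (1 / m) :=
    (ENNReal.mul_le_mul_iff_left hJ0 hJt).1 h1
  have h3 : ∀ X : ℝ≥0∞, (X ^ (1 / m)) ^ m = X := by
    intro X
    rw [← ENNReal.rpow_mul, one_div, inv_mul_cancel₀ hm0.ne', ENNReal.rpow_one]
  calc I = (I ^ (1 / m)) ^ m := (h3 I).symm
    _ ≤ (A * B ^ (1 - 1 / m) * Q ^ (1 / m)) ^ m := ENNReal.rpow_le_rpow h2 hm0.le
    _ = (A * B ^ (1 - 1 / m)) ^ m * Q := by
        rw [ENNReal.mul_rpow_of_nonneg _ (Q ^ (1 / m)) hm0.le, h3]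

/-- the integral of the sum of the averages is finite -/
theorem fin_S (m : ℝ) (M : ℕ) (hm : 1 < m) (ρ : ℕ → ℝ) (v : ℕ → ℂ → ℂ) (hρ : ∀ k, k < M → 0 < ρ k)
    (hv : ∀ k, k < M → Nic2 (v k)) :
    ∫⁻ x, (∑ k ∈ Finset.range M, av (ρ k) (fun z => ‖v k z‖ₑ ^ 2) x) ^ m ≠ ⊤ := by
  have hex : ∀ k : ℕ, ∃ B : ℝ≥0∞, k < M → B ≠ ⊤ ∧ (∀ x, ‖v k x‖ₑ ^ 2 ≤ B) ∧
      ∫⁻ x, ‖v k x‖ₑ ^ 2 ≠ ⊤ := by
    intro k
    by_cases hk : k < M
    · obtain ⟨B, hB⟩ := sq_fin (hv k hk)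
      exact ⟨B, fun _ => hB⟩
    · exact ⟨0, fun h => absurd h hk⟩
  choose B hB using hex
  have hmeas : ∀ k, k < M → Measurable (av (ρ k) (fun z => ‖v k z‖ₑ ^ 2)) := fun k hk =>
    GAA.av_meas (((hv k hk).1.enorm).pow_const 2) _
  have hSB : ∀ x, (∑ k ∈ Finset.range M, av (ρ k) (fun z => ‖v k z‖ₑ ^ 2) x) ≤
      ∑ k ∈ Finset.range M, B k := fun x => Finset.sum_le_sum fun k hk =>
    av_le (hρ k (Finset.mem_range.1 hk)) (hB k (Finset.mem_range.1 hk)).2.1 x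
  have hBt : (∑ k ∈ Finset.range M, B k) ≠ ⊤ := by
    rw [ENNReal.sum_ne_top]
    exact fun k hk => (hB k (Finset.mem_range.1 hk)).1
  have hint : ∫⁻ x, (∑ k ∈ Finset.range M, av (ρ k) (fun z => ‖v k z‖ₑ ^ 2) x) ≠ ⊤ := by
    rw [lintegral_finsetSum' _ fun k hk => (hmeas k (Finset.mem_range.1 hk)).aemeasurable,
      ENNReal.sum_ne_top]
    intro k hk
    have hk' := Finset.mem_range.1 hk
    rw [GAA.av_int (((hv k hk').1.enorm).pow_const 2) (hρ k hk')]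
    exact (hB k hk').2.2
  have hmS : Measurable fun x => ∑ k ∈ Finset.range M, av (ρ k) (fun z => ‖v k z‖ₑ ^ 2) x :=
    Finset.measurable_fun_sum _ fun k hk => hmeas k (Finset.mem_range.1 hk)
  have h1 : ∫⁻ x, (∑ k ∈ Finset.range M, av (ρ k) (fun z => ‖v k z‖ₑ ^ 2) x) ^ m ≤
      (∑ k ∈ Finset.range M, B k) ^ (m - 1) *
        ∫⁻ x, (∑ k ∈ Finset.range M, av (ρ k) (fun z => ‖v k z‖ₑ ^ 2) x) := by
    rw [← lintegral_const_mul _ hmS]
    refine lintegral_mono fun x => ?_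
    simp only
    have e : m = (m - 1) + 1 := by ring
    conv_lhs => rw [e]
    rw [ENNReal.rpow_add_of_nonneg _ _ (by linarith) zero_le_one, ENNReal.rpow_one]
    exact mul_le_mul' (ENNReal.rpow_le_rpow (hSB x) (by linarith)) le_rfl
  exact ne_top_of_le_ne_top (ENNReal.mul_ne_top
    (ENNReal.rpow_ne_top_of_nonneg (by linarith) hBt) hint) h1

theorem t0 (h1 : S_BAS) (h2 : S_HLM) (h3 : S_GWT) : R_GSM := by
  intro m τ hm hτ hτ1
  have hm0 : (0 : ℝ) < m := by linarith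
  obtain ⟨θ, hθ⟩ : ∃ θ : ℝ, θ = 1 - 1 / m := ⟨_, rfl⟩
  have hinv : 1 / m < 1 := by rw [div_lt_one hm0]; exact hm
  have hinv0 : 0 < 1 / m := by positivity
  have hθ0 : 0 < θ := by rw [hθ]; linarith
  have hθ1 : θ < 1 := by rw [hθ]; linarith
  obtain ⟨u, hu⟩ : ∃ u : ℝ, u = min 1 (θ * (1 + τ / 16)) := ⟨_, rfl⟩
  have hu1 : u ≤ 1 := by rw [hu]; exact min_le_left _ _
  have hu2 : u ≤ θ * (1 + τ / 16) := by rw [hu]; exact min_le_right _ _
  have huθ : θ < u := by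
    rw [hu]
    refine lt_min hθ1 ?_
    have : 0 < θ * (τ / 16) := by positivity
    linarith
  have hu0 : 0 < u := hθ0.trans huθ
  have ht1 : 1 ≤ 1 / u := by
    rw [le_div_iff₀ hu0]
    linarith
  obtain ⟨C1, hC1, hG⟩ := h3 (τ / 8) (1 / u) (by positivity) ht1
  have hq : 1 < u / θ := by
    rw [lt_div_iff₀ hθ0]
    linarith
  obtain ⟨C2, hC2, hH⟩ := h2 (u / θ) hq
  refine ⟨θ * τ / 2, C1 * C2 ^ θ, by positivity, by positivity, ?_⟩
  intro n M a b H hn hk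
  have hn1 : (1 : ℝ) ≤ n := by exact_mod_cast hn
  have hn0 : (0 : ℝ) < n := by linarith
  have hpc : Real.HolderConjugate m (1 / θ) := by
    rw [Real.holderConjugate_iff]
    refine ⟨by linarith, ?_⟩
    rw [one_div, inv_inv, hθ, one_div]
    ring
  -- the functions
  have hbd : ∀ k, k < M → Bd 0 (b k) (Tn n (H k)) := fun k hkM =>
    GAA.bd_Tn (hk k hkM).1 (hk k hkM).2.2.2 n
  have hnic : ∀ k, k < M → Nic2 (Fi (Tn n (H k))) := fun k hkM => (h1 _ _ (hbd k hkM)).2.2.1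
  have hbdH : ∀ k, k < M → Bd 0 (b k) (H k) := fun k hkM =>
    ⟨(hk k hkM).2.2.2.1, fun ξ hξ => ⟨norm_nonneg _, ((hk k hkM).2.2.2.2 ξ hξ).2⟩⟩
  have hfm : ∀ k, k < M → Measurable (Fi (H k)) := fun k hkM => (h1 _ _ (hbdH k hkM)).2.2.1.1
  have hρ : ∀ k, k < M → 0 < (n : ℝ) ^ (τ / 2) / a k := fun k hkM =>
    div_pos (Real.rpow_pos_of_pos hn0 _) (hk k hkM).1
  obtain ⟨F, hF⟩ : ∃ F : ℕ → ℂ → ℝ≥0∞, F = fun k =>
    av ((n : ℝ) ^ (τ / 2) / a k) (fun z => ‖Fi (Tn n (H k)) z‖ₑ ^ 2) := ⟨_, rfl⟩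
  obtain ⟨S, hS⟩ : ∃ S : ℂ → ℝ≥0∞, S = fun x => ∑ k ∈ Finset.range M, F k x := ⟨_, rfl⟩
  have hFm : ∀ k, k < M → Measurable (F k) := fun k hkM => by
    rw [hF]
    exact GAA.av_meas (((hnic k hkM).1.enorm).pow_const 2) _
  have hSm : Measurable S := by
    rw [hS]
    exact Finset.measurable_fun_sum _ fun k hkM => hFm k (Finset.mem_range.1 hkM)
  obtain ⟨I, hI⟩ : ∃ I : ℝ≥0∞, I = ∫⁻ x, S x ^ m := ⟨_, rfl⟩
  have hIt : I ≠ ⊤ := by
    rw [hI, hS, hF]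
    exact fin_S m M hm _ _ hρ hnic
  obtain ⟨w, hw⟩ : ∃ w : ℂ → ℝ≥0∞, w = fun x => S x ^ (m - 1) := ⟨_, rfl⟩
  have hwm : Measurable w := by
    rw [hw]
    exact hSm.pow_const _
  have hwt : Measurable fun z => w z ^ (1 / u) := hwm.pow_const _
  obtain ⟨hmx, hHL⟩ := hH (fun z => w z ^ (1 / u)) hwt
  obtain ⟨G, hGd⟩ : ∃ G : ℂ → ℝ≥0∞, G = fun x => (mx (fun z => w z ^ (1 / u)) x) ^ (1 / (1 / u)) :=
    ⟨_, rfl⟩
  have hGm : Measurable G := by
    rw [hGd]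
    exact hmx.pow_const _
  obtain ⟨A, hA⟩ : ∃ A : ℝ≥0∞, A = ENNReal.ofReal (C1 * ((n : ℝ) ^ (1 - 3 * τ / 8)) ^ (2 * u)) :=
    ⟨_, rfl⟩
  -- the gain for one window
  have hone : ∀ k, k < M → ∫⁻ x, F k x * w x ≤ A * ∫⁻ x, ‖Fi (H k) x‖ₑ ^ 2 * G x := by
    intro k hkM
    obtain ⟨hk1, hk2, hk3, hk4⟩ := hk k hkM
    have hn2 : (1 : ℝ) ≤ (n : ℝ) ^ (τ / 2) := Real.one_le_rpow hn1 (by positivity)
    have hg := hG n (a k) (b k) ((n : ℝ) ^ (τ / 2) / a k) (H k) w hn hk1 hk2 hk3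
      (div_le_div_of_nonneg_right hn2 hk1.le)
      (div_le_div_of_nonneg_right (Real.rpow_le_rpow_of_exponent_le hn1 (by linarith)) hk1.le)
      hk4 hwm
    have e1 : (n : ℝ) ^ (1 + τ / 8) / (a k * ((n : ℝ) ^ (τ / 2) / a k)) = (n : ℝ) ^ (1 - 3 * τ / 8) := by
      rw [mul_div_cancel₀ _ hk1.ne', ← Real.rpow_sub hn0]
      congr 1
      ring
    have e2 : 2 / (1 / u) = 2 * u := by
      rw [div_div_eq_mul_div, div_one]
    rw [e1, e2] at hg
    rw [hF, hA, hGd]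
    exact hg
  -- the sum
  have hsum : I ≤ A * ∫⁻ x, (∑ k ∈ Finset.range M, ‖Fi (H k) x‖ₑ ^ 2) * G x := by
    have e1 : I = ∑ k ∈ Finset.range M, ∫⁻ x, F k x * w x := by
      have hs := lintegral_finsetSum (μ := volume) (Finset.range M) (f := fun k x => F k x * w x)
        (fun k hkM => (hFm k (Finset.mem_range.1 hkM)).mul hwm)
      rw [hI, ← hs]
      refine lintegral_congr fun x => ?_
      rw [← Finset.sum_mul, hw, hS]
      simp only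
      have e : m = 1 + (m - 1) := by ring
      conv_lhs => rw [e]
      rw [ENNReal.rpow_add_of_nonneg _ _ zero_le_one (by linarith), ENNReal.rpow_one]
    have e2 : ∫⁻ x, (∑ k ∈ Finset.range M, ‖Fi (H k) x‖ₑ ^ 2) * G x =
        ∑ k ∈ Finset.range M, ∫⁻ x, ‖Fi (H k) x‖ₑ ^ 2 * G x := by
      have hs := lintegral_finsetSum (μ := volume) (Finset.range M)
        (f := fun k x => ‖Fi (H k) x‖ₑ ^ 2 * G x)
        (fun k hkM => (((hfm k (Finset.mem_range.1 hkM)).enorm).pow_const 2).mul hGm)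
      rw [← hs]
      refine lintegral_congr fun x => ?_
      rw [Finset.sum_mul]
    rw [e1, e2, Finset.mul_sum]
    exact Finset.sum_le_sum fun k hkM => hone k (Finset.mem_range.1 hkM)
  -- Hoelder
  have hQm : Measurable fun x => ∑ k ∈ Finset.range M, ‖Fi (H k) x‖ₑ ^ 2 :=
    Finset.measurable_fun_sum _ fun k hkM => ((hfm k (Finset.mem_range.1 hkM)).enorm).pow_const 2
  have hho := ENNReal.lintegral_mul_le_Lp_mul_Lq volume hpc hQm.aemeasurable hGm.aemeasurable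
  have hQ : ∫⁻ x, (∑ k ∈ Finset.range M, ‖Fi (H k) x‖ₑ ^ 2) ^ m = Sr m M H := rfl
  have hGI : ∫⁻ x, G x ^ (1 / θ) ≤ ENNReal.ofReal C2 * I := by
    have e1 : ∀ x, G x ^ (1 / θ) = mx (fun z => w z ^ (1 / u)) x ^ (u / θ) := by
      intro x
      rw [hGd]
      simp only
      rw [← ENNReal.rpow_mul]
      congr 1
      rw [one_div_one_div]
      ring
    have e2 : ∀ x, (w x ^ (1 / u)) ^ (u / θ) = S x ^ m := by
      intro x
      rw [← ENNReal.rpow_mul, hw]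
      simp only
      rw [← ENNReal.rpow_mul]
      congr 1
      rw [hθ]
      have h5 : m - 1 ≠ 0 := by linarith
      have h6 : 1 - 1 / m ≠ 0 := by rw [← hθ]; exact hθ0.ne'
      have h7 : 1 - 1 / m = (m - 1) / m := by
        field_simp
      rw [h7]
      field_simp
    simp_rw [e1]
    refine hHL.trans (le_of_eq ?_)
    rw [hI]
    congr 1
    exact lintegral_congr e2
  have hmain : I ≤ A * ((Sr m M H) ^ (1 / m) * (ENNReal.ofReal C2 * I) ^ (1 - 1 / m)) := by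
    refine hsum.trans (mul_le_mul_right ?_ _)
    simp only [Pi.mul_apply] at hho
    refine hho.trans ?_
    rw [hQ]
    refine mul_le_mul_right ?_ _
    rw [one_div_one_div, ← hθ]
    exact ENNReal.rpow_le_rpow hGI hθ0.le
  have hfin := absorb hm hIt hmain
  have hgoal : ∫⁻ x, (∑ k ∈ Finset.range M,
      av ((n : ℝ) ^ (τ / 2) / a k) (fun z => ‖Fi (Tn n (H k)) z‖ₑ ^ 2) x) ^ m = I := by
    rw [hI, hS, hF]
  rw [hgoal]
  refine hfin.trans (mul_le_mul_left ?_ _)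
  rw [← ENNReal.ofReal_rpow_of_nonneg (by positivity) hm0.le]
  refine ENNReal.rpow_le_rpow ?_ hm0.le
  rw [hA, ENNReal.ofReal_rpow_of_nonneg hC2 (by linarith), ← ENNReal.ofReal_mul (by positivity)]
  refine ENNReal.ofReal_le_ofReal ?_
  rw [← hθ, ← Real.rpow_mul hn0.le]
  have hexp : (1 - 3 * τ / 8) * (2 * u) ≤ 2 * θ - θ * τ / 2 := by
    have h4 : (1 - 3 * τ / 8) * (2 * u) ≤ (1 - 3 * τ / 8) * (2 * (θ * (1 + τ / 16))) := by
      apply mul_le_mul_of_nonneg_left _ (by linarith)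
      linarith
    have h5 : (1 - 3 * τ / 8) * (2 * (θ * (1 + τ / 16))) =
        2 * θ - θ * τ / 2 - θ * (τ / 8 + 3 * τ ^ 2 / 64) := by ring
    have h6 : 0 ≤ θ * (τ / 8 + 3 * τ ^ 2 / 64) := by positivity
    linarith
  have hrp := Real.rpow_le_rpow_of_exponent_le hn1 hexp
  calc C1 * (n : ℝ) ^ ((1 - 3 * τ / 8) * (2 * u)) * C2 ^ θ
      = C1 * C2 ^ θ * (n : ℝ) ^ ((1 - 3 * τ / 8) * (2 * u)) := by ring
    _ ≤ C1 * C2 ^ θ * (n : ℝ) ^ (2 * θ - θ * τ / 2) :=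
        mul_le_mul_of_nonneg_left hrp (by positivity)

theorem t : R_GSM := t0 BAS.t HLM.t (GWT.t BAS.t (CNV.t BAS.t) (PLT.t BAS.t) HKD.t RDM.t)

end Pool.Agent.H10.RP.GSM
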