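import Pool.Agent.H10.RP.Stm
import Pool.Agent.H10.RP.GSM
import Pool.Graph.R_pool_sql_team_seeded_63374d34.N892.BW.INR
import Pool.Graph.R_pool_sql_team_seeded_63374d34.N892.BW.LOW

/-!
Project RP, part INR: all interactions are small, real exponents (port of the library file
`N892/BW/INR.lean`).
-/

set_option autoImplicit false

open MeasureTheory ENNReal Filter Topology Complex
open scoped ComplexConjugate ContDiff

namespace Pool.Agent.H10.RP.INR

open Pool.Agent.N892.BW Pool.Agent.H10.RP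
open Pool.Agent.N892.BW.INR (tn_smooth tn_sum bd_sum avg_le av_meas fi_zero)

theorem sep_lt {m M : ℕ} {a b : ℕ → ℝ} {H : ℕ → ℂ → ℂ} (hm : 1 ≤ m) (hS : Sep m M a b H) (i : ℕ) :
    ∀ j, i < j → j < M → 4 * (m : ℝ) * b i ≤ a j := by
  intro j hij hjM
  have hm' : (1 : ℝ) ≤ (m : ℝ) := by exact_mod_cast hm
  induction j with
  | zero => omega
  | succ j ih =>
    rcases Nat.lt_or_ge i j with h | h
    · have h1 := ih h (by omega)
      obtain ⟨h2, h3, -, h4⟩ := hS j (by omega)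
      have h5 : b j ≤ 4 * (m : ℝ) * b j := by nlinarith
      linarith
    · have h6 : j = i := by omega
      subst h6
      exact (hS j (by omega)).2.2.2

theorem key {m n M : ℕ} {τ C1 : ℝ} {a b : ℕ → ℝ} {H : ℕ → ℂ → ℂ} (hm : 1 ≤ m) (hτ : 0 < τ)
    (hn : 1 ≤ n) (hC1 : 0 ≤ C1)
    (hL : ∀ (b b' : ℝ) (h₁ h₂ : ℂ → ℂ) (x y : ℂ), 0 < b → Bd 0 b h₁ → Bd (2 * b) b' h₂ →
      ‖Fi h₁ (x + y)‖ₑ ≤ ENNReal.ofReal (C1 * (1 + b * ‖y‖) ^ 4) *
        mx (fun z => ‖Fi (fun ξ => h₁ ξ + h₂ ξ) z‖ₑ) x)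
    (hS : Sep m M a b H) (hab : ∀ k, k < M → b k ≤ a k * n ∧ b k * (n : ℝ) ^ τ ≤ a (k + 1))
    {k : ℕ} (hk : k + 1 < M) (x y : ℂ)
    (hy : y ∈ Metric.ball (0 : ℂ) ((n : ℝ) ^ (τ / 2) / a (k + 1))) :
    ‖Fi (Tn n (sm H (k + 1))) (x + y)‖ₑ ≤
      ENNReal.ofReal (16 * C1) * mx (fun z => ‖Fi (Tn n (sm H M)) z‖ₑ) x := by
  have hm' : (1 : ℝ) ≤ (m : ℝ) := by exact_mod_cast hm
  have hn' : (1 : ℝ) ≤ (n : ℝ) := by exact_mod_cast hn
  have hbk : 0 < b k := (hS k (by omega)).1.trans_le (hS k (by omega)).2.1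
  have hak : 0 < a (k + 1) := (hS (k + 1) hk).1
  have h1 : Bd 0 (b k) (Tn n (sm H (k + 1))) := by
    refine bd_sum n (Finset.range (k + 1)) a b H 0 (b k) ?_
    intro j hj
    rw [Finset.mem_range] at hj
    obtain ⟨h1, h2, h3, -⟩ := hS j (by omega)
    refine ⟨h1, h3, h1.le, ?_⟩
    rcases Nat.lt_or_ge j k with h | h
    · have h4 := sep_lt hm hS j k h (by omega)
      have h5 := (hS k (by omega)).2.1
      have h6 : b j ≤ 4 * (m : ℝ) * b j := by nlinarith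
      linarith
    · have h7 : j = k := by omega
      rw [h7]
  have h2 : Bd (2 * b k) (∑ j ∈ Finset.range M, b j)
      (Tn n (fun ξ => ∑ j ∈ Finset.Ico (k + 1) M, H j ξ)) := by
    refine bd_sum n (Finset.Ico (k + 1) M) a b H _ _ ?_
    intro j hj
    rw [Finset.mem_Ico] at hj
    obtain ⟨h1, h2, h3, -⟩ := hS j hj.2
    refine ⟨h1, h3, ?_, ?_⟩
    · have h4 := sep_lt hm hS k j (by omega) hj.2
      nlinarith
    · refine Finset.single_le_sum (f := b) (fun i hi => ?_) (Finset.mem_range.2 hj.2)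
      rw [Finset.mem_range] at hi
      exact ((hS i hi).1.trans_le (hS i hi).2.1).le
  have h3 : (fun ξ => Tn n (sm H (k + 1)) ξ + Tn n (fun ξ => ∑ j ∈ Finset.Ico (k + 1) M, H j ξ) ξ) =
      Tn n (sm H M) := by
    funext ξ
    simp only [Tn, sm]
    rw [← mul_add, Finset.sum_range_add_sum_Ico _ (by omega)]
  have h4 := hL (b k) _ _ _ x y hbk h1 h2
  rw [h3] at h4
  refine h4.trans (mul_le_mul_left (ENNReal.ofReal_le_ofReal ?_) _)
  have h5 : b k * ‖y‖ ≤ 1 := by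
    rw [Metric.mem_ball, dist_zero_right] at hy
    have h6 : (n : ℝ) ^ (τ / 2) ≤ (n : ℝ) ^ τ := Real.rpow_le_rpow_of_exponent_le hn' (by linarith)
    have h7 := (hab k (by omega)).2
    have h8 : b k * (n : ℝ) ^ (τ / 2) ≤ a (k + 1) :=
      (mul_le_mul_of_nonneg_left h6 hbk.le).trans h7
    calc b k * ‖y‖ ≤ b k * ((n : ℝ) ^ (τ / 2) / a (k + 1)) :=
          mul_le_mul_of_nonneg_left hy.le hbk.le
      _ = (b k * (n : ℝ) ^ (τ / 2)) / a (k + 1) := by ring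
      _ ≤ 1 := (div_le_one hak).2 h8
  have h9 : (1 + b k * ‖y‖) ^ 4 ≤ 16 := by
    have h10 : 0 ≤ b k * ‖y‖ := by positivity
    calc (1 + b k * ‖y‖) ^ 4 ≤ (2 : ℝ) ^ 4 := pow_le_pow_left₀ (by positivity) (by linarith) 4
      _ = 16 := by norm_num
  nlinarith

theorem t0 (h1 : S_BAS) (h2 : S_LOW) (h3 : S_HLM) (h4 : R_GSM) : R_INR := by
  intro m τ μ hm hτ hτ1 hμ
  have hm0 : 0 < m := by linarith
  obtain ⟨C1, hC1, hL⟩ := h2
  obtain ⟨C3, hC3, hM⟩ := h3 (2 * m) (by linarith)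
  obtain ⟨δ, C2, hδ, hC2, hG⟩ := h4 m τ hm hτ hτ1
  have hC : 0 ≤ C2 * ((16 * C1) ^ (2 * m - 2) * C3 ^ (1 - 1 / m)) := by positivity
  refine ⟨δ, C2 * ((16 * C1) ^ (2 * m - 2) * C3 ^ (1 - 1 / m)), hδ, hC, ?_⟩
  intro n M a b H hn hS hab
  have hn' : (1 : ℝ) ≤ (n : ℝ) := by exact_mod_cast hn
  have hn0 : (0 : ℝ) < (n : ℝ) := by linarith
  -- measurability
  have hbF : Bd 0 (∑ j ∈ Finset.range M, b j) (Tn n (sm H M)) := by
    refine bd_sum n (Finset.range M) a b H 0 _ ?_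
    intro j hj
    have hj' := Finset.mem_range.1 hj
    obtain ⟨h5, h6, h7, -⟩ := hS j hj'
    refine ⟨h5, h7, h5.le, ?_⟩
    refine Finset.single_le_sum (f := b) (fun i hi => ?_) hj
    rw [Finset.mem_range] at hi
    exact ((hS i hi).1.trans_le (hS i hi).2.1).le
  obtain ⟨F, hF⟩ : ∃ F : ℂ → ℝ≥0∞, F = fun z => ‖Fi (Tn n (sm H M)) z‖ₑ := ⟨_, rfl⟩
  have hFm : Measurable F := by
    rw [hF]
    exact (h1 _ _ hbF).1.measurable.enorm
  obtain ⟨hmx, hmx2⟩ := hM F hFm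
  have hvm : ∀ k, k < M → Measurable fun z => ‖Fi (Tn n (H k)) z‖ₑ ^ 2 := by
    intro k hk
    obtain ⟨h5, h6, h7, -⟩ := hS k hk
    have h8 : Bd 0 (b k) (Tn n (H k)) := by
      refine ⟨tn_smooth n h5 h7, fun ξ hξ => ?_⟩
      have h9 : H k ξ ≠ 0 := by
        intro h0
        apply hξ
        simp only [Tn, h0, mul_zero]
      exact ⟨norm_nonneg _, (h7.2 ξ h9).2⟩
    exact ((h1 _ _ h8).1.measurable.enorm).pow_const 2
  obtain ⟨W, hW⟩ : ∃ W : ℂ → ℝ≥0∞, W = fun x => (ENNReal.ofReal (16 * C1) * mx F x) ^ (2 * m - 2) :=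
    ⟨_, rfl⟩
  have hWm : Measurable W := by
    rw [hW]
    exact (hmx.const_mul _).pow_const _
  obtain ⟨A, hA⟩ : ∃ A : ℕ → ℂ → ℝ≥0∞, A = fun k =>
      av ((n : ℝ) ^ (τ / 2) / a k) (fun z => ‖Fi (Tn n (H k)) z‖ₑ ^ 2) := ⟨_, rfl⟩
  have hAm : ∀ k, k < M → Measurable (A k) := by
    intro k hk
    rw [hA]
    exact av_meas (hvm k hk)
  -- each term
  have hterm : ∀ k ∈ Finset.range M,
      (∫⁻ x, ‖Fi (Tn n (H k)) x‖ₑ ^ 2 * ‖Fi (Tn n (sm H k)) x‖ₑ ^ (2 * m - 2)) ≤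
        ∫⁻ x, A k x * W x := by
    intro k hk
    rw [Finset.mem_range] at hk
    cases k with
    | zero =>
      have h5 : ∀ x, ‖Fi (Tn n (H 0)) x‖ₑ ^ 2 * ‖Fi (Tn n (sm H 0)) x‖ₑ ^ (2 * m - 2) = 0 := by
        intro x
        rw [fi_zero, enorm_zero, ENNReal.zero_rpow_of_pos (by linarith), mul_zero]
      simp only [h5, lintegral_zero]
      exact bot_le
    | succ k =>
      have hak : 0 < a (k + 1) := (hS (k + 1) hk).1
      rw [hA]
      refine avg_le (f := fun z => ‖Fi (Tn n (H (k + 1))) z‖ₑ ^ 2)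
        (g := fun z => ‖Fi (Tn n (sm H (k + 1))) z‖ₑ ^ (2 * m - 2)) (by positivity) (hvm _ hk) hWm ?_
      intro x y hy
      have h6 := key hμ hτ hn hC1 hL hS hab hk x y hy
      rw [← hF] at h6
      rw [hW]
      exact ENNReal.rpow_le_rpow h6 (by linarith)
  have hcj : m.HolderConjugate (m / (m - 1)) :=
    Real.HolderConjugate.conjExponent (by linarith)
  have hSm : Measurable fun x => ∑ k ∈ Finset.range M, A k x :=
    Finset.measurable_sum _ fun k hk => hAm k (Finset.mem_range.1 hk)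
  have hstep : (∑ k ∈ Finset.range M,
      (∫⁻ x, ‖Fi (Tn n (H k)) x‖ₑ ^ 2 * ‖Fi (Tn n (sm H k)) x‖ₑ ^ (2 * m - 2))) ≤
      (∫⁻ x, (∑ k ∈ Finset.range M, A k x) ^ m) ^ (1 / m) *
        (∫⁻ x, W x ^ (m / (m - 1))) ^ (1 / (m / (m - 1))) := by
    refine (Finset.sum_le_sum hterm).trans ?_
    have hmul : ∀ k ∈ Finset.range M, Measurable fun x => A k x * W x :=
      fun k hk => (hAm k (Finset.mem_range.1 hk)).mul hWm
    rw [← lintegral_finsetSum _ hmul]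
    have h7 : (fun x => ∑ k ∈ Finset.range M, A k x * W x) =
        fun x => ((fun x => ∑ k ∈ Finset.range M, A k x) * W) x := by
      funext x
      rw [Pi.mul_apply, Finset.sum_mul]
    rw [h7]
    exact ENNReal.lintegral_mul_le_Lp_mul_Lq _ hcj hSm.aemeasurable hWm.aemeasurable
  refine hstep.trans ?_
  -- first factor
  have hX : 0 ≤ C2 * (n : ℝ) ^ (2 * (1 - 1 / m) - δ) := by positivity
  have hfirst : (∫⁻ x, (∑ k ∈ Finset.range M, A k x) ^ m) ^ (1 / m) ≤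
      ENNReal.ofReal (C2 * (n : ℝ) ^ (2 * (1 - 1 / m) - δ)) * (Sr m M H) ^ (1 / m) := by
    have h8 := hG n M a b H hn fun k hk =>
      ⟨(hS k hk).1, (hS k hk).2.1, (hab k hk).1, (hS k hk).2.2.1⟩
    have h9 : (∫⁻ x, (∑ k ∈ Finset.range M, A k x) ^ m) =
        ∫⁻ x, (∑ k ∈ Finset.range M, av ((n : ℝ) ^ (τ / 2) / a k)
          (fun z => ‖Fi (Tn n (H k)) z‖ₑ ^ 2) x) ^ m := by
      refine lintegral_congr fun x => ?_
      rw [hA]
    rw [h9]
    calc _ ≤ (ENNReal.ofReal ((C2 * (n : ℝ) ^ (2 * (1 - 1 / m) - δ)) ^ m) * Sr m M H) ^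
          (1 / m) := ENNReal.rpow_le_rpow h8 (by positivity)
      _ = _ := by
        rw [ENNReal.mul_rpow_of_nonneg _ _ (by positivity), ← ENNReal.ofReal_rpow_of_nonneg hX hm0.le,
          ← ENNReal.rpow_mul, mul_one_div_cancel (by linarith), ENNReal.rpow_one]
  -- second factor
  have hq1 : 1 / (m / (m - 1)) = 1 - 1 / m := by
    have : m ≠ 0 := by linarith
    field_simp
  have hm1 : (0 : ℝ) ≤ 1 - 1 / m := by
    have : 1 / m ≤ 1 := by
      rw [div_le_one (by linarith)]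
      linarith
    linarith
  have hsecond : (∫⁻ x, W x ^ (m / (m - 1))) ^ (1 / (m / (m - 1))) ≤
      ENNReal.ofReal ((16 * C1) ^ (2 * m - 2) * C3 ^ (1 - 1 / m)) *
        (Nr m (Fi (Tn n (sm H M)))) ^ (1 - 1 / m) := by
    have h10 : ∀ x, W x ^ (m / (m - 1)) =
        (ENNReal.ofReal (16 * C1)) ^ (2 * m) * mx F x ^ (2 * m) := by
      intro x
      rw [hW]
      simp only
      rw [← ENNReal.rpow_mul]
      have h11 : (2 * m - 2) * (m / (m - 1)) = 2 * m := by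
        have : m - 1 ≠ 0 := by linarith
        field_simp
      rw [h11, ENNReal.mul_rpow_of_nonneg _ _ (by positivity)]
    have h12 : ∫⁻ x, W x ^ (m / (m - 1)) ≤
        (ENNReal.ofReal (16 * C1)) ^ (2 * m) *
          (ENNReal.ofReal C3 * Nr m (Fi (Tn n (sm H M)))) := by
      simp only [h10]
      rw [lintegral_const_mul' _ _ (ENNReal.rpow_ne_top_of_nonneg (by positivity) ENNReal.ofReal_ne_top)]
      refine mul_le_mul_right (hmx2.trans (le_of_eq ?_)) _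
      congr 1
      rw [Nr, hF]
    rw [hq1]
    calc _ ≤ ((ENNReal.ofReal (16 * C1)) ^ (2 * m) *
          (ENNReal.ofReal C3 * Nr m (Fi (Tn n (sm H M))))) ^ (1 - 1 / m) :=
          ENNReal.rpow_le_rpow h12 hm1
      _ = _ := by
        have h13 : 2 * m * (1 - 1 / m) = 2 * m - 2 := by
          have : m ≠ 0 := by linarith
          field_simp
        have h15 : ENNReal.ofReal ((16 * C1) ^ (2 * m - 2) * C3 ^ (1 - 1 / m)) =
            ENNReal.ofReal (16 * C1) ^ (2 * m * (1 - 1 / m)) *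
              ENNReal.ofReal C3 ^ (1 - 1 / m) := by
          rw [h13, ENNReal.ofReal_rpow_of_nonneg hC3 hm1,
            ENNReal.ofReal_rpow_of_nonneg (by positivity) (by linarith),
            ← ENNReal.ofReal_mul (by positivity)]
        rw [h15, ENNReal.mul_rpow_of_nonneg _ _ hm1, ENNReal.mul_rpow_of_nonneg _ _ hm1,
          ← ENNReal.rpow_mul, ← mul_assoc]
  calc _ ≤ (ENNReal.ofReal (C2 * (n : ℝ) ^ (2 * (1 - 1 / m) - δ)) * (Sr m M H) ^ (1 / m)) *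
        (ENNReal.ofReal ((16 * C1) ^ (2 * m - 2) * C3 ^ (1 - 1 / m)) *
        (Nr m (Fi (Tn n (sm H M)))) ^ (1 - 1 / m)) := mul_le_mul' hfirst hsecond
    _ = _ := by
      have h14 : ENNReal.ofReal (C2 * ((16 * C1) ^ (2 * m - 2) * C3 ^ (1 - 1 / m)) *
          (n : ℝ) ^ (2 * (1 - 1 / m) - δ)) =
          ENNReal.ofReal (C2 * (n : ℝ) ^ (2 * (1 - 1 / m) - δ)) *
            ENNReal.ofReal ((16 * C1) ^ (2 * m - 2) * C3 ^ (1 - 1 / m)) := by
        rw [← ENNReal.ofReal_mul hX]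
        congr 1
        ring
      rw [h14]
      ring

theorem t : R_INR := t0 BAS.t (LOW.t BAS.t (CNV.t BAS.t) RDM.t) HLM.t GSM.t

end Pool.Agent.H10.RP.INR
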