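import Pool.Agent.H10.RP.Stm
import Pool.Graph.R_pool_sql_team_seeded_63374d34.N892.BW.LPF

/-!
Project RP, part LPF: the square function inequality for separated families, real exponents (port of the
library file `N892/BW/LPF.lean`).
-/

set_option autoImplicit false

open MeasureTheory ENNReal Filter Topology Complex
open scoped ComplexConjugate ContDiff

namespace Pool.Agent.H10.RP.LPF

open Pool.Agent.N892.BW Pool.Agent.H10.RP
open Pool.Agent.N892.BW.LPF (bt bt_pos bt_dbl sm_Bd key2)

theorem t (hL : R_LPS) : R_LPF := by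
  intro m μ hm hμ
  obtain ⟨C, hC, hC2⟩ := hL m hm
  refine ⟨C, hC, ?_⟩
  intro M a b H hS
  rcases Nat.eq_zero_or_pos M with hM | hM
  · subst hM
    have : Sr m 0 H = 0 := by
      unfold Sr
      simp [show (0 : ℝ) < m by linarith]
    rw [this]
    exact zero_le
  · have h1 := hC2 M (bt M a b) (b (M - 1)) (sm H M) (bt_pos μ M a b H hM hS 0)
      (bt_dbl μ M a b H hμ hM hS) (sm_Bd μ M a b H hμ hM hS)
    have h2 : Sr m M H = ∫⁻ x, (∑ i ∈ Finset.range M,
        ‖Fi (fun ξ => bp (bt M a b) i ξ * sm H M ξ) x‖ₑ ^ 2) ^ m := by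
      unfold Sr
      apply lintegral_congr
      intro x
      congr 1
      apply Finset.sum_congr rfl
      intro i hi
      rw [key2 μ M a b H hμ hM hS i (Finset.mem_range.mp hi)]
    rw [h2]
    exact h1

end Pool.Agent.H10.RP.LPF
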