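import Pool.Agent.H10.RP.PAL
import Pool.Graph.R_pool_sql_team_seeded_63374d34.N892.BW.LQT_A

/-!
Project RP, part FIN (port of the theorem `fin` of `N892/BW/LQT_A.lean`).
-/

set_option autoImplicit false

open MeasureTheory ENNReal Filter Topology Complex
open scoped ComplexConjugate

namespace Pool.Agent.H10.RP.FIN

open Pool.Agent.N892.BW Pool.Agent.N892.BW.LQT

/-- a finite bound -/
theorem fin {m : ℝ} {n : ℕ} (hm : 1 < m) (hn : 1 ≤ n) {B D : ℝ} {ψ : ℂ → ℝ} (hψ : Cut B 1 D ψ)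
    {l : ℝ} (hl : l ≤ 1) {χ : ℂ → ℝ≥0∞} (hχ : Mol l χ) :
    ∃ K : ℝ, 0 ≤ K ∧ ∀ g : ℂ → ℂ, Nice g →
      ∫⁻ w, (∫⁻ y, χ y * ‖So n ψ g (w + y)‖ₑ ^ 2) ^ (qr m / 2) ≤
        ENNReal.ofReal (K ^ (qr m)) * ∫⁻ z, ‖g z‖ₑ ^ (qr m) := by
  have hpq := (PAL.qr_conj hm).symm
  have hq0 : 0 < qr m := hpq.symm.pos
  obtain ⟨hχm, hχs, hχi⟩ := hχ
  obtain ⟨k, hk⟩ : ∃ k : ℂ → ℝ≥0∞, k = (Metric.closedBall (0 : ℂ) (D + 1)).indicator
      (fun _ => ENNReal.ofReal ((n : ℝ) / Real.pi)) := ⟨_, rfl⟩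
  have hkm : Measurable k := by
    rw [hk]
    exact measurable_const.indicator Metric.isClosed_closedBall.measurableSet
  have hK1 : ∫⁻ z, k z ≠ ⊤ := by
    rw [hk, lintegral_indicator Metric.isClosed_closedBall.measurableSet, setLIntegral_const]
    exact (ENNReal.mul_lt_top ENNReal.ofReal_lt_top
      (isCompact_closedBall (0 : ℂ) (D + 1)).measure_lt_top).ne
  refine ⟨(∫⁻ z, k z).toReal, ENNReal.toReal_nonneg, ?_⟩
  intro g hg
  rw [← ENNReal.ofReal_rpow_of_nonneg ENNReal.toReal_nonneg hq0.le, ENNReal.ofReal_toReal hK1]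
  refine le_trans (lintegral_mono fun w => ?_) (young hpq hkm hg.1.enorm)
  obtain ⟨V, hV⟩ : ∃ V : ℝ≥0∞, V = ∫⁻ z, k (w - z) * ‖g z‖ₑ := ⟨_, rfl⟩
  rw [← hV]
  have h1 : ∀ y, χ y * ‖So n ψ g (w + y)‖ₑ ^ 2 ≤ χ y * V ^ 2 := by
    intro y
    by_cases hy : l < ‖y‖
    · rw [hχs y hy, zero_mul, zero_mul]
    · rw [not_lt] at hy
      refine mul_le_mul' le_rfl (pow_le_pow_left' ?_ 2)
      unfold So
      refine (enorm_integral_le_lintegral_enorm _).trans ?_
      rw [hV]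
      refine lintegral_mono fun z => ?_
      rw [enorm_mul]
      refine mul_le_mul' ?_ le_rfl
      rw [hk]
      by_cases hz : w - z ∈ Metric.closedBall (0 : ℂ) (D + 1)
      · rw [Set.indicator_of_mem hz, ← ofReal_norm]
        exact ENNReal.ofReal_le_ofReal (LQ.kk_bd hn hψ _)
      · rw [Set.indicator_of_notMem hz]
        have h2 : ψ (w + y - z) = 0 := by
          by_contra hcon
          have h3 := (hψ.2.2.1 _ hcon).2
          apply hz
          rw [mem_closedBall_zero_iff]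
          have h4 : w - z = (w + y - z) - y := by ring
          calc ‖w - z‖ = ‖(w + y - z) - y‖ := by rw [← h4]
            _ ≤ ‖w + y - z‖ + ‖y‖ := norm_sub_le _ _
            _ ≤ D + 1 := by linarith
        unfold kk
        rw [h2, Complex.ofReal_zero, mul_zero, enorm_zero]
  have h2 : ∫⁻ y, χ y * ‖So n ψ g (w + y)‖ₑ ^ 2 ≤ V ^ 2 := by
    refine (lintegral_mono h1).trans ?_
    rw [lintegral_mul_const _ hχm, hχi, one_mul]
  refine (ENNReal.rpow_le_rpow h2 (by positivity)).trans (le_of_eq ?_)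
  rw [← ENNReal.rpow_natCast, ← ENNReal.rpow_mul]
  congr 1
  push_cast
  ring

/-- **FIN.** -/
theorem t : Pool.Agent.H10.RP.R_FIN := by
  intro m n B D l ψ χ hm hn hD hψ hl hχ
  exact fin hm hn hψ hl hχ

end Pool.Agent.H10.RP.FIN
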