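import Pool.Agent.H10.RP.YNG
import Pool.Graph.R_pool_sql_team_seeded_63374d34.N892.BW.INT
import Pool.Graph.R_pool_sql_team_seeded_63374d34.N892.BW.H1

/-!
Project RP, part INT (port of `N892/BW/INT.lean`).
-/

set_option autoImplicit false

open MeasureTheory ENNReal Filter Topology Complex
open scoped ComplexConjugate

namespace Pool.Agent.H10.RP.INT

open Pool.Agent.N892.BW Pool.Agent.N892.BW.INT

theorem t0 (h1 : Pool.Agent.N892.BW.S_DEC2) (h2 : R_YNG) :
    R_INT := by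
  intro m hm
  obtain ⟨C0, hC0, hY⟩ := h2 m hm
  have hmR : (1 : ℝ) < m := hm
  obtain ⟨q, hq⟩ : ∃ q, q = qr m := ⟨_, rfl⟩
  have hq0 : 0 < q := by
    rw [hq]; unfold qr
    exact div_pos (by linarith) (by linarith)
  have hq2 : q ≤ 2 := by
    rw [hq]; unfold qr
    rw [div_le_iff₀ (by linarith)]
    linarith
  obtain ⟨s, hs⟩ : ∃ s, s = q / 2 := ⟨_, rfl⟩
  have hs0 : 0 < s := by rw [hs]; linarith
  have hs1 : s ≤ 1 := by rw [hs]; linarith
  refine ⟨4 * Real.pi * C0 ^ (qr m / 2), by positivity, ?_⟩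
  intro n ψ l D CJ δ χ cell g hn hl hl1 hD hCJ hδ hχm hχ0 hχl hχ1 hψ hcell hg hsep hker
  have hdec := h1 n ψ l D CJ δ χ cell g hn hl hl1 hD hCJ hδ hχm hχ0 hχl hχ1 hψ hcell hg hsep hker
  rw [← hq, ← hs]
  have hψm : Measurable ψ := by
    obtain ⟨B, hB⟩ := hψ
    exact hB.1.continuous.measurable
  have hgm : Measurable g := hg.1
  have hFm : Measurable fun z => ‖g z‖ₑ ^ q := hgm.enorm.pow_const q
  have hδp : 0 ≤ δ ^ (-2 + 2 / (m : ℝ)) := Real.rpow_nonneg hδ.le _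
  -- the pointwise bound
  have hpt : ∀ w, (∫⁻ y, ENNReal.ofReal (χ y) * ‖So n ψ g (w + y)‖ₑ ^ 2) ^ s ≤
      (∑' Q : ℤ × ℤ, (∫⁻ y, ENNReal.ofReal (χ y) * ‖So n ψ (pc cell g Q) (w + y)‖ₑ ^ 2) ^ s) +
      (ENNReal.ofReal CJ * ENNReal.ofReal (C0 * δ ^ (-2 + 2 / (m : ℝ)))) ^ s *
        ∫⁻ z, (Metric.closedBall w (2 * D)).indicator (fun z => ‖g z‖ₑ ^ q) z := by
    intro w
    refine (ENNReal.rpow_le_rpow (hdec w) hs0.le).trans ?_
    refine (ENNReal.rpow_add_le_add_rpow _ _ hs0.le hs1).trans ?_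
    refine add_le_add (rpow_tsum_le _ hs0 hs1) ?_
    have hgw : Measurable ((Metric.closedBall w (2 * D)).indicator fun z => ‖g z‖ₑ) :=
      hgm.enorm.indicator Metric.isClosed_closedBall.measurableSet
    have hy := hY δ hδ _ hgw
    refine (ENNReal.rpow_le_rpow (mul_le_mul_right hy _) hs0.le).trans ?_
    rw [← mul_assoc, ENNReal.mul_rpow_of_nonneg _ _ hs0.le, ← hq, ← ENNReal.rpow_mul,
      show 2 / q * s = 1 by rw [hs]; field_simp, ENNReal.rpow_one]
    refine mul_le_mul_right (le_of_eq (lintegral_congr fun z => ?_)) _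
    by_cases hz : z ∈ Metric.closedBall w (2 * D)
    · rw [Set.indicator_of_mem hz, Set.indicator_of_mem hz]
    · rw [Set.indicator_of_notMem hz, Set.indicator_of_notMem hz, ENNReal.zero_rpow_of_pos hq0]
  refine (lintegral_mono hpt).trans ?_
  have hGm : Measurable fun w : ℂ => ∫⁻ z, (Metric.closedBall w (2 * D)).indicator
      (fun z => ‖g z‖ₑ ^ q) z := (G_joint hFm (2 * D)).lintegral_prod_right'
  have hXm : ∀ Q : ℤ × ℤ, AEMeasurable (fun w : ℂ =>
      (∫⁻ y, ENNReal.ofReal (χ y) * ‖So n ψ (pc cell g Q) (w + y)‖ₑ ^ 2) ^ s) volume := by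
    intro Q
    have hp : Measurable (pc cell g Q) := hgm.indicator (hcell (measurableSet_singleton Q))
    exact ((X_meas n hψm hp hχm).pow_const s).aemeasurable
  rw [lintegral_add_right _ (hGm.const_mul _), lintegral_const_mul _ hGm, G_int hFm,
    lintegral_tsum hXm]
  refine add_le_add le_rfl ?_
  rw [← mul_assoc]
  refine mul_le_mul_left (le_of_eq ?_) _
  rw [ENNReal.mul_rpow_of_nonneg _ _ hs0.le, ENNReal.ofReal_rpow_of_nonneg hCJ hs0.le,
    ENNReal.ofReal_rpow_of_nonneg (by positivity) hs0.le, Real.mul_rpow hC0.le hδp,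
    ← ENNReal.ofReal_pow (by linarith), show ((NNReal.pi : NNReal) : ℝ≥0∞) = ENNReal.ofReal Real.pi
      from (ENNReal.ofReal_eq_coe_nnreal Real.pi_pos.le).symm ▸ rfl,
    ← ENNReal.ofReal_mul (by positivity), ← ENNReal.ofReal_mul (by positivity),
    ← ENNReal.ofReal_mul (by positivity)]
  congr 1
  ring

/-- **INT.** -/
theorem t : Pool.Agent.H10.RP.R_INT := t0 Pool.Agent.N892.BW.DEC.t2 YNG.t

end Pool.Agent.H10.RP.INT
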