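import Pool.Agent.H10.RP.CELL
import Pool.Agent.H10.RP.INT
import Pool.Agent.H10.RP.FIN
import Pool.Graph.R_pool_sql_team_seeded_63374d34.N892.BW.LQT

/-!
Project RP, part LQT (port of `N892/BW/LQT.lean`, `LQT_A.lean`, helper862, after LQ by helper615).
-/

set_option autoImplicit false

open MeasureTheory ENNReal Filter Topology Complex
open scoped ComplexConjugate

namespace Pool.Agent.H10.RP.LQT

open Pool.Agent.N892.BW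
open Pool.Agent.N892.BW.LQT (avg_meas wd rp mink1 mink young improve)

/-- the estimate of the inner part -/
theorem inner {m : ℝ} {n : ℕ} {ψ : ℂ → ℝ} {χ : ℂ → ℝ} {R δ E off : ℝ} (hq : 1 ≤ qr m)
    (hE : 0 ≤ E) (hoff : 0 ≤ off)
    (hcell : ∀ (a : ℂ) (g : ℂ → ℂ), Nice g → (∀ z, g z ≠ 0 → ‖z - a‖ ≤ R) →
      (∫⁻ w, (∫⁻ y, ENNReal.ofReal (χ y) * ‖So n ψ g (w + y)‖ₑ ^ 2) ^ (qr m / 2)) ^ (1 / qr m) ≤
        ENNReal.ofReal E * (∫⁻ z, ‖g z‖ₑ ^ (qr m)) ^ (1 / qr m))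
    (hint : ∀ (cell : ℂ → ℤ × ℤ) (g : ℂ → ℂ), Measurable cell → Nice g →
      (∀ z z', g z ≠ 0 → g z' ≠ 0 → cell z ≠ cell z' → δ ≤ ‖z - z'‖) →
      ∫⁻ w, (∫⁻ y, ENNReal.ofReal (χ y) * ‖So n ψ g (w + y)‖ₑ ^ 2) ^ (qr m / 2) ≤
        (∑' Q : ℤ × ℤ, ∫⁻ w, (∫⁻ y, ENNReal.ofReal (χ y) *
          ‖So n ψ (pc cell g Q) (w + y)‖ₑ ^ 2) ^ (qr m / 2)) +
        ENNReal.ofReal off * ∫⁻ z, ‖g z‖ₑ ^ (qr m))
    {g : ℂ → ℂ} (hg : Nice g) {cell : ℂ → ℤ × ℤ} {I : Set ℂ} (hcm : Measurable cell)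
    (hI : MeasurableSet I) (hsep : ∀ z ∈ I, ∀ z' ∈ I, cell z ≠ cell z' → δ ≤ ‖z - z'‖)
    (hdiam : ∀ z z', cell z = cell z' → ‖z - z'‖ ≤ R) :
    ∫⁻ w, (∫⁻ y, ENNReal.ofReal (χ y) * ‖So n ψ (I.indicator g) (w + y)‖ₑ ^ 2) ^ (qr m / 2) ≤
      ENNReal.ofReal ((E + off ^ (1 / qr m)) ^ (qr m)) * ∫⁻ z, ‖g z‖ₑ ^ (qr m) := by
  have hq0 : 0 < qr m := by linarith
  obtain ⟨q, hqe⟩ : ∃ q, q = qr m := ⟨_, rfl⟩
  rw [← hqe] at hq hq0 hcell hint ⊢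
  obtain ⟨gi, hgi⟩ : ∃ gi, gi = I.indicator g := ⟨_, rfl⟩
  have hgiN : Nice gi := hgi ▸ LQ.nice_ind hg hI
  rw [← hgi]
  have hgi0 : ∀ z, gi z ≠ 0 → z ∈ I := by
    intro z hz
    rw [hgi] at hz
    exact Set.mem_of_indicator_ne_zero hz
  refine (hint cell gi hcm hgiN fun z z' h1 h2 h3 => hsep z (hgi0 z h1) z' (hgi0 z' h2) h3).trans ?_
  have hpc : ∀ Q, Nice (pc cell gi Q) := fun Q =>
    LQ.nice_ind hgiN (hcm (measurableSet_singleton Q))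
  have hQ : ∀ Q : ℤ × ℤ, ∫⁻ w, (∫⁻ y, ENNReal.ofReal (χ y) *
      ‖So n ψ (pc cell gi Q) (w + y)‖ₑ ^ 2) ^ (q / 2) ≤
        ENNReal.ofReal E ^ q * ∫⁻ z, ‖pc cell gi Q z‖ₑ ^ q := by
    intro Q
    have h1 : ∃ a : ℂ, ∀ z, pc cell gi Q z ≠ 0 → ‖z - a‖ ≤ R := by
      by_cases h : ∃ z0, pc cell gi Q z0 ≠ 0
      · obtain ⟨z0, h0⟩ := h
        refine ⟨z0, fun z hz => hdiam z z0 ?_⟩
        have e1 : z ∈ {z' | cell z' = Q} := Set.mem_of_indicator_ne_zero (f := gi) hz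
        have e2 : z0 ∈ {z' | cell z' = Q} := Set.mem_of_indicator_ne_zero (f := gi) h0
        have e1' : cell z = Q := e1
        have e2' : cell z0 = Q := e2
        rw [e1', e2']
      · exact ⟨0, fun z hz => absurd ⟨z, hz⟩ h⟩
    obtain ⟨a, ha⟩ := h1
    have h2 := ENNReal.rpow_le_rpow (hcell a _ (hpc Q) ha) hq0.le
    rw [one_div, ENNReal.rpow_inv_rpow hq0.ne', ENNReal.mul_rpow_of_nonneg _ _ hq0.le,
      ENNReal.rpow_inv_rpow hq0.ne'] at h2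
    exact h2
  have hsum : ∑' Q : ℤ × ℤ, ∫⁻ z, ‖pc cell gi Q z‖ₑ ^ q = ∫⁻ z, ‖gi z‖ₑ ^ q := by
    rw [← lintegral_tsum fun Q => ((hpc Q).1.enorm.pow_const q).aemeasurable]
    refine lintegral_congr fun z => ?_
    rw [tsum_eq_single (cell z)]
    · unfold pc
      rw [Set.indicator_of_mem (show z ∈ {z' | cell z' = cell z} from rfl)]
    · intro Q hQ
      unfold pc
      rw [Set.indicator_of_notMem (show z ∉ {z' | cell z' = Q} from fun h => hQ h.symm),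
        enorm_zero, ENNReal.zero_rpow_of_pos hq0]
  have hle : ∫⁻ z, ‖gi z‖ₑ ^ q ≤ ∫⁻ z, ‖g z‖ₑ ^ q := by
    refine lintegral_mono fun z => ENNReal.rpow_le_rpow ?_ hq0.le
    rw [hgi]
    by_cases h : z ∈ I
    · rw [Set.indicator_of_mem h]
    · rw [Set.indicator_of_notMem h, enorm_zero]
      exact zero_le
  calc _ ≤ (∑' Q : ℤ × ℤ, ENNReal.ofReal E ^ q * ∫⁻ z, ‖pc cell gi Q z‖ₑ ^ q) +
        ENNReal.ofReal off * ∫⁻ z, ‖gi z‖ₑ ^ q := add_le_add (ENNReal.tsum_le_tsum hQ) le_rfl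
    _ = (ENNReal.ofReal E ^ q + ENNReal.ofReal off) * ∫⁻ z, ‖gi z‖ₑ ^ q := by
        rw [ENNReal.tsum_mul_left, hsum, add_mul]
    _ ≤ ENNReal.ofReal ((E + off ^ (1 / q)) ^ q) * ∫⁻ z, ‖g z‖ₑ ^ q := by
        refine mul_le_mul' ?_ hle
        rw [ENNReal.ofReal_rpow_of_nonneg hE hq0.le, ← ENNReal.ofReal_add (by positivity) hoff]
        refine ENNReal.ofReal_le_ofReal ?_
        have h1 := Real.add_rpow_le_rpow_add hE (Real.rpow_nonneg hoff (1 / q)) hq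
        have h2 : (off ^ (1 / q)) ^ q = off := by
          rw [← Real.rpow_mul hoff, one_div, inv_mul_cancel₀ hq0.ne', Real.rpow_one]
        rwa [h2] at h1

theorem num {m : ℝ} (hm : 6 / 5 ≤ m) :
    ∃ τ c1 : ℝ, 0 < τ ∧ τ ≤ 1 / 4000 ∧ 0 < c1 ∧ c1 ≤ 1 / 2 ∧
      1 - 2 * c1 - (1 / 2 + c1) / m ≤ (1 - 1 / m) - τ ∧
      51 / 2000 + (τ + 1 / 2 + c1) * (1 - 1 / m) + 2 * (1 / 40) / qr m ≤
        (1 - 1 / m) - τ := by
  have h1 : (6 : ℝ) / 5 ≤ m := hm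
  have hm0 : (0 : ℝ) < m := by linarith
  have hm1 : 2 * m - 1 ≠ 0 := by
    have : 0 < 2 * m - 1 := by linarith
    exact this.ne'
  refine ⟨1 / 4000, 1 / (2 * (2 * m + 1)) + 1 / 4000, by norm_num, by norm_num, by positivity,
    ?_, ?_, ?_⟩
  · have h3 : 1 / (2 * (2 * m + 1)) ≤ 1 / 4 := by
      rw [div_le_div_iff₀ (by positivity) (by norm_num)]
      linarith
    linarith
  · have h3 : 1 - 2 * (1 / (2 * (2 * m + 1)) + 1 / 4000) -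
        (1 / 2 + (1 / (2 * (2 * m + 1)) + 1 / 4000)) / m =
        (1 - 1 / m) - 1 / 4000 * (2 + 1 / m) := by
      field_simp
      ring
    rw [h3]
    have h4 : 0 < 1 / m := by positivity
    nlinarith
  · have h3 : 2 * (1 / 40 : ℝ) / qr m = 1 / 40 * ((2 * m - 1) / m) := by
      unfold qr
      field_simp
    have h4 : 51 / 2000 + (1 / 4000 + 1 / 2 + (1 / (2 * (2 * m + 1)) + 1 / 4000)) *
        (1 - 1 / m) + 1 / 40 * ((2 * m - 1) / m) =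
        (1 - 1 / m) - 1 / 4000 - (((m - 1) / (2 * m + 1) - 51 / 2000 -
          1 / 40 * ((2 * m - 1) / m)) - 1 / 4000 - 1 / 2000 * (1 - 1 / m)) := by
      field_simp
      ring
    rw [h3, h4]
    have h5 : 0 < 1 / m := by positivity
    have h6 : (1 : ℝ) / 1000 ≤ (m - 1) / (2 * m + 1) - 51 / 2000 - 1 / 40 * ((2 * m - 1) / m) := by
      have h7 : (m - 1 : ℝ) / (2 * m + 1) - 51 / 2000 - 1 / 40 * ((2 * m - 1) / m) - 1 / 1000 =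
          ((m - 6 / 5) * (1694 * m - 202 / 10) + 2576 / 100) / (2000 * m * (2 * m + 1)) := by
        field_simp
        ring
      have h8 : 0 ≤ ((m - 6 / 5) * (1694 * m - 202 / 10) + 2576 / 100) / (2000 * m * (2 * m + 1)) := by
        apply div_nonneg _ (by positivity)
        apply add_nonneg _ (by norm_num)
        apply mul_nonneg <;> linarith
      linarith
    linarith

theorem err_bd {N : ℝ} (hN : 1 ≤ N) {m : ℝ} (hm : 6 / 5 ≤ m) {c1 τ C R : ℝ} (hC : 0 ≤ C)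
    (hc1 : c1 ≤ 1 / 2)
    (h : 1 - 2 * c1 - (1 / 2 + c1) / m ≤ (1 - 1 / (m : ℝ)) - τ)
    (hR : R = N ^ (-(1 / 2) - c1) / 8) :
    C * N * (R + N * R ^ 2) * R ^ (1 / (m : ℝ)) ≤ C * (N ^ (1 - 1 / (m : ℝ)) * N ^ (-τ)) := by
  have hN0 : 0 < N := by linarith
  have hm0 : 0 < m := by linarith
  obtain ⟨u, hu⟩ : ∃ u, u = N ^ (-(1 / 2) - c1) := ⟨_, rfl⟩
  have hu0 : 0 < u := by rw [hu]; positivity
  have h1 : u ≤ N ^ (-(2 * c1)) := by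
    rw [hu]
    exact Real.rpow_le_rpow_of_exponent_le hN (by linarith)
  have h2 : N * u ^ 2 = N ^ (-(2 * c1)) := by
    rw [hu, ← Real.rpow_natCast, ← Real.rpow_mul hN0.le]
    conv_lhs => rw [← Real.rpow_one N, ← Real.rpow_mul hN0.le, ← Real.rpow_add hN0]
    congr 1
    push_cast
    ring
  have h3 : R + N * R ^ 2 ≤ N ^ (-(2 * c1)) := by
    rw [hR, ← hu, div_pow, ← mul_div_assoc, h2]
    have : 0 < N ^ (-(2 * c1)) := by positivity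
    linarith
  have hR0 : 0 ≤ R := by rw [hR]; positivity
  have h4 : R ^ (1 / (m : ℝ)) ≤ N ^ ((-(1 / 2) - c1) * (1 / m)) := by
    rw [Real.rpow_mul hN0.le, ← hu]
    refine Real.rpow_le_rpow hR0 ?_ (by positivity)
    rw [hR, ← hu]
    linarith
  calc C * N * (R + N * R ^ 2) * R ^ (1 / (m : ℝ))
      ≤ C * N * N ^ (-(2 * c1)) * N ^ ((-(1 / 2) - c1) * (1 / m)) := by gcongr
    _ = C * N ^ (1 - 2 * c1 - (1 / 2 + c1) / m) := by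
        rw [mul_assoc, mul_assoc, ← Real.rpow_add hN0]
        congr 1
        conv_lhs => rw [← Real.rpow_one N, ← Real.rpow_mul hN0.le, ← Real.rpow_add hN0]
        congr 1
        ring
    _ ≤ C * (N ^ (1 - 1 / (m : ℝ)) * N ^ (-τ)) := by
        rw [← Real.rpow_add hN0]
        refine mul_le_mul_of_nonneg_left (Real.rpow_le_rpow_of_exponent_le hN ?_) hC
        linarith

theorem off_bd {N : ℝ} (hN : 1 ≤ N) {m : ℝ} (hm : 6 / 5 ≤ m) {c c2 c1 τ CI CJ q : ℝ} (hCI : 0 < CI)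
    (hCJ : 0 < CJ) (hq : 1 ≤ q)
    (h : c2 + (τ + 1 / 2 + c1) * (1 - 1 / (m : ℝ)) + 2 * c / q ≤ (1 - 1 / (m : ℝ)) - τ) :
    (CI * (CJ / (N ^ (-c2)) ^ 2) ^ (q / 2) *
      ((N ^ (-τ) * (N ^ (-(1 / 2) - c1) / 16)) ^ (-2 + 2 / (m : ℝ))) ^ (q / 2) *
        (N ^ c) ^ 2) ^ (1 / q) ≤
      (CI ^ (1 / q) * CJ ^ (1 / 2 : ℝ) * 16) * (N ^ (1 - 1 / (m : ℝ)) * N ^ (-τ)) := by
  have hN0 : 0 < N := by linarith
  have hq0 : 0 < q := by linarith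
  have hm1 : (6 : ℝ) / 5 ≤ m := hm
  have hm0 : 0 < m := by linarith
  have hP : ∀ x : ℝ, 0 < N ^ x := fun x => Real.rpow_pos_of_pos hN0 x
  have e1 : ∀ X : ℝ, 0 ≤ X → (X ^ (q / 2)) ^ (1 / q) = X ^ (1 / 2 : ℝ) := by
    intro X hX
    rw [← Real.rpow_mul hX]
    congr 1
    field_simp
  have e2 : (CJ / (N ^ (-c2)) ^ 2) ^ (1 / 2 : ℝ) = CJ ^ (1 / 2 : ℝ) * N ^ c2 := by
    rw [Real.div_rpow hCJ.le (by positivity), ← Real.rpow_natCast, ← Real.rpow_mul hN0.le,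
      ← Real.rpow_mul hN0.le, div_eq_mul_inv, ← Real.rpow_neg hN0.le]
    congr 2
    push_cast
    ring
  have e3 : ((N ^ (-τ) * (N ^ (-(1 / 2) - c1) / 16)) ^ (-2 + 2 / (m : ℝ))) ^ (1 / 2 : ℝ) ≤
      16 * N ^ ((τ + 1 / 2 + c1) * (1 - 1 / (m : ℝ))) := by
    have f1 : N ^ (-τ) * (N ^ (-(1 / 2) - c1) / 16) = N ^ (-(τ + 1 / 2 + c1)) * 16⁻¹ := by
      rw [← mul_div_assoc, ← Real.rpow_add hN0, div_eq_mul_inv]
      congr 2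
      ring
    have f2 : (-2 + 2 / (m : ℝ)) * (1 / 2) = -(1 - 1 / (m : ℝ)) := by ring
    rw [f1, ← Real.rpow_mul (by positivity), f2, Real.mul_rpow (hP _).le (by norm_num),
      ← Real.rpow_mul hN0.le, Real.inv_rpow (by norm_num), ← Real.rpow_neg (by norm_num), neg_neg,
      neg_mul_neg, mul_comm]
    refine mul_le_mul_of_nonneg_right ?_ (hP _).le
    have f3 : (16 : ℝ) ^ (1 - 1 / (m : ℝ)) ≤ (16 : ℝ) ^ (1 : ℝ) := by
      refine Real.rpow_le_rpow_of_exponent_le (by norm_num) ?_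
      have : 0 < 1 / (m : ℝ) := by positivity
      linarith
    rwa [Real.rpow_one] at f3
  have e4 : ((N ^ c) ^ 2) ^ (1 / q) = N ^ (2 * c / q) := by
    rw [← Real.rpow_natCast, ← Real.rpow_mul hN0.le, ← Real.rpow_mul hN0.le]
    congr 1
    push_cast
    ring
  rw [Real.mul_rpow (by positivity) (by positivity), Real.mul_rpow (by positivity) (by positivity),
    Real.mul_rpow (by positivity) (by positivity), e1 _ (by positivity), e1 _ (by positivity), e2,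
    e4]
  calc CI ^ (1 / q) * (CJ ^ (1 / 2 : ℝ) * N ^ c2) *
        ((N ^ (-τ) * (N ^ (-(1 / 2) - c1) / 16)) ^ (-2 + 2 / (m : ℝ))) ^ (1 / 2 : ℝ) *
          N ^ (2 * c / q)
      ≤ CI ^ (1 / q) * (CJ ^ (1 / 2 : ℝ) * N ^ c2) *
        (16 * N ^ ((τ + 1 / 2 + c1) * (1 - 1 / (m : ℝ)))) * N ^ (2 * c / q) := by gcongr
    _ = (CI ^ (1 / q) * CJ ^ (1 / 2 : ℝ) * 16) *
        N ^ (c2 + (τ + 1 / 2 + c1) * (1 - 1 / (m : ℝ)) + 2 * c / q) := by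
        rw [Real.rpow_add hN0 (c2 + _), Real.rpow_add hN0 c2]
        ring
    _ ≤ _ := by
        rw [← Real.rpow_add hN0]
        refine mul_le_mul_of_nonneg_left (Real.rpow_le_rpow_of_exponent_le hN ?_) (by positivity)
        linarith

/-- the final theorem, for one `n` -/
theorem one (hL : S_LAY) {m A : ℝ} (hm : 6 / 5 ≤ m) (hA : 0 < A) {B : ℝ}
    {χ : ℂ → ℝ} (hχd : ContDiff ℝ 2 χ) (hχ0 : ∀ y, 0 ≤ χ y) (hχs : ∀ y, 1 < ‖y‖ → χ y = 0)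
    (hχi : ∫ y, χ y = 1) {CJ CI CC e η τ c1 κ : ℝ} (hCJ : 0 < CJ) (hCI : 0 < CI) (hCC : 0 < CC)
    (he0 : 0 < e) (he1 : e ≤ 1)
    (hJJ : ∀ (n : ℕ) (l D : ℝ) (ψ : ℂ → ℝ), 1 ≤ n → 0 < l → l ≤ 1 →
      Cut B 1 D ψ → ∀ z z' w : ℂ, z ≠ z' →
      ‖∫ y, (sc χ l y : ℂ) * (kk n ψ (w + y - z) * conj (kk n ψ (w + y - z')))‖ ≤
        CJ / (l ^ 2 * ‖z - z'‖ ^ 2))
    (hINT : ∀ (n : ℕ) (ψ : ℂ → ℝ) (l D CJ δ : ℝ) (χ : ℂ → ℝ) (cell : ℂ → ℤ × ℤ) (g : ℂ → ℂ),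
      1 ≤ n → 0 < l → l ≤ 1 → 1 ≤ D → 0 ≤ CJ → 0 < δ → Measurable χ → (∀ y, 0 ≤ χ y) →
      (∀ y, l < ‖y‖ → χ y = 0) →
      (∫ y, χ y = 1) → (∃ B, Cut B 1 D ψ) → Measurable cell → Nice g →
      (∀ z z', g z ≠ 0 → g z' ≠ 0 → cell z ≠ cell z' → δ ≤ ‖z - z'‖) →
      (∀ z z' w : ℂ, z ≠ z' →
        ‖∫ y, (χ y : ℂ) * (kk n ψ (w + y - z) * conj (kk n ψ (w + y - z')))‖ ≤
          CJ * (‖z - z'‖ ^ 2)⁻¹) →
      ∫⁻ w, (∫⁻ y, ENNReal.ofReal (χ y) * ‖So n ψ g (w + y)‖ₑ ^ 2) ^ (qr m / 2) ≤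
        (∑' Q : ℤ × ℤ, ∫⁻ w, (∫⁻ y, ENNReal.ofReal (χ y) *
          ‖So n ψ (pc cell g Q) (w + y)‖ₑ ^ 2) ^ (qr m / 2)) +
        ENNReal.ofReal (CI * CJ ^ (qr m / 2) * (δ ^ (-2 + 2 / (m : ℝ))) ^ (qr m / 2) * D ^ 2) *
          ∫⁻ z, ‖g z‖ₑ ^ (qr m))
    (hCELL : ∀ (n : ℕ) (R l T D : ℝ) (ψ : ℂ → ℝ) (χ : ℂ → ℝ≥0∞) (a : ℂ) (g : ℂ → ℂ),
      1 ≤ n → 0 < R → R ≤ 1 / 8 → (n : ℝ) * R ^ 2 ≤ 1 / 4 → 0 < l → l ≤ η → 1 ≤ D → 0 < T →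
      T * D ≤ η * n → (n : ℝ) * l ≤ η * T → Cut B 1 D ψ → Mol l χ → Nice g →
      (∀ z, g z ≠ 0 → ‖z - a‖ ≤ R) →
      (∫⁻ w, (∫⁻ y, χ y * ‖So n ψ g (w + y)‖ₑ ^ 2) ^ (qr m / 2)) ^ (1 / qr m) ≤
        ENNReal.ofReal ((1 + e / 8) * AR A m n + CC * n * (R + n * R ^ 2) * R ^ (1 / (m : ℝ))) *
          (∫⁻ z, ‖g z‖ₑ ^ (qr m)) ^ (1 / qr m))
    (hτ : 0 < τ) (hτ1 : τ ≤ 1 / 4000) (hc1 : 0 < c1) (hc1' : c1 ≤ 1 / 2)
    (hx1 : 1 - 2 * c1 - (1 / 2 + c1) / m ≤ (1 - 1 / (m : ℝ)) - τ)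
    (hx2 : 51 / 2000 + (τ + 1 / 2 + c1) * (1 - 1 / (m : ℝ)) + 2 * (1 / 40) / qr m ≤
        (1 - 1 / (m : ℝ)) - τ)
    (hκη : κ ≤ η) (hκ1 : κ ≤ 1 / 2)
    (hκA : (CC + CI ^ (1 / qr m) * CJ ^ (1 / 2 : ℝ) * 16) * κ ≤ e / 8 * A)
    (hκe : 2 * κ ≤ (e / 8) ^ qr m)
    {n : ℕ} (hn : 1 ≤ n) (hnκ : (n : ℝ) ^ (-τ) ≤ κ) (ψ : ℂ → ℝ)
    (hψ : Cut B 1 ((n : ℝ) ^ (1 / 40 : ℝ)) ψ) :
    ∀ g : ℂ → ℂ, Nice g →
      ∫⁻ w, (∫⁻ y, ENNReal.ofReal (sc χ ((n : ℝ) ^ (-(51 / 2000) : ℝ)) y) *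
        ‖So n ψ g (w + y)‖ₑ ^ 2) ^ (qr m / 2) ≤
      ENNReal.ofReal (((1 + e) * AR A m n) ^ (qr m)) * ∫⁻ z, ‖g z‖ₑ ^ (qr m) := by
  have hm1 : 1 < m := by linarith
  obtain ⟨hq1', hq2, -⟩ := CELL.qq_facts m hm1
  have hq1 : 1 ≤ qr m := hq1'.le
  have hq0 : 0 < qr m := by linarith
  have hN : (1 : ℝ) ≤ n := by exact_mod_cast hn
  have hN0 : (0 : ℝ) < n := by linarith
  have hP : ∀ x : ℝ, 0 < (n : ℝ) ^ x := fun x => Real.rpow_pos_of_pos hN0 x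
  have hcont : Continuous ψ := hψ.1.continuous
  obtain ⟨x, hx⟩ : ∃ x : ℝ, x = (n : ℝ) ^ (-τ) := ⟨_, rfl⟩
  have hx0 : 0 < x := by rw [hx]; exact hP _
  have hxκ : x ≤ κ := hx ▸ hnκ
  obtain ⟨l, hl⟩ : ∃ l : ℝ, l = (n : ℝ) ^ (-(51 / 2000) : ℝ) := ⟨_, rfl⟩
  have hl0 : 0 < l := by rw [hl]; exact hP _
  have hlx : l ≤ x := by
    rw [hl, hx]
    exact Real.rpow_le_rpow_of_exponent_le hN (by linarith)
  have hyx : (n : ℝ) ^ (-(1 / 4000) : ℝ) ≤ x := by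
    rw [hx]
    exact Real.rpow_le_rpow_of_exponent_le hN (by linarith)
  obtain ⟨T, hT⟩ : ∃ T : ℝ, T = (n : ℝ) ^ (3899 / 4000 : ℝ) := ⟨_, rfl⟩
  have hT0 : 0 < T := by rw [hT]; exact hP _
  obtain ⟨u, hu⟩ : ∃ u : ℝ, u = (n : ℝ) ^ (-(1 / 2) - c1) := ⟨_, rfl⟩
  have hu0 : 0 < u := by rw [hu]; exact hP _
  have hu1 : u ≤ 1 := by
    rw [hu]
    exact Real.rpow_le_one_of_one_le_of_nonpos hN (by linarith)
  obtain ⟨D, hD⟩ : ∃ D : ℝ, D = (n : ℝ) ^ (1 / 40 : ℝ) := ⟨_, rfl⟩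
  have hD1 : 1 ≤ D := by
    rw [hD]
    exact Real.one_le_rpow hN (by norm_num)
  rw [← hD] at hψ
  rw [← hl]
  -- the conditions of CELL
  have hnR : (n : ℝ) * (u / 8) ^ 2 ≤ 1 / 4 := by
    have h1 : (n : ℝ) * u ^ 2 ≤ 1 := by
      have h2 : (n : ℝ) * u ^ 2 = (n : ℝ) ^ (-(2 * c1)) := by
        rw [hu, ← Real.rpow_natCast ((n : ℝ) ^ (-(1 / 2) - c1)), ← Real.rpow_mul hN0.le]
        conv_lhs => rw [← Real.rpow_one (n : ℝ), ← Real.rpow_mul hN0.le, ← Real.rpow_add hN0]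
        congr 1
        push_cast
        ring
      rw [h2]
      exact Real.rpow_le_one_of_one_le_of_nonpos hN (by linarith)
    rw [div_pow, ← mul_div_assoc]
    linarith
  have hTD : T * D ≤ η * n := by
    have h1 : T * D = (n : ℝ) ^ (-(1 / 4000) : ℝ) * n := by
      rw [hT, hD, ← Real.rpow_add hN0]
      conv_rhs => rw [mul_comm, ← Real.rpow_one (n : ℝ), ← Real.rpow_mul hN0.le,
        ← Real.rpow_add hN0]
      congr 1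
      norm_num
    rw [h1]
    exact mul_le_mul_of_nonneg_right (hyx.trans (hxκ.trans hκη)) hN0.le
  have hnl : (n : ℝ) * l ≤ η * T := by
    have h1 : (n : ℝ) * l = (n : ℝ) ^ (-(1 / 4000) : ℝ) * T := by
      rw [hT, hl, ← Real.rpow_add hN0]
      conv_lhs => rw [← Real.rpow_one (n : ℝ), ← Real.rpow_mul hN0.le, ← Real.rpow_add hN0]
      congr 1
      norm_num
    rw [h1]
    exact mul_le_mul_of_nonneg_right (hyx.trans (hxκ.trans hκη)) hT0.le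
  -- the constants
  obtain ⟨E, hE⟩ : ∃ E : ℝ, E = (1 + e / 8) * AR A m n +
      CC * n * (u / 8 + n * (u / 8) ^ 2) * (u / 8) ^ (1 / (m : ℝ)) := ⟨_, rfl⟩
  have hAA : 0 < AR A m n := mul_pos (hP _) hA
  have hE0 : 0 ≤ E := by rw [hE]; positivity
  obtain ⟨off, hoff⟩ : ∃ off : ℝ, off = CI * (CJ / l ^ 2) ^ (qr m / 2) *
      ((x * (u / 16)) ^ (-2 + 2 / (m : ℝ))) ^ (qr m / 2) * D ^ 2 := ⟨_, rfl⟩
  have hoff0 : 0 ≤ off := by rw [hoff]; positivity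
  have hM : E + off ^ (1 / qr m) ≤ (1 + e / 4) * AR A m n := by
    have h1 : CC * n * (u / 8 + n * (u / 8) ^ 2) * (u / 8) ^ (1 / (m : ℝ)) ≤
        CC * ((n : ℝ) ^ (1 - 1 / (m : ℝ)) * (n : ℝ) ^ (-τ)) :=
      err_bd hN hm hCC.le hc1' hx1 (by rw [hu])
    have h2 : off ^ (1 / qr m) ≤ (CI ^ (1 / qr m) * CJ ^ (1 / 2 : ℝ) * 16) *
        ((n : ℝ) ^ (1 - 1 / (m : ℝ)) * (n : ℝ) ^ (-τ)) := by
      rw [hoff, hl, hx, hu, hD]
      exact off_bd hN hm hCI hCJ hq1 hx2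
    have h3 : (CC + CI ^ (1 / qr m) * CJ ^ (1 / 2 : ℝ) * 16) * x ≤ e / 8 * A :=
      (mul_le_mul_of_nonneg_left hxκ (by positivity)).trans hκA
    have h4 := mul_le_mul_of_nonneg_left h3 (hP (1 - 1 / (m : ℝ))).le
    have h5 : (n : ℝ) ^ (1 - 1 / (m : ℝ)) * (e / 8 * A) = e / 8 * AR A m n := by
      unfold AR
      ring
    rw [h5] at h4
    rw [← hx] at h1 h2
    rw [hE]
    linarith
  have hMol : Mol l fun y => ENNReal.ofReal (sc χ l y) :=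
    LQ.sc_mol hχd.continuous hχ0 hχs hχi hl0
  obtain ⟨N, hNN⟩ : ∃ N : (ℂ → ℂ) → ℝ≥0∞, N = fun g => ∫⁻ w, (∫⁻ y, ENNReal.ofReal (sc χ l y) *
    ‖So n ψ g (w + y)‖ₑ ^ 2) ^ (qr m / 2) := ⟨_, rfl⟩
  -- the inner part
  have hinner : ∀ g : ℂ → ℂ, Nice g → ∃ I, MeasurableSet I ∧
      ∫⁻ z in Iᶜ, ‖g z‖ₑ ^ (qr m) ≤ ENNReal.ofReal (2 * x) * ∫⁻ z, ‖g z‖ₑ ^ (qr m) ∧
      N (I.indicator g) ≤
        ENNReal.ofReal (((1 + e / 4) * AR A m n) ^ (qr m)) * ∫⁻ z, ‖g z‖ₑ ^ (qr m) := by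
    intro g hg
    obtain ⟨cell, I, hcm, hI, h1, h2, h3⟩ := hL (qr m) (u / 16) x g hq0 (by positivity) hx0
      (by linarith) hg
    refine ⟨I, hI, h1, ?_⟩
    rw [hNN]
    refine (inner (χ := sc χ l) (R := u / 8) (δ := x * (u / 16)) (E := E) (off := off) hq1 hE0 hoff0
      ?_ ?_ hg hcm hI h2 ?_).trans ?_
    · intro a g' hg' ha
      rw [hE]
      exact hCELL n (u / 8) l T D ψ _ a g' hn (by positivity) (by linarith) hnR hl0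
        (hlx.trans (hxκ.trans hκη)) hD1 hT0 hTD hnl hψ hMol hg' ha
    · intro cell' g' hcm' hg' hsep'
      rw [hoff]
      refine hINT n ψ l D (CJ / l ^ 2) (x * (u / 16)) (sc χ l) cell' g' hn hl0
        (by linarith) hD1 (by positivity) (by positivity) (LQ.sc_cont hχd.continuous l).measurable
        (LQ.sc_nonneg hχ0 l) (LQ.sc_supp hχs hl0) (LQ.sc_int hχi hl0) ⟨B, hψ⟩ hcm' hg' hsep' ?_
      intro z z' w hzz
      refine (hJJ n l D ψ hn hl0 (by linarith) hψ z z' w hzz).trans (le_of_eq ?_)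
      rw [div_mul_eq_div_div, div_eq_mul_inv]
    · intro z z' hzz
      have := h3 z z' hzz
      linarith
    · refine mul_le_mul' (ENNReal.ofReal_le_ofReal ?_) le_rfl
      exact Real.rpow_le_rpow (by positivity) hM hq0.le
  have hρ : (2 * x) ^ (1 / qr m) ≤ e / 8 := by
    have h1 : (2 * x) ^ (1 / qr m) ≤ ((e / 8) ^ qr m) ^ (1 / qr m) :=
      Real.rpow_le_rpow (by positivity) (by linarith) (by positivity)
    rwa [← Real.rpow_mul (by positivity), mul_one_div_cancel hq0.ne', Real.rpow_one] at h1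
  have hadd : ∀ g, Nice g → ∀ I, MeasurableSet I →
      (N g) ^ (1 / qr m) ≤ (N (I.indicator g)) ^ (1 / qr m) +
        (N (Iᶜ.indicator g)) ^ (1 / qr m) := by
    intro g hg I hI
    rw [hNN]
    beta_reduce
    simp only [LQ.So_add hn hψ hg hI]
    exact mink hMol.1 (LQ.So_meas hcont (LQ.nice_ind hg hI))
      (LQ.So_meas hcont (LQ.nice_ind hg hI.compl)) hq1
  have hfin : ∃ K, 0 ≤ K ∧ ∀ g, Nice g →
      N g ≤ ENNReal.ofReal (K ^ qr m) * ∫⁻ z, ‖g z‖ₑ ^ (qr m) := by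
    rw [hNN]
    exact FIN.fin hm1 hn hψ (by linarith) hMol
  have hfinal := improve (N := N) (M := (1 + e / 4) * AR A m n) (K' := (1 + e) * AR A m n) (η := x)
    hq1 (by positivity) hx0 hadd hinner hfin (by linarith) ?_
  · rw [hNN] at hfinal
    exact hfinal
  have h1 : (1 + e) * AR A m n * (2 * x) ^ (1 / qr m) ≤ (1 + e) * AR A m n * (e / 8) :=
    mul_le_mul_of_nonneg_left hρ (by positivity)
  have h2 : (1 + e / 4) + (1 + e) * (e / 8) < 1 + e := by nlinarith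
  nlinarith

/-- **LQT.** -/
theorem t : Pool.Agent.H10.RP.R_LQT := by
  obtain ⟨χ, hχd, hχ0, hχs, hχi, hJJ⟩ := Pool.Agent.N892.BW.JJ.t Pool.Agent.N892.BW.IBP.t
  refine ⟨χ, ⟨hχd, hχ0, hχs, hχi⟩, ?_⟩
  intro m A B ε hm hA hP hε
  have hm1 : 1 < m := by linarith
  obtain ⟨CJ, hCJ, hJJ⟩ := hJJ B
  obtain ⟨CI, hCI, hINT⟩ := INT.t m hm1
  obtain ⟨CC, hCC, hCELL⟩ := CELL.t m B hm1
  obtain ⟨e, he⟩ : ∃ e, e = min ε 1 := ⟨_, rfl⟩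
  have he0 : 0 < e := by rw [he]; exact lt_min hε one_pos
  have he1 : e ≤ 1 := by rw [he]; exact min_le_right _ _
  have heε : e ≤ ε := by rw [he]; exact min_le_left _ _
  obtain ⟨η, hη, hCELL⟩ := hCELL A (e / 8) hA hP (by positivity)
  obtain ⟨τ, c1, hτ, hτ1, hc1, hc1', hx1, hx2⟩ := num hm
  obtain ⟨hq1', hq2, -⟩ := CELL.qq_facts m hm1
  have hq1 : 1 ≤ qr m := hq1'.le
  obtain ⟨κ, hκ0, hκη, hκ1, hκA, hκe⟩ := LQ.kappa (η := η) (e := e) (G := A)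
    (A := CC + CI ^ (1 / qr m) * CJ ^ (1 / 2 : ℝ) * 16) (q := qr m) hη he0 hA (by positivity)
  have hlim : ∀ᶠ n : ℕ in atTop, (n : ℝ) ^ (-τ) ≤ κ :=
    ((tendsto_rpow_neg_atTop hτ).comp tendsto_natCast_atTop_atTop).eventually_le_const hκ0
  obtain ⟨n₀, hn₀⟩ := eventually_atTop.1 (hlim.and (eventually_ge_atTop 1))
  refine ⟨n₀, fun n hn ψ hψ g hg => ?_⟩
  obtain ⟨h1, h2⟩ := hn₀ n hn
  have h3 := one Pool.Agent.N892.BW.LAY.t hm hA hχd hχ0 hχs hχi hCJ hCI hCC he0 he1 hJJ hINT hCELL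
    hτ hτ1 hc1 hc1' hx1 hx2 hκη hκ1 hκA hκe h2 h1 ψ hψ g hg
  refine h3.trans (mul_le_mul' (ENNReal.ofReal_le_ofReal ?_) le_rfl)
  have hAA : 0 ≤ AR A m n := mul_nonneg (Real.rpow_nonneg (Nat.cast_nonneg n) _) hA.le
  refine Real.rpow_le_rpow (by positivity) ?_ (by linarith)
  exact mul_le_mul_of_nonneg_right (by linarith) hAA

end Pool.Agent.H10.RP.LQT
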