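import Pool.Agent.H10.RP.Stm
import Pool.Graph.R_pool_sql_team_seeded_63374d34.N892.BW.NUM

/-!
Project RP, part NUM: the numerical inequality for real exponents (the library file `N892/BW/NUM.lean` treats
natural exponents).
-/

set_option autoImplicit false

open Filter Topology Complex
open scoped ComplexConjugate

namespace Pool.Agent.H10.RP.NUM

open Pool.Agent.N892.BW Pool.Agent.H10.RP

/-- second order Bernoulli inequality for real exponents -/
theorem bern (m M : ℝ) (hm : 1 < m) (hM : 0 ≤ M) : ∃ D : ℝ, 0 ≤ D ∧ ∀ t : ℝ, -1 ≤ t → t ≤ M →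
    (1 + t) ^ m ≤ 1 + m * t + D * t ^ 2 := by
  obtain ⟨k, hk⟩ : ∃ k : ℕ, (k : ℝ) + 1 ≤ m ∧ m < k + 2 := by
    refine ⟨⌊m⌋₊ - 1, ?_, ?_⟩
    · have h1 : 1 ≤ ⌊m⌋₊ := Nat.le_floor (by exact_mod_cast hm.le)
      have h2 : (⌊m⌋₊ : ℝ) ≤ m := Nat.floor_le (by linarith)
      rw [Nat.cast_sub h1]
      push_cast
      linarith
    · have h1 : 1 ≤ ⌊m⌋₊ := Nat.le_floor (by exact_mod_cast hm.le)
      have h2 : m < (⌊m⌋₊ : ℝ) + 1 := Nat.lt_floor_add_one m
      rw [Nat.cast_sub h1]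
      push_cast
      linarith
  obtain ⟨σ, hσ⟩ : ∃ σ : ℝ, σ = m - (k + 1) := ⟨_, rfl⟩
  have hσ0 : 0 ≤ σ := by linarith
  have hσ1 : σ ≤ 1 := by linarith
  obtain ⟨D, hD, H⟩ := Pool.Agent.N892.BW.NUM.taylor 1 M hM k
  refine ⟨((k : ℝ) + 1) * σ + D + D * σ * M, by positivity, fun t ht1 ht2 => ?_⟩
  have h0 : 0 ≤ 1 + t := by linarith
  have h1 := H 1 t t zero_le_one h0 (by linarith) (by simp)
  simp only [one_pow, one_mul, mul_one] at h1
  have h2 : (1 + t) ^ σ ≤ 1 + σ * t := rpow_one_add_le_one_add_mul_self ht1 hσ0 hσ1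
  have h3 : 0 ≤ (1 + t) ^ σ := Real.rpow_nonneg h0 _
  have h4 : 0 ≤ 1 + σ * t := by nlinarith
  have h5 : (1 + t) ^ m = (1 + t) ^ (k + 1) * (1 + t) ^ σ := by
    have e : m = ((k + 1 : ℕ) : ℝ) + σ := by
      push_cast
      rw [hσ]
      ring
    conv_lhs => rw [e]
    rw [Real.rpow_add_of_nonneg h0 (by positivity) hσ0, Real.rpow_natCast]
  rw [h5]
  have h6 : 0 ≤ (1 + t) ^ (k + 1) := by positivity
  have h7 : (1 + t) ^ (k + 1) * (1 + t) ^ σ ≤ (1 + ((k : ℝ) + 1) * t + D * t ^ 2) * (1 + σ * t) :=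
    mul_le_mul h1 h2 h3 (h6.trans h1)
  refine h7.trans ?_
  have h8 : D * σ * t ^ 3 ≤ D * σ * M * t ^ 2 := by
    have : t ^ 3 ≤ M * t ^ 2 := by
      have := mul_le_mul_of_nonneg_right ht2 (sq_nonneg t)
      calc t ^ 3 = t * t ^ 2 := by ring
        _ ≤ _ := this
    calc D * σ * t ^ 3 ≤ D * σ * (M * t ^ 2) := mul_le_mul_of_nonneg_left this (by positivity)
      _ = _ := by ring
  have e : m = σ + (k + 1) := by rw [hσ]; ring
  rw [e]
  nlinarith

theorem t : R_NUM := by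
  intro m ε hm hε
  obtain ⟨lam, hl0, hl⟩ : ∃ lam : ℝ, 0 < lam ∧
      (1 + lam) ^ (2 * m) + 2 * m * lam ^ (2 * m - 1) ≤ 1 + ε := by
    have hc : Continuous (fun l : ℝ => (1 + l) ^ (2 * m) + 2 * m * l ^ (2 * m - 1)) := by
      refine Continuous.add ?_ (continuous_const.mul ?_)
      · exact (continuous_const.add continuous_id).rpow_const fun x => Or.inr (by linarith)
      · exact continuous_id.rpow_const fun x => Or.inr (by linarith)
    have h0 := hc.tendsto 0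
    have h2 : ∀ᶠ l in 𝓝 (0 : ℝ), (1 + l) ^ (2 * m) + 2 * m * l ^ (2 * m - 1) < 1 + ε := by
      refine h0.eventually_lt_const ?_
      rw [add_zero, Real.one_rpow, Real.zero_rpow (by linarith), mul_zero]
      linarith
    have h3 : ∀ᶠ l in 𝓝[>] (0 : ℝ), (1 + l) ^ (2 * m) + 2 * m * l ^ (2 * m - 1) < 1 + ε :=
      nhdsWithin_le_nhds h2
    obtain ⟨l, hl, hl'⟩ := (h3.and self_mem_nhdsWithin).exists
    exact ⟨l, hl', hl.le⟩
  obtain ⟨D, hD, H⟩ := bern m (2 * lam⁻¹ + lam⁻¹ ^ 2) hm (by positivity)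
  refine ⟨D * (2 + lam⁻¹) ^ 2 + m, by positivity, fun a b => ?_⟩
  have hx : 0 ≤ ‖a‖ := norm_nonneg a
  have hy : 0 ≤ ‖b‖ := norm_nonneg b
  have hell : |(conj b * a).re| ≤ ‖a‖ * ‖b‖ := by
    refine (Complex.abs_re_le_norm _).trans (le_of_eq ?_)
    rw [norm_mul, Complex.norm_conj, mul_comm]
  have hsq : ‖b + a‖ ^ 2 = ‖b‖ ^ 2 + (2 * (conj b * a).re + ‖a‖ ^ 2) := by
    rw [← Complex.normSq_eq_norm_sq, ← Complex.normSq_eq_norm_sq, ← Complex.normSq_eq_norm_sq,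
      Complex.normSq_apply, Complex.normSq_apply, Complex.normSq_apply, Complex.mul_re,
      Complex.conj_re, Complex.conj_im, Complex.add_re, Complex.add_im]
    ring
  have htri : ‖b + a‖ ≤ ‖b‖ + ‖a‖ := norm_add_le _ _
  have hba : 0 ≤ ‖b + a‖ := norm_nonneg _
  generalize (conj b * a).re = ell at *
  generalize ‖b + a‖ = z at *
  generalize ‖a‖ = x at *
  generalize ‖b‖ = y at *
  obtain ⟨hell1, hell2⟩ := abs_le.1 hell
  rcases le_or_gt y (lam * x) with hyx | hyx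
  · have h1 : z ^ (2 * m) ≤ (1 + lam) ^ (2 * m) * x ^ (2 * m) := by
      rw [← Real.mul_rpow (by linarith) hx]
      exact Real.rpow_le_rpow hba (by linarith) (by linarith)
    have h2 : y ^ (2 * m - 2) * (x * y) ≤ lam ^ (2 * m - 1) * x ^ (2 * m) := by
      have e1 : y ^ (2 * m - 2) * y = y ^ (2 * m - 1) := by
        rw [← Real.rpow_add_one' hy (by linarith)]
        congr 1
        ring
      have e2 : x ^ (2 * m - 1) * x = x ^ (2 * m) := by
        rw [← Real.rpow_add_one' hx (by linarith)]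
        congr 1
        ring
      have : y ^ (2 * m - 1) ≤ (lam * x) ^ (2 * m - 1) := Real.rpow_le_rpow hy hyx (by linarith)
      calc y ^ (2 * m - 2) * (x * y) = y ^ (2 * m - 2) * y * x := by ring
        _ = y ^ (2 * m - 1) * x := by rw [e1]
        _ ≤ (lam * x) ^ (2 * m - 1) * x := by gcongr
        _ = lam ^ (2 * m - 1) * (x ^ (2 * m - 1) * x) := by
          rw [Real.mul_rpow hl0.le hx]
          ring
        _ = _ := by rw [e2]
    have hy2 : 0 ≤ y ^ (2 * m - 2) := Real.rpow_nonneg hy _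
    have h3 : -(y ^ (2 * m - 2) * (x * y)) ≤ y ^ (2 * m - 2) * ell := by
      rw [← mul_neg]
      exact mul_le_mul_of_nonneg_left hell1 hy2
    have hx2 : 0 ≤ x ^ (2 * m) := Real.rpow_nonneg hx _
    have h4 : ((1 + lam) ^ (2 * m) + 2 * m * lam ^ (2 * m - 1)) * x ^ (2 * m) ≤
        (1 + ε) * x ^ (2 * m) := mul_le_mul_of_nonneg_right hl hx2
    have h5 : 0 ≤ y ^ (2 * m) := Real.rpow_nonneg hy _
    have h6 : 0 ≤ (D * (2 + lam⁻¹) ^ 2 + m) * (x ^ 2 * y ^ (2 * m - 2)) := by positivity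
    have h7 : 2 * m * -(lam ^ (2 * m - 1) * x ^ (2 * m)) ≤ 2 * m * (y ^ (2 * m - 2) * ell) := by
      refine mul_le_mul_of_nonneg_left ?_ (by linarith)
      linarith
    linarith
  · have hy0 : 0 < y := lt_of_le_of_lt (by positivity) hyx
    have hxy : x ≤ lam⁻¹ * y := by
      rw [inv_mul_eq_div, le_div_iff₀ hl0]
      linarith
    have hc0 : 0 < lam⁻¹ := inv_pos.2 hl0
    generalize lam⁻¹ = c at *
    have h1 : 2 * ell + x ^ 2 ≤ (2 * c + c ^ 2) * y ^ 2 := by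
      nlinarith [mul_nonneg hx hy, mul_le_mul_of_nonneg_right hxy hy, mul_le_mul hxy hxy hx (by positivity)]
    have h2 : (2 * ell + x ^ 2) ^ 2 ≤ (2 + c) ^ 2 * (x ^ 2 * y ^ 2) := by
      have e1 : (2 + c) ^ 2 * (x ^ 2 * y ^ 2) = ((2 + c) * (x * y)) ^ 2 := by ring
      rw [e1]
      apply sq_le_sq'
      · nlinarith [mul_nonneg hx hy, mul_nonneg hc0.le (mul_nonneg hx hy), sq_nonneg x]
      · nlinarith [mul_nonneg hx hy, mul_le_mul_of_nonneg_left hxy hx]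
    have hy2 : 0 < y ^ 2 := by positivity
    obtain ⟨t, ht⟩ : ∃ t : ℝ, t = (2 * ell + x ^ 2) / y ^ 2 := ⟨_, rfl⟩
    have ht1 : y ^ 2 * t = 2 * ell + x ^ 2 := by
      rw [ht]
      field_simp
    have ht2 : y ^ 2 * (1 + t) = z ^ 2 := by
      rw [hsq, ← ht1]
      ring
    have ht3 : -1 ≤ t := by
      have : 0 ≤ y ^ 2 * (1 + t) := by rw [ht2]; positivity
      have := nonneg_of_mul_nonneg_right this hy2
      linarith
    have ht4 : t ≤ 2 * c + c ^ 2 := by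
      rw [ht, div_le_iff₀ hy2]
      exact h1
    have h3 := H t ht3 ht4
    have h4 : z ^ (2 * m) = y ^ (2 * m) * (1 + t) ^ m := by
      have e1 : z ^ (2 * m) = (z ^ 2) ^ m := by
        rw [← Real.rpow_natCast z 2, ← Real.rpow_mul hba]
        norm_num
      have e2 : y ^ (2 * m) = (y ^ 2) ^ m := by
        rw [← Real.rpow_natCast y 2, ← Real.rpow_mul hy]
        norm_num
      rw [e1, e2, ← ht2, Real.mul_rpow hy2.le (by linarith)]
    have e3 : y ^ (2 * m) = y ^ (2 * m - 2) * y ^ 2 := by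
      rw [← Real.rpow_natCast y 2, ← Real.rpow_add hy0]
      norm_num
    have hY : 0 < y ^ (2 * m - 2) := Real.rpow_pos_of_pos hy0 _
    have h5 : z ^ (2 * m) ≤ y ^ (2 * m) * (1 + m * t + D * t ^ 2) := by
      rw [h4]
      exact mul_le_mul_of_nonneg_left h3 (Real.rpow_nonneg hy _)
    have h6 : y ^ (2 * m) * (1 + m * t + D * t ^ 2) =
        y ^ (2 * m) + y ^ (2 * m - 2) * (m * (y ^ 2 * t)) +
          D * (y ^ (2 * m - 2) * (y ^ 2 * t ^ 2)) := by
      rw [e3]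
      ring
    have h7 : y ^ 2 * t ^ 2 ≤ (2 + c) ^ 2 * x ^ 2 := by
      have : (y ^ 2 * t ^ 2) * y ^ 2 ≤ ((2 + c) ^ 2 * x ^ 2) * y ^ 2 := by
        calc (y ^ 2 * t ^ 2) * y ^ 2 = (y ^ 2 * t) ^ 2 := by ring
          _ = (2 * ell + x ^ 2) ^ 2 := by rw [ht1]
          _ ≤ _ := h2
          _ = _ := by ring
      exact le_of_mul_le_mul_right this hy2
    have h8 : D * (y ^ (2 * m - 2) * (y ^ 2 * t ^ 2)) ≤
        D * (y ^ (2 * m - 2) * ((2 + c) ^ 2 * x ^ 2)) := by gcongr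
    rw [h6, ht1] at h5
    have h9 : 0 ≤ (1 + ε) * x ^ (2 * m) := mul_nonneg (by linarith) (Real.rpow_nonneg hx _)
    have h10 : y ^ (2 * m - 2) * (m * (2 * ell + x ^ 2)) =
        2 * m * (y ^ (2 * m - 2) * ell) + m * (x ^ 2 * y ^ (2 * m - 2)) := by ring
    have h11 : D * (y ^ (2 * m - 2) * ((2 + c) ^ 2 * x ^ 2)) =
        D * (2 + c) ^ 2 * (x ^ 2 * y ^ (2 * m - 2)) := by ring
    rw [h10] at h5
    rw [h11] at h8
    have h12 : (D * (2 + c) ^ 2 + m) * (x ^ 2 * y ^ (2 * m - 2)) =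
        D * (2 + c) ^ 2 * (x ^ 2 * y ^ (2 * m - 2)) + m * (x ^ 2 * y ^ (2 * m - 2)) := by ring
    rw [h12]
    linarith

end Pool.Agent.H10.RP.NUM
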