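import Pool.Agent.H10.RP.PIT
import Pool.Agent.H10.RP.LQT
import Pool.Agent.H10.RP.FTH
import Pool.Agent.H10.RP.FUL
import Pool.Agent.H10.RP.INR
import Pool.Agent.H10.RP.SPT
import Pool.Agent.H10.RP.LPF
import Pool.Agent.H10.RP.NUM
import Pool.Agent.H10.RP.ENU
import Pool.Agent.H56.RP.END
import Pool.Agent.H56.RP.SUQ
import Pool.Agent.H56.RP.STR
import Pool.Agent.H56.RP.CMP
import Pool.Agent.H56.RP.LPSCLS
import Pool.Agent.H56.RP.SGR
import Pool.Agent.H56.RP.SGE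
import Pool.Agent.H56.RP.FNT
import Pool.Agent.H56.RP.DUT
import Pool.Agent.H56.RP.DMX
import Pool.Agent.H6.RP.POM
import Pool.Agent.H6.RP.POI
import Pool.Agent.H6.RP.GGL
import Pool.Agent.H6.RP.CHI
import Pool.Agent.H6.RP.FWK
import Pool.Agent.H6.RP.NUA
import Pool.Agent.H6.RP.STA
import Pool.Agent.H6.RP.RZC
import Pool.Agent.H53.RP.PTA
import Pool.Agent.H53.RP.PTB
import Pool.Agent.H2.RP.LTM
import Pool.Agent.H87.RP.GN2
import Pool.Agent.H29.RP.NB2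
import Pool.Agent.H29.RP.RTM

/-!
Project RP: assembly of all parts but the numerical values NB1 and the gain GN3.
-/

set_option autoImplicit false

namespace Pool.Agent.H10.RP.ALL

open Pool.Agent.N892.BW Pool.Agent.H10.RP

theorem rzc : R_RZC := Pool.Agent.H6.RP.rzc Pool.Agent.N892.BW.RZ.t
theorem gn2 : R_GN2 := Pool.Agent.H87.RP.GN2.t rzc
theorem pom : R_POM := Pool.Agent.H6.RP.pom
theorem poi : R_POI := Pool.Agent.H6.RP.poi
theorem ggl : R_GGL := Pool.Agent.H6.RP.ggl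
theorem sta : R_STA := Pool.Agent.H6.RP.sta pom poi ggl
theorem stb : R_STB := Pool.Agent.H6.RP.stb pom poi
theorem chi : R_CHI := Pool.Agent.H6.RP.chi
theorem fwk : R_FWK := Pool.Agent.H6.RP.fwk pom poi
theorem nua : R_NUA := Pool.Agent.H6.RP.nua fwk
theorem nb2 : R_NB2 := Pool.Agent.H29.RP.NB2.t
theorem pta : R_PTA := Pool.Agent.H53.RP.PTA.t sta gn2
theorem ptb (gn3 : R_GN3) : R_PTB := Pool.Agent.H53.RP.PTB.t stb gn3
theorem pit (gn3 : R_GN3) (nb1 : R_NB1) : R_PIT := PIT.t pta (ptb gn3) nua chi nb1 nb2 pom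

theorem lqt : R_LQT := LQT.t
theorem str : R_STR := Pool.Agent.H56.RP.STR.t lqt Pool.Agent.H56.RP.DUT.t
theorem dmx : R_DMX := Pool.Agent.H56.RP.DMX.t
theorem sgr : R_SGR := Pool.Agent.H56.RP.SGR.t Pool.Agent.H56.RP.SGE.t Pool.Agent.H29.RP.RTM.t
theorem lps : R_LPS := Pool.Agent.H56.RP.LPSCLS.lps sgr
theorem cls : R_CLS := Pool.Agent.H56.RP.LPSCLS.cls sgr
theorem lpf : R_LPF := LPF.t lps
theorem spt : R_SPT := SPT.t cls
theorem suq : R_SUQ := Pool.Agent.H56.RP.SUQ.t dmx lpf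
theorem ltm : R_LTM := Pool.Agent.H2.RP.LTM.t ALL.bas ALL.cnv ALL.hlm ALL.maj ALL.low dmx lpf
theorem enu : R_ENU := ENU.t NUM.t ltm
theorem fth : R_FTH := FTH.t enu suq Pool.Agent.H56.RP.CMP.t str INR.t spt Pool.Agent.H56.RP.FNT.t lpf
theorem ful : R_FUL := FUL.t fth
theorem fin (gn3 : R_GN3) (nb1 : R_NB1) : R_END := Pool.Agent.H56.RP.END.t ful (pit gn3 nb1)

end Pool.Agent.H10.RP.ALL
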