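import Pool.Agent.H10.RP.Stm
import Pool.Graph.R_pool_sql_team_seeded_63374d34.N892.BW.KTH
import Pool.Graph.R_pool_sql_team_seeded_63374d34.N892.BW.FTH
import Pool.Graph.R_pool_sql_team_seeded_63374d34.N892.BW.BAS

/-!
Project RP, part FTH: preliminaries and numerical part, real exponents (port of the library files
`N892/BW/KTH_A.lean`, `KTH_B.lean`, `FTH_A.lean`).
-/

set_option autoImplicit false

open MeasureTheory ENNReal Filter Topology Complex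
open scoped ComplexConjugate ContDiff

namespace Pool.Agent.H10.RP.FTH

open Pool.Agent.N892.BW Pool.Agent.H10.RP
open Pool.Agent.N892.BW.KTH (bd_mono bd_zero bd_add bd_Tn bd_Tn' bd_neg Fi_zero Fi_add ev meas)

theorem rpow_add_le {p : ℝ} (hp : 1 ≤ p) {a b : ℝ} (ha : 0 ≤ a) (hb : 0 ≤ b) :
    a ^ p + b ^ p ≤ (a + b) ^ p :=
  Real.add_rpow_le_rpow_add ha hb hp

theorem le_self_rpow {a p : ℝ} (ha : 1 ≤ a) (hp : 1 ≤ p) : a ≤ a ^ p := by
  calc a = a ^ (1 : ℝ) := (Real.rpow_one a).symm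
    _ ≤ a ^ p := Real.rpow_le_rpow_of_exponent_le ha hp

theorem le_of_rpow_le {p : ℝ} (hp : 1 ≤ p) {a b : ℝ} (ha : 0 ≤ a) (hb : 0 ≤ b) (h : a ^ p ≤ b ^ p) :
    a ≤ b := by
  by_contra hc
  push Not at hc
  exact absurd h (not_le.2 (Real.rpow_lt_rpow hb hc (by linarith)))

/-- Minkowski for finite sums -/
theorem mink_fin {p : ℝ} {M : ℕ} (hp : 1 ≤ p) {v w g : ℕ → ℝ} {a b : ℝ} (ha : 0 ≤ a) (hb : 0 ≤ b)
    (hv0 : ∀ k, k < M → 0 ≤ v k) (hw0 : ∀ k, k < M → 0 ≤ w k) (hg0 : ∀ k, k < M → 0 ≤ g k)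
    (hv : ∀ k, k < M → v k ≤ w k + g k) (hw : ∑ k ∈ Finset.range M, w k ^ p ≤ a ^ p)
    (hg : ∑ k ∈ Finset.range M, g k ^ p ≤ b ^ p) :
    ∑ k ∈ Finset.range M, v k ^ p ≤ (a + b) ^ p := by
  have hp0 : p ≠ 0 := by linarith
  have h1 := Real.Lp_add_le_of_nonneg (Finset.range M) (f := w) (g := g) (p := p) hp
    (fun i hi => hw0 i (Finset.mem_range.1 hi)) (fun i hi => hg0 i (Finset.mem_range.1 hi))
  have hroot : ∀ {s c : ℝ}, 0 ≤ s → 0 ≤ c → s ≤ c ^ p → s ^ (1 / p) ≤ c := by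
    intro s c hs hc hsc
    calc s ^ (1 / p) ≤ (c ^ p) ^ (1 / p) := Real.rpow_le_rpow hs hsc (by positivity)
      _ = c := by
          rw [← Real.rpow_mul hc, mul_one_div_cancel hp0, Real.rpow_one]
  have hsw : 0 ≤ ∑ k ∈ Finset.range M, w k ^ p :=
    Finset.sum_nonneg fun k hk => Real.rpow_nonneg (hw0 k (Finset.mem_range.1 hk)) _
  have hsg : 0 ≤ ∑ k ∈ Finset.range M, g k ^ p :=
    Finset.sum_nonneg fun k hk => Real.rpow_nonneg (hg0 k (Finset.mem_range.1 hk)) _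
  have hswg : 0 ≤ ∑ k ∈ Finset.range M, (w k + g k) ^ p :=
    Finset.sum_nonneg fun k hk => Real.rpow_nonneg
      (add_nonneg (hw0 k (Finset.mem_range.1 hk)) (hg0 k (Finset.mem_range.1 hk))) _
  have h2 : (∑ k ∈ Finset.range M, (w k + g k) ^ p) ^ (1 / p) ≤ a + b :=
    h1.trans (add_le_add (hroot hsw ha hw) (hroot hsg hb hg))
  have h3 : ∑ k ∈ Finset.range M, (w k + g k) ^ p ≤ (a + b) ^ p := by
    have h4 := Real.rpow_le_rpow (Real.rpow_nonneg hswg _) h2 (by linarith : (0 : ℝ) ≤ p)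
    rwa [← Real.rpow_mul hswg, one_div_mul_cancel hp0, Real.rpow_one] at h4
  refine le_trans (Finset.sum_le_sum fun k hk => ?_) h3
  exact Real.rpow_le_rpow (hv0 k (Finset.mem_range.1 hk)) (hv k (Finset.mem_range.1 hk)) (by linarith)

/-- the numerical core -/
theorem numcore {m : ℝ} {M : ℕ} (hm : 1 < m) {e P S U A c D r t B : ℝ} {v z y f : ℕ → ℝ}
    (he : 0 < e) (hP : 0 ≤ P) (hS : 0 ≤ S) (hU0 : 0 ≤ U) (hA : 0 ≤ A) (hc : 0 ≤ c) (hD : 0 ≤ D)
    (hr : 0 ≤ r) (hB0 : 0 ≤ B) (hte : t ≤ e)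
    (hvn : ∀ k, k < M → 0 ≤ v k) (hzn : ∀ k, k < M → 0 ≤ z k) (hfn : ∀ k, k < M → 0 ≤ f k)
    (hv : ∀ k, k < M → v k ≤ (1 + e) * A * y k + f k)
    (hy : ∀ k, k < M → y k ≤ z k + r * f k)
    (hz : ∑ k ∈ Finset.range M, z k ^ (2 * m) ≤ (1 + t) * P ^ (2 * m))
    (hf : ∑ k ∈ Finset.range M, f k ^ (2 * m) ≤ S ^ (2 * m)) (hSD : S ≤ D * P)
    (hsm : ((1 + e) * A * r + 1) * D ≤ e * A)
    (hU : U ^ (2 * m) ≤ (1 + e) ^ 2 * ∑ k ∈ Finset.range M, v k ^ (2 * m) +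
      B * S ^ 2 * U ^ (2 * m - 2))
    (hUc : U ≤ c * P) (hB : B * D ^ 2 ≤ e ^ (2 * m) * c ^ 2) :
    U ≤ ((1 + e) * ((1 + e) * (1 + e) + e) * A + e * c) * P := by
  have hp1 : 1 ≤ 2 * m := by linarith
  have hp0 : 0 ≤ 2 * m := by linarith
  have hp2 : 0 ≤ 2 * m - 2 := by linarith
  have hsv : ∑ k ∈ Finset.range M, v k ^ (2 * m) ≤
      ((1 + e) * A * ((1 + e) * P) + e * A * P) ^ (2 * m) := by
    refine mink_fin hp1 (w := fun k => (1 + e) * A * z k)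
      (g := fun k => ((1 + e) * A * r + 1) * f k)
      (by positivity) (by positivity) hvn (fun k hk => mul_nonneg (by positivity) (hzn k hk))
      (fun k hk => mul_nonneg (by positivity) (hfn k hk)) ?_ ?_ ?_
    · intro k hk
      have a1 := hv k hk
      have a2 : (1 + e) * A * y k ≤ (1 + e) * A * (z k + r * f k) :=
        mul_le_mul_of_nonneg_left (hy k hk) (by positivity)
      linarith
    · have : ∀ k ∈ Finset.range M, ((1 + e) * A * z k) ^ (2 * m) =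
          ((1 + e) * A) ^ (2 * m) * z k ^ (2 * m) :=
        fun k hk => Real.mul_rpow (by positivity) (hzn k (Finset.mem_range.1 hk))
      rw [Finset.sum_congr rfl this, ← Finset.mul_sum,
        Real.mul_rpow (x := (1 + e) * A) (by positivity) (by positivity)]
      refine mul_le_mul_of_nonneg_left (hz.trans ?_) (by positivity)
      rw [Real.mul_rpow (by positivity) hP]
      refine mul_le_mul_of_nonneg_right ?_ (by positivity)
      have : 1 + e ≤ (1 + e) ^ (2 * m) := le_self_rpow (by linarith) hp1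
      linarith
    · have : ∀ k ∈ Finset.range M, (((1 + e) * A * r + 1) * f k) ^ (2 * m) =
          ((1 + e) * A * r + 1) ^ (2 * m) * f k ^ (2 * m) :=
        fun k hk => Real.mul_rpow (by positivity) (hfn k (Finset.mem_range.1 hk))
      rw [Finset.sum_congr rfl this, ← Finset.mul_sum]
      calc _ ≤ ((1 + e) * A * r + 1) ^ (2 * m) * S ^ (2 * m) :=
            mul_le_mul_of_nonneg_left hf (by positivity)
        _ = (((1 + e) * A * r + 1) * S) ^ (2 * m) := by rw [Real.mul_rpow (by positivity) hS]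
        _ ≤ (e * A * P) ^ (2 * m) := by
            refine Real.rpow_le_rpow (by positivity) ?_ hp0
            calc ((1 + e) * A * r + 1) * S ≤ ((1 + e) * A * r + 1) * (D * P) :=
                  mul_le_mul_of_nonneg_left hSD (by positivity)
              _ = (((1 + e) * A * r + 1) * D) * P := by ring
              _ ≤ e * A * P := mul_le_mul_of_nonneg_right hsm hP
  have h6 : B * S ^ 2 * U ^ (2 * m - 2) ≤ (e * c * P) ^ (2 * m) := by
    have hsplit : ∀ x : ℝ, 0 ≤ x → x ^ (2 * m) = x ^ 2 * x ^ (2 * m - 2) := by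
      intro x hx
      rw [← Real.rpow_natCast x 2, ← Real.rpow_add_of_nonneg hx (by norm_num) hp2]
      congr 1
      push_cast
      ring
    have b1 := hsplit P hP
    have b2 := hsplit c hc
    have c1 : S ^ 2 ≤ (D * P) ^ 2 := pow_le_pow_left₀ hS hSD 2
    have c3 : U ^ (2 * m - 2) ≤ (c * P) ^ (2 * m - 2) := Real.rpow_le_rpow hU0 hUc hp2
    calc B * S ^ 2 * U ^ (2 * m - 2) ≤ B * (D * P) ^ 2 * (c * P) ^ (2 * m - 2) :=
          mul_le_mul (mul_le_mul_of_nonneg_left c1 hB0) c3 (Real.rpow_nonneg hU0 _) (by positivity)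
      _ = (B * D ^ 2) * (c ^ (2 * m - 2) * (P ^ 2 * P ^ (2 * m - 2))) := by
          rw [Real.mul_rpow hc hP, mul_pow D]
          ring
      _ ≤ (e ^ (2 * m) * c ^ 2) * (c ^ (2 * m - 2) * (P ^ 2 * P ^ (2 * m - 2))) :=
          mul_le_mul_of_nonneg_right hB (by positivity)
      _ = (e * c * P) ^ (2 * m) := by
          rw [Real.mul_rpow (by positivity) hP, Real.mul_rpow he.le hc, b1, b2]
          ring
  have h7 : (1 + e) ^ 2 * ∑ k ∈ Finset.range M, v k ^ (2 * m) ≤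
      ((1 + e) * ((1 + e) * A * ((1 + e) * P) + e * A * P)) ^ (2 * m) := by
    rw [Real.mul_rpow (x := 1 + e) (by positivity) (by positivity)]
    have : (1 + e) ^ 2 ≤ (1 + e) ^ (2 * m) := by
      rw [← Real.rpow_natCast (1 + e) 2]
      exact Real.rpow_le_rpow_of_exponent_le (by linarith) (by push_cast; linarith)
    exact mul_le_mul this hsv
      (Finset.sum_nonneg fun k hk => Real.rpow_nonneg (hvn k (Finset.mem_range.1 hk)) _)
      (by positivity)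
  have h8 := rpow_add_le hp1
    (a := (1 + e) * ((1 + e) * A * ((1 + e) * P) + e * A * P)) (b := e * c * P)
    (by positivity) (by positivity)
  have h9 : U ^ (2 * m) ≤
      ((1 + e) * ((1 + e) * A * ((1 + e) * P) + e * A * P) + e * c * P) ^ (2 * m) := by
    linarith
  have h10 : U ≤ (1 + e) * ((1 + e) * A * ((1 + e) * P) + e * A * P) + e * c * P :=
    le_of_rpow_le hp1 hU0 (by positivity) h9
  refine h10.trans (le_of_eq ?_)
  ring

theorem sum_rpow_le {m : ℝ} (hm : 1 ≤ m) (s : Finset ℕ) (g : ℕ → ℝ≥0∞) :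
    ∑ k ∈ s, g k ^ m ≤ (∑ k ∈ s, g k) ^ m := by
  classical
  induction s using Finset.induction_on with
  | empty =>
    rw [Finset.sum_empty]
    exact bot_le
  | insert k s hk ih =>
    rw [Finset.sum_insert hk, Finset.sum_insert hk]
    calc g k ^ m + ∑ i ∈ s, g i ^ m ≤ g k ^ m + (∑ i ∈ s, g i) ^ m := by gcongr
      _ ≤ (g k + ∑ i ∈ s, g i) ^ m := ENNReal.add_rpow_le_rpow_add _ _ hm

/-! ### roots -/

theorem Nr_zero {m : ℝ} (hm : 1 ≤ m) : Nr m (fun _ => 0) = 0 := by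
  unfold Nr
  have : 0 < 2 * m := by linarith
  simp [this]

theorem fin {b : ℝ} {h : ℂ → ℂ} (hB : Bd 0 b h) {m : ℝ} (hm : 1 ≤ m) :
    Nr m (Fi h) ≠ ⊤ := by
  obtain ⟨-, -, ⟨h1, h2, M, hM⟩, -, -⟩ := BAS.t b h hB
  unfold Nr
  have hle : ∀ x, ‖Fi h x‖ₑ ^ (2 * m) ≤ ENNReal.ofReal M ^ (2 * m - 1) * ‖Fi h x‖ₑ := by
    intro x
    have e : 2 * m = (2 * m - 1) + 1 := by ring
    conv_lhs => rw [e, ENNReal.rpow_add_of_nonneg _ _ (by linarith) zero_le_one, ENNReal.rpow_one]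
    refine mul_le_mul' (ENNReal.rpow_le_rpow ?_ (by linarith)) le_rfl
    rw [← ofReal_norm]
    exact ENNReal.ofReal_le_ofReal (hM x)
  have hK : ENNReal.ofReal M ^ (2 * m - 1) ≠ ⊤ :=
    ENNReal.rpow_ne_top_of_nonneg (by linarith) ENNReal.ofReal_ne_top
  refine ne_top_of_le_ne_top ?_ (lintegral_mono hle)
  rw [lintegral_const_mul' _ _ hK]
  exact ENNReal.mul_ne_top hK h2.2.ne

/-- the root -/
noncomputable def rt (m : ℝ) (t : ℝ≥0∞) : ℝ := t.toReal ^ (1 / (2 * m))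

theorem rt_nonneg (m : ℝ) (t : ℝ≥0∞) : 0 ≤ rt m t := Real.rpow_nonneg toReal_nonneg _

theorem rt_pow {m : ℝ} (hm : 1 ≤ m) {t : ℝ≥0∞} (ht : t ≠ ⊤) :
    t = ENNReal.ofReal (rt m t ^ (2 * m)) := by
  unfold rt
  have h0 : 2 * m ≠ 0 := by linarith
  rw [← Real.rpow_mul toReal_nonneg, one_div_mul_cancel h0, Real.rpow_one, ENNReal.ofReal_toReal ht]

theorem pw {r : ℝ} (hr : 0 ≤ r) {j k s : ℝ} (hs : k * s = j) (hs0 : 0 ≤ s) :
    (ENNReal.ofReal (r ^ k)) ^ s = ENNReal.ofReal (r ^ j) := by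
  rw [ENNReal.ofReal_rpow_of_nonneg (Real.rpow_nonneg hr _) hs0]
  congr 1
  rw [← Real.rpow_mul hr, hs]

theorem pw1 {m : ℝ} (hm : 1 ≤ m) {r : ℝ} (hr : 0 ≤ r) :
    (ENNReal.ofReal (r ^ (2 * m))) ^ (1 / (2 * m)) = ENNReal.ofReal r := by
  have h0 : m ≠ 0 := by linarith
  have := pw hr (j := 1) (k := 2 * m) (s := 1 / (2 * m)) (by field_simp) (by positivity)
  rwa [Real.rpow_one] at this

theorem pw2 {m : ℝ} (hm : 1 ≤ m) {r : ℝ} (hr : 0 ≤ r) :
    (ENNReal.ofReal (r ^ (2 * m))) ^ (1 / m) = ENNReal.ofReal (r ^ 2) := by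
  have h0 : m ≠ 0 := by linarith
  rw [pw hr (j := 2) (k := 2 * m) (s := 1 / m) (by field_simp) (by positivity)]
  norm_num

theorem pw3 {m : ℝ} (hm : 1 ≤ m) {r : ℝ} (hr : 0 ≤ r) :
    (ENNReal.ofReal (r ^ (2 * m))) ^ (1 - 1 / m) = ENNReal.ofReal (r ^ (2 * m - 2)) := by
  have h0 : m ≠ 0 := by linarith
  refine pw hr ?_ ?_
  · field_simp
  · rw [sub_nonneg, div_le_one (by linarith)]
    exact hm

theorem mink {m : ℝ} (hm : 1 ≤ m) {f g : ℂ → ℂ} (hf : Measurable f) (hg : Measurable g)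
    (hf1 : Nr m f ≠ ⊤) (hg1 : Nr m g ≠ ⊤) (hfg : Nr m (fun x => f x + g x) ≠ ⊤) :
    rt m (Nr m (fun x => f x + g x)) ≤ rt m (Nr m f) + rt m (Nr m g) := by
  have hp1 : (1 : ℝ) ≤ 2 * m := by linarith
  have h1 := ENNReal.lintegral_Lp_add_le (μ := volume) hf.enorm.aemeasurable
    hg.enorm.aemeasurable hp1
  have h2 : (∫⁻ x, ‖f x + g x‖ₑ ^ (2 * m)) ^ (1 / (2 * m)) ≤
      (∫⁻ x, ((fun x => ‖f x‖ₑ) + fun x => ‖g x‖ₑ) x ^ (2 * m)) ^ (1 / (2 * m)) := by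
    refine ENNReal.rpow_le_rpow (lintegral_mono fun x => ?_) (by positivity)
    exact ENNReal.rpow_le_rpow (enorm_add_le _ _) (by positivity)
  have h3 := h2.trans h1
  change (Nr m (fun x => f x + g x)) ^ (1 / (2 * m)) ≤
    (Nr m f) ^ (1 / (2 * m)) + (Nr m g) ^ (1 / (2 * m)) at h3
  rw [rt_pow hm hf1, rt_pow hm hg1, rt_pow hm hfg] at h3
  rw [pw1 hm (rt_nonneg _ _), pw1 hm (rt_nonneg _ _), pw1 hm (rt_nonneg _ _),
    ← ENNReal.ofReal_add (rt_nonneg _ _) (rt_nonneg _ _)] at h3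
  exact (ENNReal.ofReal_le_ofReal_iff (add_nonneg (rt_nonneg _ _) (rt_nonneg _ _))).1 h3

/-- from an inequality of integrals to one of roots -/
theorem rt_le {m : ℝ} (hm : 1 ≤ m) {s t : ℝ≥0∞} {c : ℝ} (hc : 0 ≤ c) (ht : t ≠ ⊤)
    (h : s ≤ ENNReal.ofReal (c ^ (2 * m)) * t) : rt m s ≤ c * rt m t := by
  have hs : s ≠ ⊤ := ne_top_of_le_ne_top (ENNReal.mul_ne_top ENNReal.ofReal_ne_top ht) h
  have h0 := rt_nonneg m t
  rw [rt_pow hm hs, rt_pow hm ht, ← ENNReal.ofReal_mul (by positivity), ← Real.mul_rpow hc h0,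
    ENNReal.ofReal_le_ofReal_iff (by positivity)] at h
  exact le_of_rpow_le (by linarith) (rt_nonneg _ _) (mul_nonneg hc (rt_nonneg _ _)) h

theorem le_rt {m : ℝ} (hm : 1 ≤ m) {s t : ℝ≥0∞} {c : ℝ} (hc : 0 ≤ c) (hs : s ≠ ⊤) (ht : t ≠ ⊤)
    (h : rt m s ≤ c * rt m t) : s ≤ ENNReal.ofReal (c ^ (2 * m)) * t := by
  have h0 := rt_nonneg m t
  rw [rt_pow hm hs, rt_pow hm ht, ← ENNReal.ofReal_mul (by positivity), ← Real.mul_rpow hc h0]
  exact ENNReal.ofReal_le_ofReal (Real.rpow_le_rpow (rt_nonneg _ _) h (by linarith))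

theorem Nr_neg {m : ℝ} {h : ℂ → ℂ} : Nr m (Fi (fun ξ => -h ξ)) = Nr m (Fi h) := by
  have : Fi (fun ξ => -h ξ) = fun x => -Fi h x := by
    funext x
    unfold Fi
    rw [← integral_neg]
    congr 1
    funext ξ
    ring
  rw [this]
  unfold Nr
  simp only [enorm_neg]

/-- Minkowski for `Fi` -/
theorem minkF {m : ℝ} (hm : 1 ≤ m) {b : ℝ} {h₁ h₂ h₃ : ℂ → ℂ} (hB₁ : Bd 0 b h₁)
    (hB₂ : Bd 0 b h₂) (h : h₃ = fun ξ => h₁ ξ + h₂ ξ) :
    rt m (Nr m (Fi h₃)) ≤ rt m (Nr m (Fi h₁)) + rt m (Nr m (Fi h₂)) := by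
  have h4 : Fi h₃ = fun x => Fi h₁ x + Fi h₂ x := by rw [h, Fi_add hB₁ hB₂]
  have h5 : Nr m (fun x => Fi h₁ x + Fi h₂ x) ≠ ⊤ := by
    rw [← Fi_add hB₁ hB₂]
    exact fin (bd_add hB₁ hB₂) hm
  rw [h4]
  exact mink hm (meas BAS.t hB₁) (meas BAS.t hB₂) (fin hB₁ hm) (fin hB₂ hm) h5

end Pool.Agent.H10.RP.FTH
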