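import Pool.Agent.H10.RP.PAL
import Pool.Graph.R_pool_sql_team_seeded_63374d34.N892.BW.MZC
import Pool.Graph.R_pool_sql_team_seeded_63374d34.N892.BW.MZF

/-!
Project RP, part MZC (port of `N892/BW/MZC.lean`).
-/

set_option autoImplicit false

open MeasureTheory ENNReal Filter Topology Complex
open scoped ComplexConjugate

namespace Pool.Agent.H10.RP.MZC

open Pool.Agent.N892.BW Pool.Agent.N892.BW.MZC

/-- the inequality for weighted finite sums -/
theorem finite_av (h1 : R_PAL) (h2 : S_MZF) (m A : ℝ) (n : ℕ) (hm : 1 < m) (hA0 : 0 < A)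
    (hP : Pit m A) (hn : 1 ≤ n) (g : ℂ → ℂ) (hg : Nice g) (S : Finset ℂ) (c : ℂ → ℝ≥0∞) (hc : ∀ y, c y ≠ ∞) (hc1 : ∑ y ∈ S, c y ≤ 1) :
    ∫⁻ w, (ENNReal.ofReal (ker n w ^ 2) *
        ∑ y ∈ S, ‖hat g (iv n w + y)‖ₑ ^ 2 * c y) ^ (qr m / 2) ≤
      ENNReal.ofReal (AR A m n ^ (qr m)) * ∫⁻ x, ‖g x‖ₑ ^ (qr m) := by
  have hq : 1 ≤ qr m := by
    unfold qr
    rw [le_div_iff₀ (by linarith)]
    linarith
  have hA : ∀ g, Nice g → ∫⁻ w, ‖∫ x, kp n w x * g x‖ₑ ^ (qr m) ≤
      ENNReal.ofReal (AR A m n ^ (qr m)) * ∫⁻ x, ‖g x‖ₑ ^ (qr m) := by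
    intro g hg
    refine le_trans (le_of_eq ?_) (h1 m A n hm hA0 hP hn g hg)
    refine lintegral_congr fun w => ?_
    rw [kp_int, enorm_mul, enorm_ker]
  have h3 := mzf_fin h2 (kp n) (measurable_kp n) (kp_bdd n) (qr m) hq _ hA S
    (fun y x => ((Real.sqrt (c y).toReal : ℝ) : ℂ) * (g x * ex x y))
    (fun y => nice_shift hg _ y)
  refine le_trans (le_of_eq ?_) (h3.trans ?_)
  · refine lintegral_congr fun w => ?_
    congr 1
    rw [Finset.mul_sum]
    refine Finset.sum_congr rfl fun y _ => ?_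
    rw [kp_int, hat_shift, enorm_mul, enorm_mul, mul_pow, mul_pow, enorm_ker,
      enorm_sqrt _ (hc y), ENNReal.ofReal_pow (ker_nonneg n w)]
    ring
  · refine mul_le_mul_right ?_ _
    refine lintegral_mono fun x => ?_
    have h4 : ∀ y, ‖((Real.sqrt (c y).toReal : ℝ) : ℂ) * (g x * ex x y)‖ₑ ^ 2 =
        c y * ‖g x‖ₑ ^ 2 := by
      intro y
      rw [enorm_mul, enorm_mul, mul_pow, mul_pow, enorm_sqrt _ (hc y)]
      have : ‖ex x y‖ₑ = 1 := by
        rw [← ofReal_norm, norm_ex, ENNReal.ofReal_one]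
      rw [this, one_pow, mul_one]
    simp only [h4]
    rw [← Finset.sum_mul]
    calc ((∑ y ∈ S, c y) * ‖g x‖ₑ ^ 2) ^ (qr m / 2) ≤ (1 * ‖g x‖ₑ ^ 2) ^ (qr m / 2) := by
          refine ENNReal.rpow_le_rpow (mul_le_mul_left hc1 _) (by linarith)
      _ = ‖g x‖ₑ ^ (qr m) := by
          rw [one_mul, ← ENNReal.rpow_natCast, ← ENNReal.rpow_mul]
          congr 1
          push_cast
          ring

theorem t0 (h1 : R_PAL) (h2 : S_MZF) : R_MZC := by
  intro m A n hm hA0 hP hn T hT g hg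
  have hq : 1 ≤ qr m := by
    unfold qr
    rw [le_div_iff₀ (by linarith)]
    linarith
  set ν : Measure ℂ := (volume (Metric.ball (0 : ℂ) T))⁻¹ • volume.restrict (Metric.ball (0 : ℂ) T)
    with hν
  have hball0 : volume (Metric.ball (0 : ℂ) T) ≠ 0 := (Metric.measure_ball_pos _ _ hT).ne'
  have hballt : volume (Metric.ball (0 : ℂ) T) ≠ ∞ := measure_ball_lt_top.ne
  have hν1 : ν Set.univ = 1 := by
    rw [hν, Measure.smul_apply, Measure.restrict_apply_univ, smul_eq_mul]
    exact ENNReal.inv_mul_cancel hball0 hballt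
  have hav : ∀ (X : ℂ → ℝ≥0∞) (v : ℂ), av T X v = ∫⁻ u, X (v + u) ∂ν := by
    intro X v
    rw [hν, lintegral_smul_measure]
    rfl
  set X : ℂ → ℝ≥0∞ := fun v => ‖hat g v‖ₑ ^ 2 with hX
  have hXc : Continuous X := (ENNReal.continuous_pow 2).comp (continuous_enorm.comp (continuous_hat hg))
  -- the simple functions
  let s : ℕ → SimpleFunc ℂ ℂ := fun N =>
    SimpleFunc.approxOn (id : ℂ → ℂ) measurable_id Set.univ 0 (Set.mem_univ _) N
  have hs : ∀ u, Tendsto (fun N => s N u) atTop (𝓝 u) := by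
    intro u
    exact SimpleFunc.tendsto_approxOn (f := (id : ℂ → ℂ)) measurable_id (Set.mem_univ 0)
      (subset_closure (Set.mem_univ _))
  have hsum : ∀ N v, ∫⁻ u, X (v + s N u) ∂ν =
      ∑ y ∈ (s N).range, X (v + y) * ν (s N ⁻¹' {y}) := by
    intro N v
    rw [← SimpleFunc.map_lintegral (fun y => X (v + y)) (s N),
      ← SimpleFunc.lintegral_eq_lintegral]
    rfl
  have hle : ∀ v, av T X v ≤ liminf (fun N => ∑ y ∈ (s N).range, X (v + y) * ν (s N ⁻¹' {y}))
      atTop := by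
    intro v
    rw [hav]
    have h3 : ∀ u, liminf (fun N => X (v + s N u)) atTop = X (v + u) := by
      intro u
      refine Tendsto.liminf_eq ?_
      exact (hXc.tendsto _).comp ((hs u).const_add v)
    calc ∫⁻ u, X (v + u) ∂ν = ∫⁻ u, liminf (fun N => X (v + s N u)) atTop ∂ν := by
          refine lintegral_congr fun u => (h3 u).symm
      _ ≤ liminf (fun N => ∫⁻ u, X (v + s N u) ∂ν) atTop := by
          refine lintegral_liminf_le fun N => ?_
          exact hXc.measurable.comp ((s N).measurable.const_add v)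
      _ = _ := by
          congr 1
          ext N
          exact hsum N v
  -- the monotone continuous function
  have hmap : ∀ (a : ℝ≥0∞), a ≠ ∞ → ∀ b : ℕ → ℝ≥0∞,
      (a * liminf b atTop) ^ (qr m / 2) = liminf (fun N => (a * b N) ^ (qr m / 2)) atTop := by
    intro a ha b
    have hmono : Monotone (fun y : ℝ≥0∞ => (a * y) ^ (qr m / 2)) := by
      intro y z hyz
      exact ENNReal.rpow_le_rpow (mul_le_mul_right hyz _) (by linarith)
    have hcont : Continuous (fun y : ℝ≥0∞ => (a * y) ^ (qr m / 2)) :=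
      ENNReal.continuous_rpow_const.comp (ENNReal.continuous_const_mul ha)
    exact hmono.map_liminf_of_continuousAt b hcont.continuousAt
  have hfin : ∀ N, ∫⁻ w, (ENNReal.ofReal (ker n w ^ 2) *
      ∑ y ∈ (s N).range, X (iv n w + y) * ν (s N ⁻¹' {y})) ^ (qr m / 2) ≤
      ENNReal.ofReal (AR A m n ^ (qr m)) * ∫⁻ x, ‖g x‖ₑ ^ (qr m) := by
    intro N
    refine finite_av h1 h2 m A n hm hA0 hP hn g hg (s N).range (fun y => ν (s N ⁻¹' {y})) ?_ ?_
    · intro y
      refine ne_of_lt (lt_of_le_of_lt (measure_mono (Set.subset_univ _)) ?_)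
      rw [hν1]
      exact ENNReal.one_lt_top
    · rw [SimpleFunc.sum_range_measure_preimage_singleton, hν1]
  calc ∫⁻ w, (ENNReal.ofReal (ker n w ^ 2) * av T X (iv n w)) ^ (qr m / 2)
      ≤ ∫⁻ w, liminf (fun N => (ENNReal.ofReal (ker n w ^ 2) *
          ∑ y ∈ (s N).range, X (iv n w + y) * ν (s N ⁻¹' {y})) ^ (qr m / 2)) atTop := by
        refine lintegral_mono fun w => ?_
        rw [← hmap _ ENNReal.ofReal_ne_top]
        exact ENNReal.rpow_le_rpow (mul_le_mul_right (hle _) _) (by linarith)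
    _ ≤ liminf (fun N => ∫⁻ w, (ENNReal.ofReal (ker n w ^ 2) *
          ∑ y ∈ (s N).range, X (iv n w + y) * ν (s N ⁻¹' {y})) ^ (qr m / 2)) atTop := by
        refine lintegral_liminf_le fun N => ?_
        refine Measurable.pow_const ?_ _
        refine Measurable.mul ?_ ?_
        · exact ENNReal.measurable_ofReal.comp ((measurable_ker n).pow_const 2)
        · refine Finset.measurable_sum _ fun y _ => ?_
          exact (hXc.measurable.comp ((measurable_iv n).add_const y)).mul_const _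
    _ ≤ liminf (fun _ : ℕ => ENNReal.ofReal (AR A m n ^ (qr m)) * ∫⁻ x, ‖g x‖ₑ ^ (qr m)) atTop :=
        liminf_le_liminf (Filter.Eventually.of_forall hfin)
    _ = _ := liminf_const _

/-- **MZC.** -/
theorem t : Pool.Agent.H10.RP.R_MZC := t0 PAL.t Pool.Agent.N892.BW.MZF.t

end Pool.Agent.H10.RP.MZC
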