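import Pool.Agent.H10.RP.StmT
import Pool.Graph.R_pool_sql_team_seeded_63374d34.N892.BW.KTH_B

/-!
Project RP, part PIT: the three new Pitt inequalities from PTA, PTB, NUA, CHI, NB1, NB2.
-/

set_option autoImplicit false

open MeasureTheory ENNReal Filter Topology Complex
open scoped ComplexConjugate ContDiff

namespace Pool.Agent.H10.RP.PIT

open Pool.Agent.N892.BW Pool.Agent.H10.RP
open Pool.Agent.N892.BW.KTH (GA_pos)

theorem exp_int {c : ℝ} (hc : 0 < c) : Integrable (fun y : ℝ => Real.exp (-(c * |y|))) := by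
  have h1 : IntegrableOn (fun y : ℝ => Real.exp (-c * y)) (Set.Ioi 0) :=
    integrableOn_exp_mul_Ioi (by linarith) 0
  have h2 : IntegrableOn (fun y : ℝ => Real.exp (-(c * |y|))) (Set.Ioi 0) := by
    refine h1.congr_fun (fun y hy => ?_) measurableSet_Ioi
    have : |y| = y := abs_of_pos hy
    simp only [this]
    congr 1
    ring
  have h3 : IntegrableOn (fun y : ℝ => Real.exp (-(c * |y|))) (Set.Iic 0) := by
    have h4 : IntegrableOn (fun y : ℝ => Real.exp (c * y)) (Set.Iic 0) :=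
      integrableOn_exp_mul_Iic hc 0
    refine h4.congr_fun (fun y hy => ?_) measurableSet_Iic
    have : |y| = -y := abs_of_nonpos hy
    simp only [this]
    congr 1
    ring
  have h5 := h3.union h2
  rwa [Set.Iic_union_Ioi, integrableOn_univ] at h5

theorem nu_int {ν : ℝ → ℝ} (h : Nu ν) : Integrable ν := by
  obtain ⟨h1, h2, -, ⟨C, c, hc, h3⟩, -⟩ := h
  refine Integrable.mono' ((exp_int hc).const_mul C) h1.aestronglyMeasurable
    (Eventually.of_forall fun y => ?_)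
  rw [Real.norm_of_nonneg (h2 y)]
  exact h3 y

theorem quo_cont (a b : ℝ) (hb : 0 ≤ b) (k : ℕ) :
    Continuous (fun y : ℝ => ((1 + y ^ 2 * a) / (1 + y ^ 2 * b)) ^ k) := by
  refine Continuous.pow ?_ k
  refine Continuous.div (by fun_prop) (by fun_prop) fun y => ?_
  positivity

/-- exponents `12/5` and `3` -/
theorem one (hCHI : R_CHI) {θ r : ℝ} (hθ : 0 < θ) (hN : Nu (fun y => P1 θ y / θ * (1 + y ^ 2)))
    (h1 : ∫ y : ℝ, P1 θ y / θ * (1 + y ^ 2) * ((1 + y ^ 2 / 9) / (1 + y ^ 2)) ^ 2 ≤ r) :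
    ∫ y : ℝ, P1 θ y / θ * (1 + y ^ 2) * ‖gm (1 / 2 + Complex.I * y / 2)‖ ^ 4 ≤ GA 2 ^ 4 * r := by
  have hG := GA_pos (m := 2) (by norm_num)
  have hi := nu_int hN
  have hp : ∀ y : ℝ, 0 ≤ P1 θ y / θ * (1 + y ^ 2) := hN.2.1
  have hg : Integrable (fun y : ℝ => GA 2 ^ 4 *
      (P1 θ y / θ * (1 + y ^ 2) * ((1 + y ^ 2 / 9) / (1 + y ^ 2)) ^ 2)) := by
    refine Integrable.const_mul ?_ _
    refine hi.mul_bdd (c := 1) ?_ (Eventually.of_forall fun y => ?_)
    · have h := quo_cont (1 / 9) 1 (by norm_num) 2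
      simp only [mul_one, mul_one_div] at h
      exact h.aestronglyMeasurable
    · have h0 : 0 ≤ (1 + y ^ 2 / 9) / (1 + y ^ 2) := by positivity
      rw [Real.norm_of_nonneg (by positivity)]
      refine pow_le_one₀ h0 ?_
      rw [div_le_one (by positivity)]
      nlinarith [sq_nonneg y]
  refine (integral_mono_of_nonneg (Eventually.of_forall fun y => ?_) hg
    (Eventually.of_forall fun y => ?_)).trans ?_
  · exact mul_nonneg (hp y) (by positivity)
  · calc P1 θ y / θ * (1 + y ^ 2) * ‖gm (1 / 2 + Complex.I * y / 2)‖ ^ 4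
        ≤ P1 θ y / θ * (1 + y ^ 2) * (GA 2 ^ 4 * ((1 + y ^ 2 / 9) / (1 + y ^ 2)) ^ 2) :=
          mul_le_mul_of_nonneg_left (hCHI.1 y) (hp y)
      _ = GA 2 ^ 4 * (P1 θ y / θ * (1 + y ^ 2) * ((1 + y ^ 2 / 9) / (1 + y ^ 2)) ^ 2) := by ring
  · rw [integral_const_mul]
    exact mul_le_mul_of_nonneg_left h1 (by positivity)

/-- exponent `24/5` -/
theorem two (hCHI : R_CHI) (hPOM : R_POM)
    (h1 : ∫ y : ℝ, P1 (1 / 2) y / (1 / 2) * ((1 + y ^ 2 / 100) / (1 + y ^ 2 / 4)) ^ 3 ≤ 0.9) :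
    ∫ y : ℝ, P1 (1 / 2) y / (1 / 2) * ‖gm (1 / 3 + Complex.I * (y / 2) / 3)‖ ^ 6 ≤ GA 3 ^ 6 * 0.9 := by
  have hG := GA_pos (m := 3) (by norm_num)
  have hi : Integrable (fun y : ℝ => P1 (1 / 2) y / (1 / 2)) :=
    (hPOM (1 / 2) (by norm_num) (by norm_num)).1.div_const _
  have hp : ∀ y : ℝ, 0 ≤ P1 (1 / 2) y / (1 / 2) := by
    intro y
    unfold P1
    have e1 : Real.pi * (1 / 2) = Real.pi / 2 := by ring
    rw [e1, Real.sin_pi_div_two, Real.cos_pi_div_two]
    have : 0 < Real.cosh (Real.pi * y) := Real.cosh_pos _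
    positivity
  have hg : Integrable (fun y : ℝ => GA 3 ^ 6 *
      (P1 (1 / 2) y / (1 / 2) * ((1 + y ^ 2 / 100) / (1 + y ^ 2 / 4)) ^ 3)) := by
    refine Integrable.const_mul ?_ _
    refine hi.mul_bdd (c := 1) ?_ (Eventually.of_forall fun y => ?_)
    · have h := quo_cont (1 / 100) (1 / 4) (by norm_num) 3
      simp only [mul_one_div] at h
      exact h.aestronglyMeasurable
    · have h0 : 0 ≤ (1 + y ^ 2 / 100) / (1 + y ^ 2 / 4) := by positivity
      rw [Real.norm_of_nonneg (by positivity)]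
      refine pow_le_one₀ h0 ?_
      rw [div_le_one (by positivity)]
      nlinarith [sq_nonneg y]
  refine (integral_mono_of_nonneg (Eventually.of_forall fun y => ?_) hg
    (Eventually.of_forall fun y => ?_)).trans ?_
  · exact mul_nonneg (hp y) (by positivity)
  · have h2 := hCHI.2 (y / 2)
    have e1 : (1 + (y / 2) ^ 2 / 25) / (1 + (y / 2) ^ 2) = (1 + y ^ 2 / 100) / (1 + y ^ 2 / 4) := by
      congr 1
      · ring
      · ring
    rw [e1] at h2
    push_cast at h2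
    calc P1 (1 / 2) y / (1 / 2) * ‖gm (1 / 3 + Complex.I * (y / 2) / 3)‖ ^ 6
        ≤ P1 (1 / 2) y / (1 / 2) * (GA 3 ^ 6 * ((1 + y ^ 2 / 100) / (1 + y ^ 2 / 4)) ^ 3) :=
          mul_le_mul_of_nonneg_left h2 (hp y)
      _ = GA 3 ^ 6 * (P1 (1 / 2) y / (1 / 2) * ((1 + y ^ 2 / 100) / (1 + y ^ 2 / 4)) ^ 3) := by ring
  · rw [integral_const_mul]
    exact mul_le_mul_of_nonneg_left h1 (by positivity)

theorem t (hPTA : R_PTA) (hPTB : R_PTB) (hNUA : R_NUA) (hCHI : R_CHI) (hNB1 : R_NB1) (hNB2 : R_NB2)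
    (hPOM : R_POM) : R_PIT := by
  obtain ⟨n1, n2, n3⟩ := hNUA
  obtain ⟨b1, b2, b3⟩ := hNB1
  obtain ⟨c1, c2, c3, -, -⟩ := hNB2
  have hG2 := GA_pos (m := 2) (by norm_num)
  have hG3 := GA_pos (m := 3) (by norm_num)
  refine ⟨?_, ?_, ?_⟩
  · exact hPTA (1 / 3) (6 / 5) (by norm_num) (by norm_num) (by norm_num) n1 (GA 2 ^ 4 * 0.8757) 1.3955
      (by positivity) (by norm_num) (one hCHI (by norm_num) n1 b1) c1
  · exact hPTA (2 / 3) (3 / 2) (by norm_num) (by norm_num) (by norm_num) n2 (GA 2 ^ 4 * 0.9153) 1.986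
      (by positivity) (by norm_num) (one hCHI (by norm_num) n2 b2) c2
  · exact hPTB (1 / 2) (12 / 5) (by norm_num) (by norm_num) (by norm_num) n3 (GA 3 ^ 6 * 0.9) 3.79
      (by positivity) (by norm_num) (two hCHI hPOM b3) c3

end Pool.Agent.H10.RP.PIT
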